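import Mathlib

/-!
Statements of the building blocks for MP_9bd952_ag (S00329): on a connected smooth affine variety `Y`
the number of nonconstant holomorphic functions omitting `0` and `1` is at most `16 ^ r`, where `r` is
the rank of the group of homotopy classes of maps from `Y` to the punctured plane.
Each block `S_xxx` is to be proved in its own file as `theorem xxx : S_xxx`.
-/

set_option autoImplicit false

open Set Filter Topology Metric

namespace Pool.Agent.R848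

/-- `f` has a continuous logarithm on the set `S`. -/
def HasLog {X : Type} [TopologicalSpace X] (f : X → ℂ) (S : Set X) : Prop :=
  ∃ l : X → ℂ, ContinuousOn l S ∧ ∀ x ∈ S, Complex.exp (l x) = f x

/-- BLOCK T1. Extension of logarithms from a sublevel set of a proper function without critical points
(in a topological sense) above the level `c₀`. -/
def S_T1 : Prop :=
  ∀ (U : Type) [MetricSpace U] (Φ : U → ℝ), Continuous Φ → (∀ c, IsCompact {y | Φ y ≤ c}) →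
    ∀ c₀ : ℝ, (∀ y, c₀ < Φ y → ∀ N ∈ 𝓝 y, ∃ W ∈ 𝓝 y, W ⊆ N ∧
      (W ∩ {x | Φ x < Φ y}).Nonempty ∧ IsPreconnected (W ∩ {x | Φ x < Φ y})) →
    ∀ f : U → ℂ, Continuous f → (∀ y, f y ≠ 0) → HasLog f {y | Φ y ≤ c₀} → HasLog f univ

/-- BLOCK T2. On a compact subset of a nice space the group of nonvanishing functions modulo
exponentials has finite rank. -/
def S_T2 : Prop :=
  ∀ (U : Type) [MetricSpace U] [LocallyConnectedSpace U],
    (∀ y : U, ∃ W ∈ 𝓝 y, ∀ f : U → ℂ, Continuous f → (∀ x, f x ≠ 0) → HasLog f W) →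
    ∀ K : Set U, IsCompact K → ∃ T : ℕ, ∀ f : Fin (T + 1) → U → ℂ,
      (∀ i, Continuous (f i)) → (∀ i x, f i x ≠ 0) →
      ∃ k : Fin (T + 1) → ℤ, k ≠ 0 ∧ HasLog (fun x => ∏ i, f i x ^ k i) K

/-- BLOCK N. A set of polynomials of degree at most `D` in the variables `σ` has at most
`(D + 1) ^ |σ|` common zeros at which their differentials have no common kernel. -/
def S_N : Prop :=
  ∀ (σ : Type) [Fintype σ] (D : ℕ) (E : Set (MvPolynomial σ ℂ)), (∀ p ∈ E, p.totalDegree ≤ D) →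
    ∀ Z : Finset (σ → ℂ), (∀ z ∈ Z, ∀ p ∈ E, MvPolynomial.eval z p = 0) →
    (∀ z ∈ Z, ∀ v : σ → ℂ, v ≠ 0 → ∃ p ∈ E,
      ∑ i, v i * MvPolynomial.eval z (MvPolynomial.pderiv i p) ≠ 0) →
    Z.card ≤ (D + 1) ^ Fintype.card σ

/-- BLOCK Crit. For every nonzero polynomial `P` there is a point `a` such that the function
`φ ζ = ∑ |ζ i - a i|² + 1 / |P ζ|²` on `{P ≠ 0}` has bounded critical values: there is `c₀` such that at
every point with `φ ζ > c₀` the real differential of `φ` does not vanish. -/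
def S_Crit : Prop :=
  ∀ (d : ℕ) (P : MvPolynomial (Fin d) ℂ), P ≠ 0 → ∃ (a : Fin d → ℂ) (c₀ : ℝ),
    ∀ ζ : Fin d → ℂ, MvPolynomial.eval ζ P ≠ 0 →
      c₀ < ∑ i, ‖ζ i - a i‖ ^ 2 + (‖MvPolynomial.eval ζ P‖ ^ 2)⁻¹ →
      fderiv ℝ (fun ζ : Fin d → ℂ => ∑ i, ‖ζ i - a i‖ ^ 2 + (‖MvPolynomial.eval ζ P‖ ^ 2)⁻¹) ζ ≠ 0

/-- BLOCK H. Half balls: near a noncritical point of a `C¹` function `φ` the set `φ < φ x` is locally
connected. -/
def S_H : Prop :=
  ∀ (V : Type) [NormedAddCommGroup V] [NormedSpace ℝ V] [FiniteDimensional ℝ V] (φ : V → ℝ) (x : V),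
    ContDiffAt ℝ 1 φ x → fderiv ℝ φ x ≠ 0 → ∀ N ∈ 𝓝 x, ∃ W ∈ 𝓝 x, W ⊆ N ∧
      (W ∩ {y | φ y < φ x}).Nonempty ∧ IsPreconnected (W ∩ {y | φ y < φ x})

/-- the values of finitely many polynomials -/
noncomputable def zmap {m d : ℕ} (z : Fin d → MvPolynomial (Fin m) ℂ) (y : Fin m → ℂ) : Fin d → ℂ :=
  fun i => MvPolynomial.eval y (z i)

/-- BLOCK G. An irreducible algebraic set `Y` is a proper branched covering of an affine space by
polynomials `z`, unbranched where `P ≠ 0`. -/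
def S_G : Prop :=
  ∀ (m : ℕ) (Y : Set (Fin m → ℂ)),
    (∃ S : Set (MvPolynomial (Fin m) ℂ), Y = {y | ∀ p ∈ S, MvPolynomial.eval y p = 0}) →
    Y.Nonempty →
    (∀ f g : MvPolynomial (Fin m) ℂ,
      (∀ y ∈ Y, MvPolynomial.eval y f = 0 ∨ MvPolynomial.eval y g = 0) →
      (∀ y ∈ Y, MvPolynomial.eval y f = 0) ∨ (∀ y ∈ Y, MvPolynomial.eval y g = 0)) →
    ∃ (d : ℕ) (z : Fin d → MvPolynomial (Fin m) ℂ) (P : MvPolynomial (Fin d) ℂ),
      (∀ R : ℝ, ∃ R' : ℝ, ∀ y ∈ Y, ‖zmap z y‖ ≤ R → ‖y‖ ≤ R') ∧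
      (∃ y ∈ Y, MvPolynomial.eval (zmap z y) P ≠ 0) ∧
      ∀ y₀ ∈ Y, MvPolynomial.eval (zmap z y₀) P ≠ 0 →
        ∃ (Ω : Set (Fin d → ℂ)) (s : (Fin d → ℂ) → (Fin m → ℂ)), IsOpen Ω ∧ zmap z y₀ ∈ Ω ∧
          DifferentiableOn ℂ s Ω ∧ s (zmap z y₀) = y₀ ∧ (∀ ζ ∈ Ω, s ζ ∈ Y ∧ zmap z (s ζ) = ζ) ∧
          ∀ᶠ y in 𝓝[Y] y₀, s (zmap z y) = y

/-- BLOCK L. Landau and Schottky, growth in the half plane: `L` is a logarithm of a function omitting
`0` and `1` on a disc touching the boundary of the right half plane. -/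
def S_L : Prop :=
  ∀ M : ℝ, ∃ C K : ℝ, ∀ x : ℝ, 1 ≤ x → ∀ L : ℂ → ℂ, DifferentiableOn ℂ L (ball (x : ℂ) x) →
    (∀ w ∈ ball (x : ℂ) x, Complex.exp (L w) ≠ 1) → ‖L 1‖ ≤ M → ‖L x‖ ≤ C * x ^ K

end Pool.Agent.R848
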