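import Mathlib
import Pool.Agent.R848.Stm

/-! Complements of thin sets in a topological space, and continuous logarithms. -/

set_option autoImplicit false

open Set Filter Topology Metric

namespace Pool.Agent.R848

variable {Y : Type} [TopologicalSpace Y]

/-- The complement of `U` is thin: every point has arbitrarily small neighbourhoods `W` such that
`W ∩ U` is connected and nonempty. -/
def ThinC (U : Set Y) : Prop :=
  ∀ y, ∀ N ∈ 𝓝 y, ∃ W ∈ 𝓝 y, W ⊆ N ∧ IsConnected (W ∩ U)

theorem ThinC.dense {U : Set Y} (h : ThinC U) : Dense U := by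
  intro y
  rw [mem_closure_iff_nhds]
  intro N hN
  obtain ⟨W, -, hWN, hW⟩ := h y N hN
  obtain ⟨x, hx⟩ := hW.nonempty
  exact ⟨x, hWN hx.1, hx.2⟩

/-- two continuous logarithms differ by a constant on a preconnected set -/
theorem log_sub_const {f l l' : Y → ℂ} {S : Set Y} (hS : IsPreconnected S)
    (hl : ContinuousOn l S) (hl' : ContinuousOn l' S)
    (he : ∀ x ∈ S, Complex.exp (l x) = f x) (he' : ∀ x ∈ S, Complex.exp (l' x) = f x) :
    ∃ c : ℂ, Complex.exp c = 1 ∧ ∀ x ∈ S, l x = l' x + c := by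
  rcases S.eq_empty_or_nonempty with rfl | ⟨x₀, hx₀⟩
  · exact ⟨0, by simp, by simp⟩
  have hk : ∀ x ∈ S, ∃ n : ℤ, l x - l' x = n * (2 * Real.pi * Complex.I) := by
    intro x hx
    have : Complex.exp (l x) = Complex.exp (l' x) := by rw [he x hx, he' x hx]
    rw [Complex.exp_eq_exp_iff_exists_int] at this
    obtain ⟨n, hn⟩ := this
    exact ⟨n, by rw [hn]; ring⟩
  -- the function `(l - l') / (2 π i)` is integer valued and continuous
  have hpi : (2 * Real.pi * Complex.I : ℂ) ≠ 0 := Complex.two_pi_I_ne_zero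
  have hconst : ∀ x ∈ S, l x - l' x = l x₀ - l' x₀ := by
    intro x hx
    have hcont : ContinuousOn (fun x => ((l x - l' x) / (2 * Real.pi * Complex.I)).re) S := by
      apply Complex.continuous_re.comp_continuousOn
      exact (hl.sub hl').div_const _
    have hmem : MapsTo (fun x => ((l x - l' x) / (2 * Real.pi * Complex.I)).re) S
        (Set.range ((↑) : ℤ → ℝ)) := by
      intro x hx
      obtain ⟨n, hn⟩ := hk x hx
      refine ⟨n, ?_⟩
      simp only [hn]
      rw [mul_div_assoc, div_self hpi, mul_one]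
      simp
    have hdisc : (Set.range ((↑) : ℤ → ℝ)).Countable := Set.countable_range _
    have key : ((l x - l' x) / (2 * Real.pi * Complex.I)).re =
        ((l x₀ - l' x₀) / (2 * Real.pi * Complex.I)).re := by
      have h1 : IsPreconnected ((fun x => ((l x - l' x) / (2 * Real.pi * Complex.I)).re) '' S) :=
        hS.image _ hcont
      have h2 : ((fun x => ((l x - l' x) / (2 * Real.pi * Complex.I)).re) '' S).Subsingleton := by
        by_contra hne
        rw [Set.not_subsingleton_iff] at hne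
        obtain ⟨a, ha, b, hb, hab⟩ := hne
        rcases lt_or_gt_of_ne hab with h | h
        · have h3 : Icc a b ⊆ _ := h1.Icc_subset ha hb
          have h4 : (Icc a b).Countable := (hdisc.mono hmem.image_subset).mono h3
          exact absurd h4 (Cardinal.Real.Icc_countable_iff.not.2 (not_le.2 h))
        · have h3 : Icc b a ⊆ _ := h1.Icc_subset hb ha
          have h4 : (Icc b a).Countable := (hdisc.mono hmem.image_subset).mono h3
          exact absurd h4 (Cardinal.Real.Icc_countable_iff.not.2 (not_le.2 h))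
      exact h2 ⟨x, hx, rfl⟩ ⟨x₀, hx₀, rfl⟩
    obtain ⟨n, hn⟩ := hk x hx
    obtain ⟨n₀, hn₀⟩ := hk x₀ hx₀
    rw [hn, hn₀, mul_div_assoc, div_self hpi, mul_one, mul_div_assoc, div_self hpi, mul_one] at key
    simp only [Complex.intCast_re, Int.cast_inj] at key
    rw [hn, hn₀, key]
  refine ⟨l x₀ - l' x₀, ?_, fun x hx => ?_⟩
  · rw [Complex.exp_sub, he _ hx₀, he' _ hx₀, div_self]
    rw [← he _ hx₀]
    exact Complex.exp_ne_zero _
  · rw [← hconst x hx]; ring

/-- a nonvanishing continuous function has local logarithms -/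
theorem local_log {f : Y → ℂ} (hf : Continuous f) (hf0 : ∀ y, f y ≠ 0) (y : Y) :
    ∃ N ∈ 𝓝 y, ∃ l : Y → ℂ, ContinuousOn l N ∧ ∀ x ∈ N, Complex.exp (l x) = f x := by
  have h1 : ∀ᶠ x in 𝓝 y, f x / f y ∈ Complex.slitPlane := by
    have hc : ContinuousAt (fun x => f x / f y) y := (hf.div_const _).continuousAt
    apply hc.eventually_mem
    apply Complex.isOpen_slitPlane.mem_nhds
    rw [div_self (hf0 y)]
    exact Complex.one_mem_slitPlane
  refine ⟨{x | f x / f y ∈ Complex.slitPlane}, h1,
    fun x => Complex.log (f x / f y) + Complex.log (f y), ?_, fun x _ => ?_⟩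
  · refine ContinuousOn.add ?_ continuousOn_const
    exact ContinuousOn.clog ((hf.div_const _).continuousOn) (fun x hx => hx)
  · rw [Complex.exp_add, Complex.exp_log (div_ne_zero (hf0 x) (hf0 y)), Complex.exp_log (hf0 y),
      div_mul_cancel₀ _ (hf0 y)]

/-- a logarithm extends across a thin set -/
theorem ThinC.hasLog {U : Set Y} (h : ThinC U) {f : Y → ℂ} (hf : Continuous f)
    (hf0 : ∀ y, f y ≠ 0) (hl : HasLog f U) : HasLog f univ := by
  obtain ⟨l, hlc, hle⟩ := hl
  have hlim : ∀ y, ∃ a, Tendsto l (𝓝[U] y) (𝓝 a) := by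
    intro y
    obtain ⟨N, hN, m, hmc, hme⟩ := local_log hf hf0 y
    obtain ⟨W, hW, hWN, hWc⟩ := h y N hN
    obtain ⟨c, -, hc⟩ := log_sub_const hWc.isPreconnected (hlc.mono inter_subset_right)
      (hmc.mono (inter_subset_left.trans hWN)) (fun x hx => hle x hx.2) (fun x hx => hme x (hWN hx.1))
    refine ⟨m y + c, ?_⟩
    have h1 : Tendsto (fun x => m x + c) (𝓝[U] y) (𝓝 (m y + c)) :=
      (((hmc.continuousAt hN).tendsto).mono_left nhdsWithin_le_nhds).add_const c
    refine h1.congr' ?_
    filter_upwards [self_mem_nhdsWithin, mem_nhdsWithin_of_mem_nhds hW] with x hx hx'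
    exact (hc x ⟨hx', hx⟩).symm
  refine ⟨extendFrom U l, (continuous_extendFrom h.dense hlim).continuousOn, fun y _ => ?_⟩
  obtain ⟨a, ha⟩ := hlim y
  have hy : y ∈ closure U := h.dense y
  have hne : (𝓝[U] y).NeBot := mem_closure_iff_nhdsWithin_neBot.1 hy
  rw [extendFrom_eq hy ha]
  have h1 : Tendsto (fun x => Complex.exp (l x)) (𝓝[U] y) (𝓝 (Complex.exp a)) :=
    (Complex.continuous_exp.tendsto a).comp ha
  have h2 : Tendsto (fun x => Complex.exp (l x)) (𝓝[U] y) (𝓝 (f y)) := by
    refine (hf.continuousAt.mono_left nhdsWithin_le_nhds).congr' ?_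
    filter_upwards [self_mem_nhdsWithin] with x hx
    exact (hle x hx).symm
  exact tendsto_nhds_unique h1 h2

/-- a continuous function which is locally constant off a thin set is constant -/
theorem ThinC.const [PreconnectedSpace Y] {U : Set Y} (h : ThinC U) {E : Type} [TopologicalSpace E]
    [T2Space E] {f : Y → E} (hf : Continuous f) (hl : ∀ y ∈ U, ∀ᶠ x in 𝓝[U] y, f x = f y)
    (x y : Y) : f x = f y := by
  have hloc : IsLocallyConstant f := by
    rw [IsLocallyConstant.iff_eventually_eq]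
    intro y
    obtain ⟨W, hW, -, hWc⟩ := h y univ univ_mem
    obtain ⟨u, hu⟩ := hWc.nonempty
    have h1 : ∀ x ∈ W ∩ U, f x = f u := by
      intro x hx
      have hWp := hWc.isPreconnected
      refine hWp.induction₂' (fun a b => f a = f b) ?_ (fun a b c _ _ _ => Eq.trans) hx hu
      intro a ha
      have h2 := hl a ha.2
      have h3 : ∀ᶠ x in 𝓝[W ∩ U] a, f x = f a :=
        h2.filter_mono (nhdsWithin_mono _ inter_subset_right)
      filter_upwards [h3] with b hb
      exact ⟨hb.symm, hb⟩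
    have h4 : ∀ x ∈ interior W, f x = f u := by
      intro x hx
      have hcl : x ∈ closure (interior W ∩ U) :=
        h.dense.open_subset_closure_inter isOpen_interior hx
      have hcs : IsClosed {x | f x = f u} := isClosed_eq hf continuous_const
      exact hcs.closure_subset_iff.2 (fun z hz => h1 z ⟨interior_subset hz.1, hz.2⟩) hcl
    filter_upwards [interior_mem_nhds.2 hW] with x hx
    rw [h4 x hx, h4 y (mem_interior_iff_mem_nhds.2 hW)]
  exact hloc.apply_eq_of_isPreconnected isPreconnected_univ (mem_univ _) (mem_univ _)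

/-- the complement of a thin set is connected -/
theorem ThinC.isPreconnected [PreconnectedSpace Y] {U : Set Y} (h : ThinC U) :
    IsPreconnected U := by
  intro u v hu hv huv hSu hSv
  by_contra hne
  rw [Set.not_nonempty_iff_eq_empty] at hne
  have key := (isPreconnected_univ : IsPreconnected (univ : Set Y))
    (⋃₀ {O | IsOpen O ∧ O ∩ U ⊆ u}) (⋃₀ {O | IsOpen O ∧ O ∩ U ⊆ v})
    (isOpen_sUnion fun O hO => hO.1) (isOpen_sUnion fun O hO => hO.1) ?_ ?_ ?_
  · obtain ⟨z, -, ⟨O1, hO1, hz1⟩, ⟨O2, hO2, hz2⟩⟩ := key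
    have hz : z ∈ closure U := h.dense z
    rw [_root_.mem_closure_iff] at hz
    obtain ⟨y, ⟨hy1, hy2⟩, hyS⟩ := hz (O1 ∩ O2) (hO1.1.inter hO2.1) ⟨hz1, hz2⟩
    have : y ∈ U ∩ (u ∩ v) := ⟨hyS, hO1.2 ⟨hy1, hyS⟩, hO2.2 ⟨hy2, hyS⟩⟩
    rw [hne] at this
    exact this
  · intro x _
    obtain ⟨W, hW, -, hWc⟩ := h x univ univ_mem
    have hOp := hWc.isPreconnected
    rw [isPreconnected_iff_subset_of_disjoint] at hOp
    rcases hOp u v hu hv (inter_subset_right.trans huv) (by
      have : W ∩ U ∩ (u ∩ v) ⊆ U ∩ (u ∩ v) := by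
        intro y hy
        exact ⟨hy.1.2, hy.2⟩
      rw [hne] at this
      exact Set.subset_empty_iff.1 this) with h1 | h1
    · exact Or.inl ⟨interior W, ⟨isOpen_interior,
        (inter_subset_inter_left _ interior_subset).trans h1⟩, mem_interior_iff_mem_nhds.2 hW⟩
    · exact Or.inr ⟨interior W, ⟨isOpen_interior,
        (inter_subset_inter_left _ interior_subset).trans h1⟩, mem_interior_iff_mem_nhds.2 hW⟩
  · obtain ⟨x, hxS, hxu⟩ := hSu
    exact ⟨x, mem_univ _, u, ⟨hu, inter_subset_left⟩, hxu⟩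
  · obtain ⟨x, hxS, hxv⟩ := hSv
    exact ⟨x, mem_univ _, v, ⟨hv, inter_subset_left⟩, hxv⟩

end Pool.Agent.R848
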