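import Mathlib
import Pool.Agent.R848.Thin
import Pool.Agent.Helper540.Holo
import Pool.Agent.Helper417.Mer.ThinCompl

/-! Local parametrizations of complex submanifolds and the identity theorem. -/

set_option autoImplicit false

open Set Filter Topology Metric

namespace Pool.Agent.R848

open Pool.Agent.Helper540 (contDiffOn_of_differentiableOn)
open Pool.Agent.Helper417.Mer

/-- `Y` is a complex submanifold (in the form of the frozen statement) -/
def IsSub {m : ℕ} (Y : Set (Fin m → ℂ)) : Prop :=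
  ∀ p ∈ Y, ∃ U : Set (Fin m → ℂ), IsOpen U ∧ p ∈ U ∧
      ∃ (k : ℕ) (F : (Fin m → ℂ) → (Fin k → ℂ)), DifferentiableOn ℂ F U ∧
        (∀ x ∈ U, Function.Surjective ⇑(fderiv ℂ F x)) ∧ Y ∩ U = U ∩ F ⁻¹' {0}

theorem exists_param {m : ℕ} {Y : Set (Fin m → ℂ)} (hY : IsSub Y) {p : Fin m → ℂ} (hp : p ∈ Y)
    {N : Set (Fin m → ℂ)} (hN : N ∈ 𝓝 p) :
    ∃ (V : Type) (_ : NormedAddCommGroup V) (_ : NormedSpace ℂ V) (_ : FiniteDimensional ℂ V)
      (ψ : V → (Fin m → ℂ)) (r : ℝ), 0 < r ∧ DifferentiableOn ℂ ψ (ball 0 r) ∧ ψ 0 = p ∧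
      (∀ v ∈ ball (0 : V) r, ψ v ∈ Y ∩ N) ∧ ∀ ρ : ℝ, 0 < ρ → ρ ≤ r → ψ '' ball 0 ρ ∈ 𝓝[Y] p := by
  obtain ⟨U, hU, hpU, k, F, hF, hsurj, hYU⟩ := hY p hp
  set F' := fderiv ℂ F p with hF'
  have hFc : ContDiffOn ℂ (1 : ℕ) F U := contDiffOn_of_differentiableOn hU hF 1
  have hFp : ContDiffAt ℂ (1 : ℕ) F p := hFc.contDiffAt (hU.mem_nhds hpU)
  have hFd : HasFDerivAt F F' p := (hF.differentiableAt (hU.mem_nhds hpU)).hasFDerivAt
  set V := LinearMap.ker (F' : (Fin m → ℂ) →ₗ[ℂ] (Fin k → ℂ)) with hV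
  obtain ⟨π, hπ⟩ : V.ClosedComplemented := F'.ker_closedComplemented_of_finiteDimensional_range
  set Θ : (Fin m → ℂ) → (Fin k → ℂ) × V := fun x => (F x, π (x - p)) with hΘ
  set Θ' : (Fin m → ℂ) →L[ℂ] (Fin k → ℂ) × V := F'.prod π with hΘ'
  have hΘd : HasFDerivAt Θ Θ' p := by
    refine hFd.prodMk ?_
    have h1 : HasFDerivAt (fun x => π (x - p)) (π.comp (ContinuousLinearMap.id ℂ _)) p :=
      π.hasFDerivAt.comp p ((hasFDerivAt_id p).sub_const p)
    simpa using h1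
  have hΘc : ContDiffAt ℂ (1 : ℕ) Θ p := by
    refine hFp.prodMk ?_
    exact π.contDiff.contDiffAt.comp p (contDiffAt_id.sub contDiffAt_const)
  have hbij : Function.Bijective Θ' := by
    constructor
    · rw [injective_iff_map_eq_zero]
      intro x hx
      have h1 : F' x = 0 := congrArg Prod.fst hx
      have h2 : π x = 0 := congrArg Prod.snd hx
      have h3 : x ∈ V := h1
      have h4 := hπ ⟨x, h3⟩
      rw [h4] at h2
      exact congrArg Subtype.val h2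
    · rintro ⟨a, v⟩
      obtain ⟨x₀, hx₀⟩ := hsurj p hpU a
      refine ⟨x₀ - π x₀ + v, ?_⟩
      have h1 : ∀ w : V, F' (w : Fin m → ℂ) = 0 := fun w => w.2
      have h2 : F' x₀ = a := hx₀
      refine Prod.ext ?_ ?_
      · change F' (x₀ - π x₀ + v) = a
        rw [map_add, map_sub, h1, h1, h2]; simp
      · change π (x₀ - π x₀ + v) = v
        rw [map_add, map_sub, hπ, hπ]; simp
  let e := ContinuousLinearEquiv.ofBijective Θ' (LinearMap.ker_eq_bot.2 hbij.1)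
    (LinearMap.range_eq_top.2 hbij.2)
  have hee : (e : (Fin m → ℂ) →L[ℂ] (Fin k → ℂ) × V) = Θ' :=
    ContinuousLinearEquiv.coe_ofBijective _ _ _
  have he : HasFDerivAt Θ (e : (Fin m → ℂ) →L[ℂ] (Fin k → ℂ) × V) p := by
    rw [hee]; exact hΘd
  have h1n : ((1 : ℕ) : WithTop ℕ∞) ≠ 0 := by norm_num
  let E := hΘc.toOpenPartialHomeomorph Θ he (by exact_mod_cast h1n)
  have hE : ∀ x, E x = Θ x := fun x => rfl
  have hpE : p ∈ E.source := hΘc.mem_toOpenPartialHomeomorph_source he (by exact_mod_cast h1n)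
  have hΘp : Θ p = (0, 0) := by
    have h1 : p ∈ U ∩ F ⁻¹' {0} := by rw [← hYU]; exact ⟨hp, hpU⟩
    have h2 : F p = 0 := h1.2
    simp only [hΘ, h2, sub_self, map_zero]
  have hinv : ContDiffAt ℂ (1 : ℕ) E.symm (Θ p) :=
    hΘc.to_localInverse he (by exact_mod_cast h1n)
  have hEp : E.symm (Θ p) = p := E.left_inv hpE
  rw [hΘp] at hinv hEp
  -- differentiability near zero
  have hdiff : ∀ᶠ q in 𝓝 ((0, 0) : (Fin k → ℂ) × V), DifferentiableAt ℂ E.symm q := by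
    have h1 : ∀ᶠ q in 𝓝 ((0, 0) : (Fin k → ℂ) × V), ContDiffAt ℂ (1 : ℕ) E.symm q :=
      hinv.eventually (by simp)
    exact h1.mono fun q hq => hq.differentiableAt (by norm_num)
  have htarget : ∀ᶠ q in 𝓝 ((0, 0) : (Fin k → ℂ) × V), q ∈ E.target := by
    have h1 : Θ p ∈ E.target := E.map_source hpE
    rw [hΘp] at h1
    exact E.open_target.mem_nhds h1
  have hNU : ∀ᶠ q in 𝓝 ((0, 0) : (Fin k → ℂ) × V), E.symm q ∈ N ∩ U := by
    apply hinv.continuousAt.eventually_mem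
    rw [hEp]
    exact inter_mem hN (hU.mem_nhds hpU)
  have hall := (hdiff.and (htarget.and hNU))
  have hemb : Tendsto (fun v : V => ((0 : Fin k → ℂ), v)) (𝓝 0) (𝓝 (0, 0)) := by
    have : Continuous (fun v : V => ((0 : Fin k → ℂ), v)) := by fun_prop
    exact this.tendsto 0
  obtain ⟨r, hr, hball⟩ := Metric.eventually_nhds_iff_ball.1 (hemb.eventually hall)
  have hFψ : ∀ v : V, ((0 : Fin k → ℂ), v) ∈ E.target → F (E.symm (0, v)) = 0 ∧
      π (E.symm (0, v) - p) = v := by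
    intro v hv
    have h1 : Θ (E.symm (0, v)) = (0, v) := E.right_inv hv
    exact ⟨congrArg Prod.fst h1, congrArg Prod.snd h1⟩
  refine ⟨V, inferInstance, inferInstance, inferInstance, fun v => E.symm (0, v), r, hr, ?_, hEp,
    ?_, ?_⟩
  · intro v hv
    have h1 : DifferentiableAt ℂ (fun v : V => ((0 : Fin k → ℂ), v)) v := by fun_prop
    exact ((hball v hv).1.comp v h1).differentiableWithinAt
  · intro v hv
    obtain ⟨-, h2, h3, h4⟩ := hball v hv
    refine ⟨?_, h3⟩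
    have : E.symm (0, v) ∈ U ∩ F ⁻¹' {0} := ⟨h4, (hFψ v h2).1⟩
    rw [← hYU] at this
    exact this.1
  · intro ρ hρ hρr
    -- points of `Y` near `p` are in the image
    have h1 : ∀ᶠ x in 𝓝[Y] p, x ∈ U := mem_nhdsWithin_of_mem_nhds (hU.mem_nhds hpU)
    have h2 : ∀ᶠ x in 𝓝[Y] p, x ∈ E.source :=
      mem_nhdsWithin_of_mem_nhds (E.open_source.mem_nhds hpE)
    have h3 : ∀ᶠ x in 𝓝[Y] p, π (x - p) ∈ ball (0 : V) ρ := by
      have hc : Continuous fun x : Fin m → ℂ => π (x - p) := by fun_prop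
      apply mem_nhdsWithin_of_mem_nhds
      apply hc.continuousAt.eventually_mem
      apply isOpen_ball.mem_nhds
      simpa using hρ
    filter_upwards [h1, h2, h3, self_mem_nhdsWithin] with x hx1 hx2 hx3 hx4
    refine ⟨π (x - p), hx3, ?_⟩
    have h5 : x ∈ U ∩ F ⁻¹' {0} := by rw [← hYU]; exact ⟨hx4, hx1⟩
    have h6 : E x = (0, π (x - p)) := by
      rw [hE]
      exact Prod.ext h5.2 rfl
    change E.symm (0, π (x - p)) = x
    rw [← h6]
    exact E.left_inv hx2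

/-- Identity theorem: an entire function which vanishes on a nonempty open part of a connected
submanifold vanishes on it. -/
theorem ident {m : ℕ} {Y : Set (Fin m → ℂ)} (hY : IsSub Y) (hc : IsPreconnected Y)
    {q : (Fin m → ℂ) → ℂ} (hq : Differentiable ℂ q) {p : Fin m → ℂ} (hp : p ∈ Y)
    (h0 : ∀ᶠ x in 𝓝[Y] p, q x = 0) : ∀ y ∈ Y, q y = 0 := by
  have : PreconnectedSpace Y := isPreconnected_iff_preconnectedSpace.1 hc
  let Z : Set Y := {y | ∀ᶠ x in 𝓝[Y] (y : Fin m → ℂ), q x = 0}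
  have hZo : IsOpen Z := by
    rw [isOpen_iff_mem_nhds]
    intro y hy
    have h1 : ∀ᶠ y' in 𝓝[Y] (y : Fin m → ℂ), ∀ᶠ x in 𝓝[Y] y', q x = 0 :=
      eventually_eventually_nhdsWithin.2 hy
    rw [nhdsWithin_eq_map_subtype_coe y.2, eventually_map] at h1
    exact h1
  have hZc : IsClosed Z := by
    rw [← isOpen_compl_iff, isOpen_iff_mem_nhds]
    intro y hy
    -- suppose not: y in the closure of Z
    by_contra hcon
    apply hy
    have hfreq : ∃ᶠ y' in 𝓝 y, y' ∈ Z := by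
      intro h
      apply hcon
      filter_upwards [h] with y' hy'
      exact hy'
    obtain ⟨V, _, _, _, ψ, r, hr, hψ, hψ0, hψY, hψn⟩ := exists_param hY y.2 (univ_mem)
    have himg : ∀ᶠ y' : Y in 𝓝 y, (y' : Fin m → ℂ) ∈ ψ '' ball 0 r := by
      have := hψn r hr le_rfl
      rw [nhdsWithin_eq_map_subtype_coe y.2] at this
      exact this
    obtain ⟨y', hy'Z, v, hv, hvy⟩ := (hfreq.and_eventually himg).exists
    have hqψ : DifferentiableOn ℂ (fun v => q (ψ v)) (ball 0 r) :=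
      hq.comp_differentiableOn hψ
    have hmap : ∀ v ∈ ball (0 : V) r, Tendsto ψ (𝓝 v) (𝓝[Y] (ψ v)) := by
      intro v hv
      rw [tendsto_nhdsWithin_iff]
      refine ⟨(hψ.continuousOn.continuousAt (isOpen_ball.mem_nhds hv)), ?_⟩
      filter_upwards [isOpen_ball.mem_nhds hv] with w hw
      exact (hψY w hw).1
    have hev : ∀ᶠ w in 𝓝 v, q (ψ w) = 0 := by
      have h1 := hmap v hv
      rw [hvy] at h1
      exact h1.eventually hy'Z
    obtain ⟨O, hO0, hOo, hvO⟩ := _root_.eventually_nhds_iff.1 hev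
    have hzero : ∀ᶠ w in 𝓝 (0 : V), q (ψ w) = 0 := by
      by_contra hne
      obtain ⟨w, ⟨hwO, hwb⟩, hw0⟩ := ThinAux.ball_nonzero hr hqψ hne hOo ⟨v, hvO, hv⟩
      exact hw0 (hO0 w hwO)
    obtain ⟨ρ, hρ, hρ0⟩ := Metric.eventually_nhds_iff_ball.1 hzero
    have h2 := hψn (min ρ r) (lt_min hρ hr) (min_le_right _ _)
    change ∀ᶠ x in 𝓝[Y] (y : Fin m → ℂ), q x = 0
    filter_upwards [h2] with x hx
    obtain ⟨w, hw, rfl⟩ := hx
    exact hρ0 w (ball_subset_ball (min_le_left _ _) hw)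
  have hZ : Z = univ := IsClopen.eq_univ ⟨hZc, hZo⟩ ⟨⟨p, hp⟩, h0⟩
  intro y hy
  have h1 : (⟨y, hy⟩ : Y) ∈ Z := by rw [hZ]; trivial
  exact (eventually_nhdsWithin_iff.1 h1).self_of_nhds hy

/-- The complement of the zero set of an entire function on a connected submanifold is thin. -/
theorem thinC_ne {m : ℕ} {Y : Set (Fin m → ℂ)} (hY : IsSub Y) (hc : IsPreconnected Y)
    {q : (Fin m → ℂ) → ℂ} (hq : Differentiable ℂ q) (hne : ∃ y ∈ Y, q y ≠ 0) :
    ThinC {y : Y | q y ≠ 0} := by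
  intro y N hN
  obtain ⟨N', hN', hNN⟩ := mem_nhds_induced _ _ _ |>.1 hN
  obtain ⟨V, _, _, _, ψ, r, hr, hψ, hψ0, hψY, hψn⟩ := exists_param hY y.2 hN'
  have hqψ : DifferentiableOn ℂ (fun v => q (ψ v)) (ball 0 r) :=
    hq.comp_differentiableOn hψ
  have hnz : ¬ ∀ᶠ v in 𝓝 (0 : V), q (ψ v) = 0 := by
    intro hzero
    obtain ⟨ρ, hρ, hρ0⟩ := Metric.eventually_nhds_iff_ball.1 hzero
    have h2 := hψn (min ρ r) (lt_min hρ hr) (min_le_right _ _)
    obtain ⟨y₁, hy₁, h3⟩ := hne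
    refine h3 (ident hY hc hq y.2 ?_ y₁ hy₁)
    filter_upwards [h2] with x hx
    obtain ⟨w, hw, rfl⟩ := hx
    exact hρ0 w (ball_subset_ball (min_le_left _ _) hw)
  let ψ' : ball (0 : V) r → Y := fun v => ⟨ψ v, (hψY v v.2).1⟩
  have hψ' : Continuous ψ' := by
    refine Continuous.subtype_mk ?_ _
    exact continuousOn_iff_continuous_domRestrict.1 hψ.continuousOn
  refine ⟨range ψ', ?_, ?_, ?_⟩
  · have h1 := hψn r hr le_rfl
    rw [nhdsWithin_eq_map_subtype_coe y.2] at h1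
    filter_upwards [h1] with x hx
    obtain ⟨w, hw, hwx⟩ := hx
    exact ⟨⟨w, hw⟩, Subtype.ext hwx⟩
  · rintro _ ⟨v, rfl⟩
    exact hNN (hψY v v.2).2
  · have himg : range ψ' ∩ {y : Y | q y ≠ 0} = ψ' '' {v | q (ψ v) ≠ 0} := by
      ext x
      constructor
      · rintro ⟨⟨v, rfl⟩, hx⟩
        exact ⟨v, hx, rfl⟩
      · rintro ⟨v, hv, rfl⟩
        exact ⟨⟨v, rfl⟩, hv⟩
    rw [himg]
    refine IsConnected.image ?_ _ hψ'.continuousOn
    constructor
    · obtain ⟨w, ⟨-, hwb⟩, hw0⟩ := ThinAux.ball_nonzero hr hqψ hnz isOpen_univ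
        ⟨0, trivial, mem_ball_self hr⟩
      exact ⟨⟨w, hwb⟩, hw0⟩
    · have h1 := ThinAux.ball_diff hqψ
      have h2 : Subtype.val '' {v : ball (0 : V) r | q (ψ v) ≠ 0} =
          {y | y ∈ ball (0 : V) r ∧ q (ψ y) ≠ 0} := by
        ext x
        constructor
        · rintro ⟨v, hv, rfl⟩
          exact ⟨v.2, hv⟩
        · rintro ⟨hx, hx'⟩
          exact ⟨⟨x, hx⟩, hx', rfl⟩
      rw [← h2] at h1
      exact IsInducing.subtypeVal.isPreconnected_image.1 h1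

theorem differentiable_eval {m : ℕ} (p : MvPolynomial (Fin m) ℂ) :
    Differentiable ℂ fun y : Fin m → ℂ => MvPolynomial.eval y p := by
  intro x
  have h := (AnalyticOnNhd.eval_mvPolynomial (𝕜 := ℂ) p : AnalyticOnNhd ℂ _ (univ : Set (Fin m → ℂ)))
  exact (h x (mem_univ _)).differentiableAt

/-- The vanishing ideal of a connected submanifold is prime. -/
theorem irred {m : ℕ} {Y : Set (Fin m → ℂ)} (hY : IsSub Y) (hc : IsPreconnected Y)
    (f g : MvPolynomial (Fin m) ℂ)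
    (h : ∀ y ∈ Y, MvPolynomial.eval y f = 0 ∨ MvPolynomial.eval y g = 0) :
    (∀ y ∈ Y, MvPolynomial.eval y f = 0) ∨ (∀ y ∈ Y, MvPolynomial.eval y g = 0) := by
  obtain ⟨F, hF⟩ : ∃ F : (Fin m → ℂ) → ℂ, F = fun y => MvPolynomial.eval y f := ⟨_, rfl⟩
  obtain ⟨G, hG⟩ : ∃ G : (Fin m → ℂ) → ℂ, G = fun y => MvPolynomial.eval y g := ⟨_, rfl⟩
  have hFd : Differentiable ℂ F := by rw [hF]; exact differentiable_eval f
  have hGd : Differentiable ℂ G := by rw [hG]; exact differentiable_eval g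
  have hFe : ∀ y, MvPolynomial.eval y f = F y := fun y => by rw [hF]
  have hGe : ∀ y, MvPolynomial.eval y g = G y := fun y => by rw [hG]
  simp only [hFe, hGe] at h ⊢
  clear hFe hGe hF hG
  by_contra hcon
  push Not at hcon
  obtain ⟨hf, hg⟩ := hcon
  have h1 := (thinC_ne hY hc hFd hf).dense
  have h2 : {y : Y | F y ≠ 0} ⊆ {y : Y | G y = 0} := by
    intro y hy
    exact (h y y.2).resolve_left hy
  have h3 : IsClosed {y : Y | G y = 0} :=
    isClosed_eq (hGd.continuous.comp continuous_subtype_val) continuous_const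
  have h4 := h3.closure_subset_iff.2 h2
  rw [h1.closure_eq] at h4
  obtain ⟨y, hy, hy0⟩ := hg
  exact hy0 (h4 (mem_univ (⟨y, hy⟩ : Y)))

end Pool.Agent.R848
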