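import Mathlib
import Pool.Agent.R848.Chart

/-! The chart data of a connected smooth affine variety. -/

set_option autoImplicit false

open Set Filter Topology Metric

namespace Pool.Agent.R848

/-- `z` exhibits `Y` as a proper branched covering of an affine space, unbranched where `P ≠ 0` -/
structure Ch {m : ℕ} (Y : Set (Fin m → ℂ)) (d : ℕ) (z : (Fin m → ℂ) → (Fin d → ℂ))
    (P : (Fin d → ℂ) → ℂ) : Prop where
  sub : IsSub Y
  conn : IsConnected Y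
  closed : IsClosed Y
  zd : Differentiable ℂ z
  Pd : Differentiable ℂ P
  bdd : ∀ R : ℝ, ∃ R' : ℝ, ∀ y ∈ Y, ‖z y‖ ≤ R → ‖y‖ ≤ R'
  ne : ∃ y ∈ Y, P (z y) ≠ 0
  sec : ∀ y₀ ∈ Y, P (z y₀) ≠ 0 → ∃ (Ω : Set (Fin d → ℂ)) (s : (Fin d → ℂ) → (Fin m → ℂ)),
    IsOpen Ω ∧ z y₀ ∈ Ω ∧ DifferentiableOn ℂ s Ω ∧ s (z y₀) = y₀ ∧
    (∀ ζ ∈ Ω, s ζ ∈ Y ∧ z (s ζ) = ζ) ∧ ∀ᶠ y in 𝓝[Y] y₀, s (z y) = y
  line : ∀ ζ v : Fin d → ℂ, P ζ ≠ 0 → {t : ℂ | P (ζ + t • v) = 0}.Finite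

theorem line_finite {d : ℕ} (p : MvPolynomial (Fin d) ℂ) (ζ v : Fin d → ℂ)
    (h : MvPolynomial.eval ζ p ≠ 0) : {t : ℂ | MvPolynomial.eval (ζ + t • v) p = 0}.Finite := by
  let g : Polynomial ℂ := MvPolynomial.aeval (fun i => Polynomial.C (ζ i) +
    Polynomial.X * Polynomial.C (v i)) p
  have hg : ∀ t : ℂ, g.eval t = MvPolynomial.eval (ζ + t • v) p := by
    intro t
    have h1 : ((Polynomial.evalRingHom t).comp (MvPolynomial.aeval (fun i => Polynomial.C (ζ i) +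
        Polynomial.X * Polynomial.C (v i)) : MvPolynomial (Fin d) ℂ →ₐ[ℂ] Polynomial ℂ).toRingHom) =
        MvPolynomial.eval (ζ + t • v) := by
      apply MvPolynomial.ringHom_ext
      · intro r; simp
      · intro i; simp; ring
    exact congrArg (fun φ : MvPolynomial (Fin d) ℂ →+* ℂ => φ p) h1
  have hg0 : g ≠ 0 := by
    intro h0
    apply h
    have := hg 0
    rw [h0] at this
    simpa using this.symm
  refine (g.roots.toFinset.finite_toSet).subset ?_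
  intro t ht
  have h1 : g.eval t = 0 := by rw [hg]; exact ht
  simp only [Finset.mem_coe, Multiset.mem_toFinset]
  exact (Polynomial.mem_roots hg0).2 h1

theorem exists_ch (hG : S_G) {m : ℕ} {Y : Set (Fin m → ℂ)}
    (halg : ∃ S : Set (MvPolynomial (Fin m) ℂ), Y = {x | ∀ P ∈ S, MvPolynomial.eval x P = 0})
    (hsub : IsSub Y) (hconn : IsConnected Y) :
    ∃ (d : ℕ) (z : (Fin m → ℂ) → (Fin d → ℂ)) (P : (Fin d → ℂ) → ℂ), Ch Y d z P ∧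
      ∃ p : MvPolynomial (Fin d) ℂ, ∀ ζ, P ζ = MvPolynomial.eval ζ p := by
  obtain ⟨d, z, p, h1, h2, h3⟩ := hG m Y halg hconn.nonempty (irred hsub hconn.isPreconnected)
  have hzd : Differentiable ℂ (zmap z) := by
    rw [differentiable_pi]
    intro i
    exact differentiable_eval (z i)
  refine ⟨d, zmap z, fun ζ => MvPolynomial.eval ζ p, ⟨hsub, hconn, ?_, hzd, differentiable_eval p, h1,
    h2, h3, line_finite p⟩, p, fun ζ => rfl⟩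
  obtain ⟨S, rfl⟩ := halg
  have : {x : Fin m → ℂ | ∀ P ∈ S, MvPolynomial.eval x P = 0} =
      ⋂ P ∈ S, {x | MvPolynomial.eval x P = 0} := by
    ext x; simp
  rw [this]
  exact isClosed_biInter fun P _ => isClosed_eq (differentiable_eval P).continuous continuous_const

variable {m d : ℕ} {Y : Set (Fin m → ℂ)} {z : (Fin m → ℂ) → (Fin d → ℂ)} {P : (Fin d → ℂ) → ℂ}

theorem Ch.isCompact (h : Ch Y d z P) {K : Set (Fin d → ℂ)} (hK : IsCompact K) :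
    IsCompact {y | y ∈ Y ∧ z y ∈ K} := by
  obtain ⟨R, hR⟩ := hK.isBounded.exists_norm_le
  obtain ⟨R', hR'⟩ := h.bdd R
  refine (isCompact_closedBall (0 : Fin m → ℂ) R').of_isClosed_subset
    (h.closed.inter (hK.isClosed.preimage h.zd.continuous)) ?_
  rintro y ⟨hy, hyK⟩
  rw [mem_closedBall_zero_iff]
  exact hR' y hy (hR _ hyK)

theorem Ch.thin (h : Ch Y d z P) : ThinC {y : Y | P (z y) ≠ 0} :=
  thinC_ne h.sub h.conn.isPreconnected (h.Pd.comp h.zd) h.ne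

/-- shrinking the domain of a local section -/
theorem Ch.sec' (h : Ch Y d z P) {y₀ : Fin m → ℂ} (hy₀ : y₀ ∈ Y) (hP : P (z y₀) ≠ 0)
    {N : Set (Fin m → ℂ)} (hN : N ∈ 𝓝 y₀) :
    ∃ (r : ℝ) (s : (Fin d → ℂ) → (Fin m → ℂ)), 0 < r ∧
    DifferentiableOn ℂ s (ball (z y₀) r) ∧ s (z y₀) = y₀ ∧
    (∀ ζ ∈ ball (z y₀) r, s ζ ∈ Y ∧ z (s ζ) = ζ ∧ P ζ ≠ 0 ∧ s ζ ∈ N) ∧
    ∀ᶠ y in 𝓝[Y] y₀, s (z y) = y := by
  obtain ⟨Ω, s, hΩ, hzΩ, hs, hs0, hs1, hs2⟩ := h.sec y₀ hy₀ hP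
  have h1 : ∀ᶠ ζ in 𝓝 (z y₀), ζ ∈ Ω ∧ P ζ ≠ 0 ∧ s ζ ∈ N := by
    have ha : ∀ᶠ ζ in 𝓝 (z y₀), ζ ∈ Ω := hΩ.mem_nhds hzΩ
    refine ha.and ((h.Pd.continuous.continuousAt.eventually_ne hP).and ?_)
    have hc : ContinuousAt s (z y₀) := hs.continuousOn.continuousAt (hΩ.mem_nhds hzΩ)
    apply hc.eventually_mem
    rw [hs0]; exact hN
  obtain ⟨r, hr, hball⟩ := Metric.eventually_nhds_iff_ball.1 h1
  exact ⟨r, s, hr, hs.mono fun ζ hζ => (hball ζ hζ).1, hs0, fun ζ hζ =>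
    ⟨(hs1 ζ (hball ζ hζ).1).1, (hs1 ζ (hball ζ hζ).1).2, (hball ζ hζ).2.1, (hball ζ hζ).2.2⟩, hs2⟩

end Pool.Agent.R848
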