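import Mathlib
import Pool.Agent.Helper540.Holo

/-! Local calculus for the unit equation `g + (1 - g) = 1` in logarithmic coordinates. -/

set_option autoImplicit false

open Set Filter Topology Metric

namespace Pool.Agent.R848

open Pool.Agent.Helper540 (differentiableOn_fderiv_apply)

variable {E : Type} [NormedAddCommGroup E] [NormedSpace ℂ E] {J : Type} [Fintype J]

/-- linear combination of directional derivatives -/
noncomputable def lc (l : J → E → ℂ) (x : J → ℂ) (ζ v : E) : ℂ := ∑ j, x j * fderiv ℂ (l j) ζ v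

/-- its derivative in the same direction -/
noncomputable def lc' (l : J → E → ℂ) (x : J → ℂ) (ζ v : E) : ℂ :=
  ∑ j, x j * fderiv ℂ (fun ξ => fderiv ℂ (l j) ξ v) ζ v

theorem lc_add (l : J → E → ℂ) (x : J → ℂ) (ζ v w : E) :
    lc l x ζ (v + w) = lc l x ζ v + lc l x ζ w := by
  simp only [lc, map_add, mul_add, Finset.sum_add_distrib]

theorem lc_hasFDerivAt {S : Set E} (hS : IsOpen S) {l : J → E → ℂ}
    (hl : ∀ j, DifferentiableOn ℂ (l j) S) (x : J → ℂ) (v : E) {ζ : E} (hζ : ζ ∈ S) :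
    ∃ D : E →L[ℂ] ℂ, HasFDerivAt (fun ξ => lc l x ξ v) D ζ ∧ D v = lc' l x ζ v := by
  refine ⟨∑ j, x j • fderiv ℂ (fun ξ => fderiv ℂ (l j) ξ v) ζ, ?_, ?_⟩
  · unfold lc
    apply HasFDerivAt.fun_sum
    intro j _
    have h1 : DifferentiableAt ℂ (fun ξ => fderiv ℂ (l j) ξ v) ζ :=
      (differentiableOn_fderiv_apply hS (hl j) v).differentiableAt (hS.mem_nhds hζ)
    exact h1.hasFDerivAt.const_mul (x j)
  · simp only [lc', sum_apply, smul_apply, smul_eq_mul]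

/-- the data of a solution on an open set -/
structure LSol (S : Set E) (l : J → E → ℂ) (G : E → ℂ) (a b : J → ℂ) : Prop where
  op : IsOpen S
  ld : ∀ j, DifferentiableOn ℂ (l j) S
  Gd : DifferentiableOn ℂ G S
  G0 : ∀ ζ ∈ S, G ζ ≠ 0
  G1 : ∀ ζ ∈ S, G ζ ≠ 1
  ea : ∀ ζ ∈ S, ∀ v, fderiv ℂ G ζ v = G ζ * lc l a ζ v
  eb : ∀ ζ ∈ S, ∀ v, fderiv ℂ G ζ v = -(1 - G ζ) * lc l b ζ v

variable {S : Set E} {l : J → E → ℂ} {G : E → ℂ} {a b : J → ℂ}

theorem LSol.rel (h : LSol S l G a b) {ζ : E} (hζ : ζ ∈ S) (v : E) :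
    G ζ * lc l a ζ v = -(1 - G ζ) * lc l b ζ v := by
  rw [← h.ea ζ hζ, h.eb ζ hζ]

theorem LSol.rel' (h : LSol S l G a b) {ζ : E} (hζ : ζ ∈ S) (v : E) :
    G ζ * lc' l a ζ v + lc l a ζ v * (G ζ * lc l a ζ v) =
      -(1 - G ζ) * lc' l b ζ v + lc l b ζ v * (G ζ * lc l a ζ v) := by
  obtain ⟨DA, hDA, hDA'⟩ := lc_hasFDerivAt h.op h.ld a v hζ
  obtain ⟨DB, hDB, hDB'⟩ := lc_hasFDerivAt h.op h.ld b v hζ
  have hG : HasFDerivAt G (fderiv ℂ G ζ) ζ :=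
    (h.Gd.differentiableAt (h.op.mem_nhds hζ)).hasFDerivAt
  have h1 := hG.fun_mul hDA
  have h2 := ((hG.const_sub 1).fun_neg).fun_mul hDB
  have h3 : (fun ξ => -(1 - G ξ) * lc l b ξ v) =ᶠ[𝓝 ζ] fun ξ => G ξ * lc l a ξ v := by
    filter_upwards [h.op.mem_nhds hζ] with ξ hξ
    exact (h.rel hξ v).symm
  have h4 := h1.unique ((h2.congr_of_eventuallyEq h3.symm))
  have h5 := congrArg (fun D : E →L[ℂ] ℂ => D v) h4
  simp only [add_apply, smul_apply, smul_eq_mul,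
    neg_apply, hDA', hDB', h.ea ζ hζ v] at h5
  linear_combination h5

theorem LSol.E1 (h : LSol S l G a b) {ζ : E} (hζ : ζ ∈ S) (v : E) :
    lc' l a ζ v * lc l b ζ v - lc l a ζ v * lc' l b ζ v -
      lc l a ζ v * lc l b ζ v * (lc l b ζ v - lc l a ζ v) = 0 := by
  have h1 := h.rel hζ v
  have h2 := h.rel' hζ v
  have h3 := h.G0 ζ hζ
  apply mul_left_cancel₀ h3
  rw [mul_zero]
  linear_combination lc l b ζ v * h2 - lc' l b ζ v * h1

theorem LSol.E2 (h : LSol S l G a b) {ζ : E} (hζ : ζ ∈ S) (v w : E) :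
    lc l a ζ v * lc l b ζ w - lc l a ζ w * lc l b ζ v = 0 := by
  have h1 := h.rel hζ v
  have h2 := h.rel hζ w
  have h3 := h.G0 ζ hζ
  apply mul_left_cancel₀ h3
  rw [mul_zero]
  linear_combination lc l b ζ w * h1 - lc l b ζ v * h2

theorem alg_deform {g a b a' b' α β α' β' : ℂ} (hb : b ≠ 0)
    (rel : g * a = -(1 - g) * b)
    (e1 : a' * b - a * b' - a * b * (b - a) = 0)
    (le1 : α' * b + a' * β - α * b' - a * β' - α * b * (b - a) - a * β * (b - a) -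
      a * b * (β - α) = 0) :
    (g * α + (1 - g) * β) * (-b' / b ^ 2) +
      b⁻¹ * (g * α' + α * (g * a) + ((1 - g) * β' - β * (g * a))) = α := by
  have h1 : g * (b - a) = b := by linear_combination -rel
  have hba : b - a ≠ 0 := by
    intro h0
    rw [h0, mul_zero] at h1
    exact hb h1.symm
  have hg : g = b / (b - a) := by rw [eq_div_iff hba, h1]
  have hg1 : 1 - g = -a / (b - a) := by rw [hg]; field_simp; ring
  rw [hg1, hg]
  field_simp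
  linear_combination b * le1 - β * e1

theorem alg_eq {g a b α β a₂ b₂ α₂ β₂ : ℂ} (hb : b ≠ 0) (hb₂ : b₂ ≠ 0)
    (rel : g * a = -(1 - g) * b) (rel₂ : g * a₂ = -(1 - g) * b₂)
    (le2 : α * b₂ + a * β₂ - α₂ * b - a₂ * β = 0) :
    (g * α + (1 - g) * β) / b = (g * α₂ + (1 - g) * β₂) / b₂ := by
  rw [div_eq_div_iff hb hb₂]
  linear_combination g * le2 - β₂ * rel + β * rel₂

/-- The key computation: the deformation of a solution has the prescribed derivative. -/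
theorem LSol.deform (h : LSol S l G a b) (α β : J → ℂ)
    (hE1 : ∀ ζ ∈ S, ∀ v, lc' l α ζ v * lc l b ζ v + lc' l a ζ v * lc l β ζ v -
      lc l α ζ v * lc' l b ζ v - lc l a ζ v * lc' l β ζ v -
      lc l α ζ v * lc l b ζ v * (lc l b ζ v - lc l a ζ v) -
      lc l a ζ v * lc l β ζ v * (lc l b ζ v - lc l a ζ v) -
      lc l a ζ v * lc l b ζ v * (lc l β ζ v - lc l α ζ v) = 0)
    {ζ : E} (hζ : ζ ∈ S) (v : E) (hb : lc l b ζ v ≠ 0) :
    ∃ D : E →L[ℂ] ℂ, HasFDerivAt (fun ξ => (G ξ * lc l α ξ v + (1 - G ξ) * lc l β ξ v) / lc l b ξ v)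
      D ζ ∧ D v = lc l α ζ v := by
  obtain ⟨DA, hDA, hDA'⟩ := lc_hasFDerivAt h.op h.ld α v hζ
  obtain ⟨DB, hDB, hDB'⟩ := lc_hasFDerivAt h.op h.ld β v hζ
  obtain ⟨Db, hDb, hDb'⟩ := lc_hasFDerivAt h.op h.ld b v hζ
  have hG : HasFDerivAt G (fderiv ℂ G ζ) ζ :=
    (h.Gd.differentiableAt (h.op.mem_nhds hζ)).hasFDerivAt
  have h1 := (hG.fun_mul hDA).fun_add ((hG.const_sub 1).fun_mul hDB)
  have h2 : HasFDerivAt (fun ξ => (lc l b ξ v)⁻¹) ((-(lc l b ζ v ^ 2)⁻¹) • Db) ζ :=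
    (hasDerivAt_inv hb).comp_hasFDerivAt ζ hDb
  have h3 := h1.fun_mul h2
  simp only [← div_eq_mul_inv] at h3
  refine ⟨_, h3, ?_⟩
  simp only [add_apply, smul_apply, smul_eq_mul, neg_apply, hDA', hDB', hDb', h.ea ζ hζ v]
  have key := alg_deform (g := G ζ) hb (h.rel hζ v) (h.E1 hζ v) (hE1 ζ hζ v)
  refine Eq.trans ?_ key
  simp only [div_eq_mul_inv]
  ring

/-- The deformation of a solution is a linear combination of the logarithms. -/
theorem LSol.zero_deriv (h : LSol S l G a b) (α β : J → ℂ)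
    (hE1 : ∀ ζ ∈ S, ∀ v, lc' l α ζ v * lc l b ζ v + lc' l a ζ v * lc l β ζ v -
      lc l α ζ v * lc' l b ζ v - lc l a ζ v * lc' l β ζ v -
      lc l α ζ v * lc l b ζ v * (lc l b ζ v - lc l a ζ v) -
      lc l a ζ v * lc l β ζ v * (lc l b ζ v - lc l a ζ v) -
      lc l a ζ v * lc l b ζ v * (lc l β ζ v - lc l α ζ v) = 0)
    (hE2 : ∀ ζ ∈ S, ∀ v w, lc l α ζ v * lc l b ζ w + lc l a ζ v * lc l β ζ w -
      lc l α ζ w * lc l b ζ v - lc l a ζ w * lc l β ζ v = 0)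
    (v₀ : E) {ζ : E} (hζ : ζ ∈ S) (hb : lc l b ζ v₀ ≠ 0) :
    HasFDerivAt (fun ξ => (G ξ * lc l α ξ v₀ + (1 - G ξ) * lc l β ξ v₀) / lc l b ξ v₀ -
      ∑ j, α j * l j ξ) (0 : E →L[ℂ] ℂ) ζ := by
  obtain ⟨D, hD, hDv⟩ := h.deform α β hE1 hζ v₀ hb
  have hcont : ∀ w, ContinuousAt (fun ξ => lc l b ξ w) ζ := by
    intro w
    obtain ⟨D', hD', -⟩ := lc_hasFDerivAt h.op h.ld b w hζ
    exact hD'.continuousAt
  have hgen : ∀ w, lc l b ζ w ≠ 0 → D w = lc l α ζ w := by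
    intro w hw
    obtain ⟨D', hD', hDw⟩ := h.deform α β hE1 hζ w hw
    have heq : (fun ξ => (G ξ * lc l α ξ v₀ + (1 - G ξ) * lc l β ξ v₀) / lc l b ξ v₀) =ᶠ[𝓝 ζ]
        fun ξ => (G ξ * lc l α ξ w + (1 - G ξ) * lc l β ξ w) / lc l b ξ w := by
      filter_upwards [h.op.mem_nhds hζ, (hcont v₀).eventually_ne hb, (hcont w).eventually_ne hw]
        with ξ hξ h1 h2
      exact alg_eq h1 h2 (h.rel hξ v₀) (h.rel hξ w) (hE2 ξ hξ v₀ w)
    have h3 := hD.unique (hD'.congr_of_eventuallyEq heq)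
    rw [h3, hDw]
  have hall : ∀ w, D w = lc l α ζ w := by
    intro w
    by_cases hw : lc l b ζ w = 0
    · have h1 : lc l b ζ (w + v₀) ≠ 0 := by rw [lc_add, hw, zero_add]; exact hb
      have h2 := hgen _ h1
      rw [map_add, lc_add, hDv] at h2
      exact add_right_cancel h2
    · exact hgen w hw
  have hsum : HasFDerivAt (fun ξ => ∑ j, α j * l j ξ) (∑ j, α j • fderiv ℂ (l j) ζ) ζ := by
    apply HasFDerivAt.fun_sum
    intro j _
    exact (((h.ld j).differentiableAt (h.op.mem_nhds hζ)).hasFDerivAt).const_mul (α j)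
  have h4 := hD.fun_sub hsum
  have h5 : D - ∑ j, α j • fderiv ℂ (l j) ζ = 0 := by
    ext w
    rw [sub_apply, hall w]
    simp only [lc, sum_apply, smul_apply, smul_eq_mul, sub_self, zero_apply]
  rwa [h5] at h4

theorem LSol.const (h : LSol S l G a b) (α β : J → ℂ)
    (hE1 : ∀ ζ ∈ S, ∀ v, lc' l α ζ v * lc l b ζ v + lc' l a ζ v * lc l β ζ v -
      lc l α ζ v * lc' l b ζ v - lc l a ζ v * lc' l β ζ v -
      lc l α ζ v * lc l b ζ v * (lc l b ζ v - lc l a ζ v) -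
      lc l a ζ v * lc l β ζ v * (lc l b ζ v - lc l a ζ v) -
      lc l a ζ v * lc l b ζ v * (lc l β ζ v - lc l α ζ v) = 0)
    (hE2 : ∀ ζ ∈ S, ∀ v w, lc l α ζ v * lc l b ζ w + lc l a ζ v * lc l β ζ w -
      lc l α ζ w * lc l b ζ v - lc l a ζ w * lc l β ζ v = 0)
    (v₀ : E) {O : Set E} (hO : IsOpen O) (hOp : IsPreconnected O) (hOS : O ⊆ S)
    (hOb : ∀ ζ ∈ O, lc l b ζ v₀ ≠ 0) :
    ∃ κ : ℂ, ∀ ζ ∈ O, (G ζ * lc l α ζ v₀ + (1 - G ζ) * lc l β ζ v₀) / lc l b ζ v₀ =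
      ∑ j, α j * l j ζ + κ := by
  rcases O.eq_empty_or_nonempty with rfl | ⟨ζ₀, hζ₀⟩
  · exact ⟨0, by simp⟩
  have hz : ∀ ζ ∈ O, HasFDerivAt (fun ξ => (G ξ * lc l α ξ v₀ + (1 - G ξ) * lc l β ξ v₀) /
      lc l b ξ v₀ - ∑ j, α j * l j ξ) (0 : E →L[ℂ] ℂ) ζ :=
    fun ζ hζ => h.zero_deriv α β hE1 hE2 v₀ (hOS hζ) (hOb ζ hζ)
  refine ⟨(G ζ₀ * lc l α ζ₀ v₀ + (1 - G ζ₀) * lc l β ζ₀ v₀) / lc l b ζ₀ v₀ - ∑ j, α j * l j ζ₀,
    fun ζ hζ => ?_⟩
  have h1 := hO.is_const_of_fderiv_eq_zero (𝕜 := ℂ) hOp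
    (fun ξ hξ => (hz ξ hξ).differentiableAt.differentiableWithinAt)
    (fun ξ hξ => (hz ξ hξ).fderiv) hζ hζ₀
  rw [← h1]
  ring

end Pool.Agent.R848
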