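import Mathlib
import Pool.Agent.R848.Ch

/-! The group of homotopy classes of maps of a smooth affine variety to the punctured plane has
finite rank. -/

set_option autoImplicit false

open Set Filter Topology Metric

namespace Pool.Agent.R848

variable {m d : ℕ} {Y : Set (Fin m → ℂ)} {z : (Fin m → ℂ) → (Fin d → ℂ)} {P : (Fin d → ℂ) → ℂ}

theorem ball_simply {d : ℕ} (c : Fin d → ℂ) {r : ℝ} (hr : 0 < r) :
    IsSimplyConnected (ball c r) := by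
  have : ContractibleSpace (ball c r) :=
    (convex_ball c r).contractibleSpace ⟨c, mem_ball_self hr⟩
  change SimplyConnectedSpace (ball c r)
  infer_instance

/-- the unbranched part -/
abbrev U0 (Y : Set (Fin m → ℂ)) (z : (Fin m → ℂ) → (Fin d → ℂ)) (P : (Fin d → ℂ) → ℂ) : Type :=
  {y : Fin m → ℂ // y ∈ Y ∧ P (z y) ≠ 0}

/-- local sections as maps to the unbranched part -/
theorem Ch.secU (h : Ch Y d z P) (y₀ : U0 Y z P) {N : Set (U0 Y z P)} (hN : N ∈ 𝓝 y₀) :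
    ∃ (r : ℝ) (s : (Fin d → ℂ) → U0 Y z P), 0 < r ∧
    ContinuousOn s (ball (z y₀) r) ∧ s (z y₀) = y₀ ∧
    DifferentiableOn ℂ (fun ζ => (s ζ : Fin m → ℂ)) (ball (z y₀) r) ∧
    (∀ ζ ∈ ball (z y₀) r, z (s ζ) = ζ ∧ s ζ ∈ N) ∧
    ∀ᶠ y : U0 Y z P in 𝓝 y₀, s (z y) = y := by
  classical
  obtain ⟨N', hN', hNN⟩ := mem_nhds_induced _ _ _ |>.1 hN
  obtain ⟨r, s, hr, hs, hs0, hs1, hs2⟩ := h.sec' y₀.2.1 y₀.2.2 hN'
  have hmem : ∀ ζ ∈ ball (z y₀) r, s ζ ∈ Y ∧ P (z (s ζ)) ≠ 0 := by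
    intro ζ hζ
    obtain ⟨h1, h2, h3, -⟩ := hs1 ζ hζ
    exact ⟨h1, by rw [h2]; exact h3⟩
  let s' : (Fin d → ℂ) → U0 Y z P := fun ζ =>
    if hζ : ζ ∈ ball (z y₀) r then ⟨s ζ, hmem ζ hζ⟩ else y₀
  have hs' : ∀ ζ ∈ ball (z y₀) r, (s' ζ : Fin m → ℂ) = s ζ := by
    intro ζ hζ
    simp only [s', dif_pos hζ]
  have hs0' : s' (z y₀) = y₀ := by
    apply Subtype.ext
    rw [hs' _ (mem_ball_self hr), hs0]
  refine ⟨r, s', hr, ?_, hs0', hs.congr hs', ?_, ?_⟩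
  · rw [IsInducing.subtypeVal.continuousOn_iff]
    exact hs.continuousOn.congr hs'
  · intro ζ hζ
    refine ⟨by rw [hs' ζ hζ]; exact (hs1 ζ hζ).2.1, ?_⟩
    apply hNN
    change (s' ζ : Fin m → ℂ) ∈ N'
    rw [hs' ζ hζ]
    exact (hs1 ζ hζ).2.2.2
  · have h1 : ∀ᶠ y : U0 Y z P in 𝓝 y₀, z y ∈ ball (z y₀) r := by
      have hc : Continuous fun y : U0 Y z P => z y := h.zd.continuous.comp continuous_subtype_val
      exact hc.continuousAt.eventually_mem (ball_mem_nhds _ hr)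
    have h2 : ∀ᶠ y : U0 Y z P in 𝓝 y₀, s (z y) = y := by
      have h3 : Tendsto (fun y : U0 Y z P => (y : Fin m → ℂ)) (𝓝 y₀) (𝓝[Y] (y₀ : Fin m → ℂ)) := by
        rw [tendsto_nhdsWithin_iff]
        exact ⟨continuous_subtype_val.continuousAt, Eventually.of_forall fun y => y.2.1⟩
      exact h3.eventually hs2
    filter_upwards [h1, h2] with y hy1 hy2
    apply Subtype.ext
    rw [hs' _ hy1, hy2]

/-- images of small balls under local sections are neighbourhoods -/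
theorem Ch.nhds_image (h : Ch Y d z P) (y₀ : U0 Y z P) {s : (Fin d → ℂ) → U0 Y z P}
    (hs : ∀ᶠ y : U0 Y z P in 𝓝 y₀, s (z y) = y) {W : Set (Fin d → ℂ)} (hW : W ∈ 𝓝 (z y₀)) :
    s '' W ∈ 𝓝 y₀ := by
  have hc : Continuous fun y : U0 Y z P => z y := h.zd.continuous.comp continuous_subtype_val
  have h1 : ∀ᶠ y : U0 Y z P in 𝓝 y₀, z y ∈ W := hc.continuousAt.eventually_mem hW
  filter_upwards [hs, h1] with y hy1 hy2
  exact ⟨z y, hy2, hy1⟩

theorem Ch.locConn (h : Ch Y d z P) : LocallyConnectedSpace (U0 Y z P) := by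
  rw [locallyConnectedSpace_iff_connected_subsets]
  intro y₀ N hN
  obtain ⟨r, s, hr, hs, -, -, hs1, hs2⟩ := h.secU y₀ hN
  refine ⟨s '' ball (z y₀) r, h.nhds_image y₀ hs2 (ball_mem_nhds _ hr),
    (convex_ball _ _).isPreconnected.image _ hs, ?_⟩
  rintro _ ⟨ζ, hζ, rfl⟩
  exact (hs1 ζ hζ).2

theorem Ch.locLog (h : Ch Y d z P) (y₀ : U0 Y z P) : ∃ W ∈ 𝓝 y₀, ∀ f : U0 Y z P → ℂ,
    Continuous f → (∀ x, f x ≠ 0) → HasLog f W := by
  obtain ⟨r, s, hr, hs, -, -, hs1, hs2⟩ := h.secU y₀ univ_mem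
  refine ⟨s '' ball (z y₀) r, h.nhds_image y₀ hs2 (ball_mem_nhds _ hr), fun f hf hf0 => ?_⟩
  obtain ⟨g, hg, hge⟩ := Complex.exists_continuousOn_eqOn_exp_comp (ball_simply (z y₀) hr) isOpen_ball
    (g := fun ζ => f (s ζ)) (hf.comp_continuousOn hs) (by
      rintro ⟨ζ, -, hζ⟩
      exact hf0 _ hζ)
  refine ⟨fun y => g (z y), ?_, ?_⟩
  · have hc : Continuous fun y : U0 Y z P => z y := h.zd.continuous.comp continuous_subtype_val
    refine hg.comp hc.continuousOn ?_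
    rintro _ ⟨ζ, hζ, rfl⟩
    change z (s ζ) ∈ _
    rw [(hs1 ζ hζ).1]; exact hζ
  · rintro _ ⟨ζ, hζ, rfl⟩
    have h1 := hge hζ
    change Complex.exp (g (z (s ζ))) = _
    rw [(hs1 ζ hζ).1]
    exact h1

/-- The rank is finite. -/
theorem Ch.rank (hCrit : S_Crit) (hH : S_H) (hT1 : S_T1) (hT2 : S_T2) (h : Ch Y d z P)
    {p : MvPolynomial (Fin d) ℂ} (hp : ∀ ζ, P ζ = MvPolynomial.eval ζ p) :
    ∃ T : ℕ, ∀ f : Fin (T + 1) → Y → ℂ, (∀ i, Continuous (f i)) → (∀ i x, f i x ≠ 0) →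
      ∃ k : Fin (T + 1) → ℤ, k ≠ 0 ∧ HasLog (fun x => ∏ i, f i x ^ k i) univ := by
  have hp0 : p ≠ 0 := by
    rintro rfl
    obtain ⟨y, -, hy⟩ := h.ne
    apply hy
    rw [hp, map_zero]
  obtain ⟨a, c₀, hcrit⟩ := hCrit d p hp0
  set φ : (Fin d → ℂ) → ℝ := fun ζ => ∑ i, ‖ζ i - a i‖ ^ 2 + (‖P ζ‖ ^ 2)⁻¹ with hφ
  have hφe : φ = fun ζ : Fin d → ℂ => ∑ i, ‖ζ i - a i‖ ^ 2 + (‖MvPolynomial.eval ζ p‖ ^ 2)⁻¹ := by
    funext ζ; rw [hφ]; simp only [hp]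
  have hcrit' : ∀ ζ, P ζ ≠ 0 → c₀ < φ ζ → fderiv ℝ φ ζ ≠ 0 := by
    intro ζ h1 h2
    rw [hφe] at h2 ⊢
    exact hcrit ζ (by rw [← hp]; exact h1) h2
  clear hcrit hφe hp
  have hφC : ∀ ζ, P ζ ≠ 0 → ContDiffAt ℝ 1 φ ζ := by
    intro ζ hζ
    have hPc : ContDiffAt ℝ 1 P ζ := by
      have h1 : ContDiffOn ℂ (1 : ℕ) P univ :=
        Pool.Agent.Helper540.contDiffOn_of_differentiableOn isOpen_univ h.Pd.differentiableOn 1
      exact ((h1.contDiffAt univ_mem).restrict_scalars ℝ)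
    refine ContDiffAt.add ?_ ?_
    · apply ContDiffAt.sum
      intro i _
      apply ContDiffAt.norm_sq ℝ
      fun_prop
    · apply ContDiffAt.inv
      · exact ContDiffAt.norm_sq ℝ hPc
      · exact pow_ne_zero _ (norm_ne_zero_iff.2 hζ)
  set Φ : U0 Y z P → ℝ := fun y => φ (z y) with hΦ
  have hzc : Continuous fun y : U0 Y z P => z y := h.zd.continuous.comp continuous_subtype_val
  have hΦc : Continuous Φ := by
    rw [continuous_iff_continuousAt]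
    intro y
    exact ContinuousAt.comp (g := φ) (f := fun y : U0 Y z P => z y) (hφC _ y.2.2).continuousAt
      hzc.continuousAt
  have hΦK : ∀ c, IsCompact {y | Φ y ≤ c} := by
    intro c
    -- the compact set downstairs
    let K : Set (Fin d → ℂ) := {ζ | 1 ≤ (c - ∑ i, ‖ζ i - a i‖ ^ 2) * ‖P ζ‖ ^ 2}
    have hKc : IsClosed K := by
      apply isClosed_le continuous_const
      have := h.Pd.continuous
      fun_prop
    have hKb : IsCompact K := by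
      refine (isCompact_closedBall a (Real.sqrt (max c 0))).of_isClosed_subset hKc ?_
      intro ζ hζ
      rw [mem_closedBall, dist_pi_le_iff (Real.sqrt_nonneg _)]
      intro i
      rw [dist_eq_norm]
      apply Real.le_sqrt_of_sq_le
      have h1 : 0 < (c - ∑ i, ‖ζ i - a i‖ ^ 2) := by
        by_contra hcon
        push Not at hcon
        have h2 : (c - ∑ i, ‖ζ i - a i‖ ^ 2) * ‖P ζ‖ ^ 2 ≤ 0 :=
          mul_nonpos_of_nonpos_of_nonneg hcon (by positivity)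
        have h3 : (1 : ℝ) ≤ (c - ∑ i, ‖ζ i - a i‖ ^ 2) * ‖P ζ‖ ^ 2 := hζ
        linarith
      have h2 : ‖ζ i - a i‖ ^ 2 ≤ ∑ i, ‖ζ i - a i‖ ^ 2 :=
        Finset.single_le_sum (f := fun i => ‖ζ i - a i‖ ^ 2) (fun j _ => by positivity)
          (Finset.mem_univ i)
      exact le_max_of_le_left (by linarith)
    have h1 := h.isCompact hKb
    have h2 : Subtype.val '' {y : U0 Y z P | Φ y ≤ c} = {y | y ∈ Y ∧ z y ∈ K} := by
      ext y
      constructor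
      · rintro ⟨y, hy, rfl⟩
        refine ⟨y.2.1, ?_⟩
        change 1 ≤ (c - ∑ i, ‖z y i - a i‖ ^ 2) * ‖P (z y)‖ ^ 2
        have hpos : 0 < ‖P (z y)‖ ^ 2 := by
          have := norm_pos_iff.2 y.2.2
          positivity
        have hy' : ∑ i, ‖z y i - a i‖ ^ 2 + (‖P (z y)‖ ^ 2)⁻¹ ≤ c := hy
        have h3 : (‖P (z y)‖ ^ 2)⁻¹ ≤ c - ∑ i, ‖z y i - a i‖ ^ 2 := by linarith
        calc (1 : ℝ) = (‖P (z y)‖ ^ 2)⁻¹ * ‖P (z y)‖ ^ 2 := by
              rw [inv_mul_cancel₀ hpos.ne']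
          _ ≤ _ := mul_le_mul_of_nonneg_right h3 hpos.le
      · rintro ⟨hy, hyK⟩
        have hyK' : 1 ≤ (c - ∑ i, ‖z y i - a i‖ ^ 2) * ‖P (z y)‖ ^ 2 := hyK
        have hP0 : P (z y) ≠ 0 := by
          intro h0
          rw [h0] at hyK'
          norm_num at hyK'
        have hpos : 0 < ‖P (z y)‖ ^ 2 := by
          have := norm_pos_iff.2 hP0
          positivity
        refine ⟨⟨y, hy, hP0⟩, ?_, rfl⟩
        change ∑ i, ‖z y i - a i‖ ^ 2 + (‖P (z y)‖ ^ 2)⁻¹ ≤ c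
        have h3 : (‖P (z y)‖ ^ 2)⁻¹ ≤ c - ∑ i, ‖z y i - a i‖ ^ 2 := by
          rw [inv_le_iff_one_le_mul₀ hpos]
          exact hyK'
        linarith
    rw [Subtype.isCompact_iff, h2]
    exact h1
  have hloc : ∀ y, c₀ < Φ y → ∀ N ∈ 𝓝 y, ∃ W ∈ 𝓝 y, W ⊆ N ∧
      (W ∩ {x | Φ x < Φ y}).Nonempty ∧ IsPreconnected (W ∩ {x | Φ x < Φ y}) := by
    intro y₀ hy₀ N hN
    obtain ⟨r, s, hr, hs, hs0, -, hs1, hs2⟩ := h.secU y₀ hN
    obtain ⟨W, hW, hWb, hWne, hWc⟩ := hH (Fin d → ℂ) φ (z y₀) (hφC _ y₀.2.2)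
      (hcrit' _ y₀.2.2 hy₀) (ball (z y₀) r) (ball_mem_nhds _ hr)
    have himg : s '' W ∩ {x | Φ x < Φ y₀} = s '' (W ∩ {ζ | φ ζ < φ (z y₀)}) := by
      ext x
      constructor
      · rintro ⟨⟨ζ, hζ, rfl⟩, hx⟩
        refine ⟨ζ, ⟨hζ, ?_⟩, rfl⟩
        have h1 : φ (z (s ζ)) < φ (z y₀) := hx
        rwa [(hs1 ζ (hWb hζ)).1] at h1
      · rintro ⟨ζ, ⟨hζ, hζ'⟩, rfl⟩
        refine ⟨⟨ζ, hζ, rfl⟩, ?_⟩
        change φ (z (s ζ)) < φ (z y₀)
        rw [(hs1 ζ (hWb hζ)).1]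
        exact hζ'
    refine ⟨s '' W, h.nhds_image y₀ hs2 hW, ?_, ?_, ?_⟩
    · rintro _ ⟨ζ, hζ, rfl⟩
      exact (hs1 ζ (hWb hζ)).2
    · rw [himg]
      exact hWne.image s
    · rw [himg]
      exact hWc.image s (hs.mono (inter_subset_left.trans hWb))
  have := h.locConn
  obtain ⟨T, hT⟩ := hT2 (U0 Y z P) h.locLog {y | Φ y ≤ c₀} (hΦK c₀)
  refine ⟨T, fun f hf hf0 => ?_⟩
  let ι : U0 Y z P → Y := fun y => ⟨y, y.2.1⟩
  have hι : Continuous ι := continuous_subtype_val.subtype_mk _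
  obtain ⟨k, hk0, hk⟩ := hT (fun i x => f i (ι x)) (fun i => (hf i).comp hι) (fun i x => hf0 i _)
  refine ⟨k, hk0, ?_⟩
  have hprodc : ∀ (X : Type) [TopologicalSpace X] (g : Fin (T + 1) → X → ℂ), (∀ i, Continuous (g i)) →
      (∀ i x, g i x ≠ 0) → Continuous (fun x => ∏ i, g i x ^ k i) := by
    intro X _ g hg hg0
    apply continuous_finsetProd
    intro i _
    exact (hg i).zpow₀ (k i) (fun x => Or.inl (hg0 i x))
  have h1 := hT1 (U0 Y z P) Φ hΦc hΦK c₀ hloc (fun x => ∏ i, f i (ι x) ^ k i)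
    (hprodc _ (fun i x => f i (ι x)) (fun i => (hf i).comp hι) (fun i x => hf0 i _))
    (fun x => Finset.prod_ne_zero_iff.2 fun i _ => zpow_ne_zero _ (hf0 i _)) hk
  refine h.thin.hasLog (hprodc _ f hf hf0)
    (fun x => Finset.prod_ne_zero_iff.2 fun i _ => zpow_ne_zero _ (hf0 i _)) ?_
  -- transfer the logarithm
  obtain ⟨l, hl, hle⟩ := h1
  classical
  refine ⟨fun y => if hy : P (z y) ≠ 0 then l ⟨y, y.2, hy⟩ else 0, ?_, ?_⟩
  · rw [continuousOn_iff_continuous_domRestrict]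
    have h2 : Continuous fun x : {y : Y | P (z y) ≠ 0} => l ⟨x.1, x.1.2, x.2⟩ := by
      have h3 : Continuous l := continuousOn_univ.1 hl
      refine h3.comp ?_
      exact (continuous_subtype_val.comp continuous_subtype_val).subtype_mk _
    convert h2 using 1
    funext x
    have h4 : P (z (x : Y)) ≠ 0 := x.2
    change dite (P (z (x : Y)) ≠ 0) _ _ = _
    rw [dif_pos h4]
  · intro y hy
    have h2 := hle ⟨y, y.2, hy⟩ (mem_univ _)
    have h4 : P (z y) ≠ 0 := hy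
    change Complex.exp (dite (P (z y) ≠ 0) _ _) = _
    rw [dif_pos h4, h2]

end Pool.Agent.R848
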