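import Mathlib
import Pool.Agent.R848.Ch

/-! Fibres and liftings for the chart of a smooth affine variety. -/

set_option autoImplicit false

open Set Filter Topology Metric

namespace Pool.Agent.R848

variable {m d : ℕ} {Y : Set (Fin m → ℂ)} {z : (Fin m → ℂ) → (Fin d → ℂ)} {P : (Fin d → ℂ) → ℂ}

theorem Ch.isolated (h : Ch Y d z P) {y : Fin m → ℂ} (hy : y ∈ Y) (hP : P (z y) ≠ 0) :
    ∃ O ∈ 𝓝 y, ∀ y' ∈ O, y' ∈ Y → z y' = z y → y' = y := by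
  obtain ⟨Ω, s, -, -, -, hs0, -, hs2⟩ := h.sec y hy hP
  rw [eventually_nhdsWithin_iff] at hs2
  refine ⟨_, hs2, fun y' hy' hY hz => ?_⟩
  have h1 : s (z y') = y' := hy' hY
  rw [← h1, hz, hs0]

theorem Ch.fibFinite (h : Ch Y d z P) {ζ : Fin d → ℂ} (hζ : P ζ ≠ 0) :
    {y | y ∈ Y ∧ z y = ζ}.Finite := by
  have hK : IsCompact {y | y ∈ Y ∧ z y ∈ ({ζ} : Set (Fin d → ℂ))} := h.isCompact isCompact_singleton
  have h1 : ∀ y : Fin m → ℂ, ∃ O ∈ 𝓝 y, y ∈ Y → z y = ζ → ∀ y' ∈ O, y' ∈ Y → z y' = ζ → y' = y := by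
    intro y
    by_cases hy : y ∈ Y ∧ z y = ζ
    · obtain ⟨O, hO, hO'⟩ := h.isolated hy.1 (by rw [hy.2]; exact hζ)
      exact ⟨O, hO, fun _ _ y' hy' hY hz => hO' y' hy' hY (by rw [hz, hy.2])⟩
    · exact ⟨univ, univ_mem, fun ha hb => absurd ⟨ha, hb⟩ hy⟩
  choose O hO hO' using h1
  obtain ⟨t, ht, hcov⟩ := hK.elim_nhds_subcover O fun y _ => hO y
  refine t.finite_toSet.subset ?_
  intro y hy
  obtain ⟨x, hx, hyx⟩ := mem_iUnion₂.1 (hcov hy)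
  have hx' := ht x hx
  rw [hO' x hx'.1 hx'.2 y hyx hy.1 hy.2]
  exact hx

/-- Local description of the fibres. -/
theorem Ch.fib (h : Ch Y d z P) {ζ₀ : Fin d → ℂ} (hζ₀ : P ζ₀ ≠ 0) :
    ∃ (n : ℕ) (s : Fin n → (Fin d → ℂ) → (Fin m → ℂ)) (r : ℝ), 0 < r ∧
      (∀ i, DifferentiableOn ℂ (s i) (ball ζ₀ r)) ∧
      (∀ ζ ∈ ball ζ₀ r, P ζ ≠ 0) ∧
      ∀ ζ ∈ ball ζ₀ r, {y | y ∈ Y ∧ z y = ζ} = range (fun i => s i ζ) ∧
        Function.Injective fun i => s i ζ := by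
  have hfin := h.fibFinite hζ₀
  obtain ⟨n, y, hyinj, hyr⟩ := hfin.fin_param
  have hy : ∀ i, y i ∈ Y ∧ z (y i) = ζ₀ := by
    intro i
    have : y i ∈ range y := ⟨i, rfl⟩
    rwa [hyr] at this
  -- disjoint neighbourhoods
  obtain ⟨δ, hδ, hδ'⟩ : ∃ δ > 0, ∀ i j, i ≠ j → Disjoint (ball (y i) δ) (ball (y j) δ) := by
    have h1 : ∀ i j, ∃ δ > 0, i ≠ j → ∀ δ', δ' ≤ δ → Disjoint (ball (y i) δ') (ball (y j) δ') := by
      intro i j
      by_cases hij : i = j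
      · exact ⟨1, one_pos, fun h => absurd hij h⟩
      · have hd : 0 < dist (y i) (y j) := dist_pos.2 fun h => hij (hyinj h)
        refine ⟨dist (y i) (y j) / 2, by positivity, fun _ δ' hδ' => ?_⟩
        apply ball_disjoint_ball
        linarith
    choose D hD hD' using h1
    rcases isEmpty_or_nonempty (Fin n) with he | hne
    · exact ⟨1, one_pos, fun i => he.elim i⟩
    · refine ⟨Finset.univ.inf' Finset.univ_nonempty fun p : Fin n × Fin n => D p.1 p.2, ?_, ?_⟩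
      · rw [gt_iff_lt, Finset.lt_inf'_iff]
        intro p _
        exact hD p.1 p.2
      · intro i j hij
        exact hD' i j hij _ (Finset.inf'_le _ (Finset.mem_univ (i, j)))
  have hsec : ∀ i, ∃ (r : ℝ) (s : (Fin d → ℂ) → (Fin m → ℂ)), 0 < r ∧
    DifferentiableOn ℂ s (ball ζ₀ r) ∧
    (∀ ζ ∈ ball ζ₀ r, s ζ ∈ Y ∧ z (s ζ) = ζ ∧ P ζ ≠ 0 ∧ s ζ ∈ ball (y i) δ) ∧
    ∃ O, IsOpen O ∧ y i ∈ O ∧ ∀ y' ∈ O, y' ∈ Y → s (z y') = y' := by
    intro i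
    obtain ⟨r, s, hr, hs, -, hs1, hs2⟩ := h.sec' (hy i).1 (by rw [(hy i).2]; exact hζ₀)
      (ball_mem_nhds (y i) hδ)
    rw [(hy i).2] at hs hs1
    rw [eventually_nhdsWithin_iff] at hs2
    obtain ⟨O, hO1, hO2, hO3⟩ := _root_.eventually_nhds_iff.1 hs2
    exact ⟨r, s, hr, hs, hs1, O, hO2, hO3, hO1⟩
  choose r s hr hs hs1 O hO hyO hsO using hsec
  -- the remaining part of the fibre is far
  have hfar : ∀ᶠ ζ in 𝓝 ζ₀, ∀ y', y' ∈ Y → z y' = ζ → ∃ i, y' ∈ O i := by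
    have hK : IsCompact {y | y ∈ Y ∧ z y ∈ closedBall ζ₀ 1} := h.isCompact (isCompact_closedBall _ _)
    have hK' : IsCompact ({y | y ∈ Y ∧ z y ∈ closedBall ζ₀ 1} \ ⋃ i, O i) :=
      hK.diff (isOpen_iUnion hO)
    have h2 := (hK'.image h.zd.continuous).isClosed
    have h3 : ζ₀ ∉ z '' ({y | y ∈ Y ∧ z y ∈ closedBall ζ₀ 1} \ ⋃ i, O i) := by
      rintro ⟨y', ⟨hy', hy''⟩, hz⟩
      apply hy''
      have h4 : y' ∈ range y := by rw [hyr]; exact ⟨hy'.1, hz⟩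
      obtain ⟨i, rfl⟩ := h4
      exact mem_iUnion.2 ⟨i, hyO i⟩
    filter_upwards [h2.isOpen_compl.mem_nhds h3, closedBall_mem_nhds ζ₀ one_pos] with ζ hζ hζ1 y' hy' hz
    by_contra hcon
    push Not at hcon
    apply hζ
    refine ⟨y', ⟨⟨hy', by rw [hz]; exact hζ1⟩, ?_⟩, hz⟩
    rw [mem_iUnion]
    push Not
    exact hcon
  have hPn : ∀ᶠ ζ in 𝓝 ζ₀, P ζ ≠ 0 := h.Pd.continuous.continuousAt.eventually_ne hζ₀
  have hrn : ∀ᶠ ζ in 𝓝 ζ₀, ∀ i, ζ ∈ ball ζ₀ (r i) := by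
    rw [eventually_all]
    intro i
    exact ball_mem_nhds _ (hr i)
  obtain ⟨ρ, hρ, hball⟩ := Metric.eventually_nhds_iff_ball.1 (hfar.and (hPn.and hrn))
  refine ⟨n, s, ρ, hρ, fun i => (hs i).mono fun ζ hζ => (hball ζ hζ).2.2 i,
    fun ζ hζ => (hball ζ hζ).2.1, fun ζ hζ => ⟨?_, ?_⟩⟩
  · ext y'
    constructor
    · rintro ⟨hy', hz⟩
      obtain ⟨i, hi⟩ := (hball ζ hζ).1 y' hy' hz
      refine ⟨i, ?_⟩
      have := hsO i y' hi hy'
      rw [hz] at this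
      exact this
    · rintro ⟨i, rfl⟩
      have := hs1 i ζ ((hball ζ hζ).2.2 i)
      exact ⟨this.1, this.2.1⟩
  · intro i j hij
    by_contra hne
    have h1 := (hs1 i ζ ((hball ζ hζ).2.2 i)).2.2.2
    have h2 := (hs1 j ζ ((hball ζ hζ).2.2 j)).2.2.2
    have hij' : s i ζ = s j ζ := hij
    rw [← hij'] at h2
    exact (Set.disjoint_left.1 (hδ' i j hne)) h1 h2

theorem Ch.isLocalHomeomorphOn (h : Ch Y d z P) :
    IsLocalHomeomorphOn (fun y : Y => z y) ((fun y : Y => z y) ⁻¹' {ζ | P ζ ≠ 0}) := by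
  intro y₀ hy₀
  obtain ⟨r, s, hr, hs, hs0, hs1, hs2⟩ := h.sec' y₀.2 hy₀ univ_mem
  rw [nhdsWithin_eq_map_subtype_coe y₀.2, eventually_map] at hs2
  have hzc : Continuous fun y : Y => z y := h.zd.continuous.comp continuous_subtype_val
  have h1 : ∀ᶠ y : Y in 𝓝 y₀, s (z y) = y ∧ z y ∈ ball (z y₀) r :=
    hs2.and (hzc.continuousAt.eventually_mem (ball_mem_nhds _ hr))
  obtain ⟨O, hO1, hO2, hO3⟩ := _root_.eventually_nhds_iff.1 h1
  classical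
  let s' : (Fin d → ℂ) → Y := fun ζ =>
    if hζ : ζ ∈ ball (z y₀) r then ⟨s ζ, (hs1 ζ hζ).1⟩ else y₀
  have hs' : ∀ ζ ∈ ball (z y₀) r, (s' ζ : Fin m → ℂ) = s ζ := by
    intro ζ hζ
    simp only [s', dif_pos hζ]
  have hs'c : ContinuousOn s' (ball (z y₀) r) := by
    rw [IsInducing.subtypeVal.continuousOn_iff]
    exact hs.continuousOn.congr hs'
  let e : OpenPartialHomeomorph Y (Fin d → ℂ) :=
    { toFun := fun y => z y
      invFun := s'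
      source := O
      target := ball (z y₀) r ∩ s' ⁻¹' O
      map_source' := by
        intro y hy
        refine ⟨(hO1 y hy).2, ?_⟩
        have : s' (z y) = y := Subtype.ext (by rw [hs' _ (hO1 y hy).2]; exact (hO1 y hy).1)
        change s' (z y) ∈ O
        rw [this]; exact hy
      map_target' := by
        intro ζ hζ
        exact hζ.2
      left_inv' := by
        intro y hy
        exact Subtype.ext (by rw [hs' _ (hO1 y hy).2]; exact (hO1 y hy).1)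
      right_inv' := by
        intro ζ hζ
        change z (s' ζ) = ζ
        rw [hs' _ hζ.1]
        exact (hs1 ζ hζ.1).2.1
      open_source := hO2
      open_target := hs'c.isOpen_inter_preimage isOpen_ball hO2
      continuousOn_toFun := hzc.continuousOn
      continuousOn_invFun := hs'c.mono inter_subset_left }
  exact ⟨e, hO3, rfl⟩

theorem Ch.isClosedMap (h : Ch Y d z P) : IsClosedMap (fun y : Y => z y) := by
  have hzc : Continuous fun y : Y => z y := h.zd.continuous.comp continuous_subtype_val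
  have hp : IsProperMap (fun y : Y => z y) := by
    rw [isProperMap_iff_isCompact_preimage]
    refine ⟨hzc, fun K hK => ?_⟩
    rw [Subtype.isCompact_iff]
    have h1 := h.isCompact hK
    convert h1 using 1
    ext y
    constructor
    · rintro ⟨y, hy, rfl⟩
      exact ⟨y.2, hy⟩
    · rintro ⟨hy, hyK⟩
      exact ⟨⟨y, hy⟩, hyK, rfl⟩
  exact hp.isClosedMap

theorem Ch.covering (h : Ch Y d z P) : IsCoveringMapOn (fun y : Y => z y) {ζ | P ζ ≠ 0} := by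
  refine h.isClosedMap.isCoveringMapOn_of_isLocalHomeomorphOn ?_ h.isLocalHomeomorphOn
  intro ζ hζ
  have h1 := h.fibFinite hζ
  refine Set.Finite.of_finite_image (f := Subtype.val) (h1.subset ?_) Subtype.val_injective.injOn
  rintro _ ⟨y, hy, rfl⟩
  exact ⟨y.2, hy⟩

/-- Holomorphic lifts of discs. -/
theorem Ch.lift (h : Ch Y d z P) {c : ℂ} {r : ℝ} (hr : 0 < r) {γ : ℂ → (Fin d → ℂ)}
    (hγ : DifferentiableOn ℂ γ (ball c r)) (hP : ∀ ξ ∈ ball c r, P (γ ξ) ≠ 0) {ξ₁ : ℂ}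
    (hξ₁ : ξ₁ ∈ ball c r) {y₁ : Fin m → ℂ} (hy₁ : y₁ ∈ Y) (hz : z y₁ = γ ξ₁) :
    ∃ F : ℂ → (Fin m → ℂ), DifferentiableOn ℂ F (ball c r) ∧ F ξ₁ = y₁ ∧
      ∀ ξ ∈ ball c r, F ξ ∈ Y ∧ z (F ξ) = γ ξ := by
  have hcontr : ContractibleSpace (ball c r) :=
    (convex_ball c r).contractibleSpace ⟨c, mem_ball_self hr⟩
  have hsc : SimplyConnectedSpace (ball c r) := inferInstance
  have hlpc : LocallyPathConnectedSpace (ball c r) := isOpen_ball.locallyPathConnectedSpace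
  have hγc : Continuous fun ξ : ball c r => γ ξ :=
    continuousOn_iff_continuous_domRestrict.1 hγ.continuousOn
  obtain ⟨F, ⟨hF1, hF2⟩, -⟩ := h.covering.existsUnique_continuousMap_lifts
    (⟨fun ξ : ball c r => γ ξ, hγc⟩ : C(ball c r, Fin d → ℂ)) (a₀ := ⟨ξ₁, hξ₁⟩) (e₀ := ⟨y₁, hy₁⟩)
    hz (fun ξ => hP ξ ξ.2)
  have hF2' : ∀ ξ : ball c r, z (F ξ) = γ ξ := fun ξ => congrFun hF2 ξ
  classical
  let G : ℂ → (Fin m → ℂ) := fun ξ => if hξ : ξ ∈ ball c r then F ⟨ξ, hξ⟩ else y₁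
  have hG : ∀ ξ : ball c r, G ξ = F ξ := by
    intro ξ
    simp only [G, dif_pos ξ.2]
  refine ⟨G, ?_, ?_, ?_⟩
  · intro ξ hξ
    obtain ⟨Ω, s, hΩ, hzΩ, hs, hs0, -, hs2⟩ := h.sec (F ⟨ξ, hξ⟩) (F ⟨ξ, hξ⟩).2 (by
      rw [hF2']; exact hP ξ hξ)
    rw [nhdsWithin_eq_map_subtype_coe (F ⟨ξ, hξ⟩).2, eventually_map] at hs2
    have h1 : ∀ᶠ ξ' : ball c r in 𝓝 ⟨ξ, hξ⟩, s (z (F ξ')) = F ξ' :=
      (F.continuous.tendsto _).eventually hs2
    have h2 : ∀ᶠ ξ' in 𝓝 ξ, G ξ' = s (γ ξ') := by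
      have h3 : 𝓝 ξ = map Subtype.val (𝓝 (⟨ξ, hξ⟩ : ball c r)) :=
        (isOpen_ball.isOpenEmbedding_subtypeVal.map_nhds_eq ⟨ξ, hξ⟩).symm
      rw [h3, eventually_map]
      filter_upwards [h1] with ξ' hξ'
      rw [hG, ← hξ', hF2']
    have h4 : DifferentiableAt ℂ (fun ξ' => s (γ ξ')) ξ := by
      refine DifferentiableAt.comp (g := s) (f := γ) ξ ?_ (hγ.differentiableAt (isOpen_ball.mem_nhds hξ))
      rw [hF2'] at hzΩ
      exact hs.differentiableAt (hΩ.mem_nhds hzΩ)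
    exact (h4.congr_of_eventuallyEq h2).differentiableWithinAt
  · rw [hG ⟨ξ₁, hξ₁⟩, hF1]
  · intro ξ hξ
    rw [hG ⟨ξ, hξ⟩]
    exact ⟨(F ⟨ξ, hξ⟩).2, hF2' _⟩

end Pool.Agent.R848
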