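import Mathlib
import Pool.Agent.R848.Fib

/-! Functions holomorphic along a set, logarithms, an extension theorem and a Liouville theorem. -/

set_option autoImplicit false

open Set Filter Topology Metric

namespace Pool.Agent.R848

/-- `G` is holomorphic along `Y` -/
def HolOn {m : ℕ} (Y : Set (Fin m → ℂ)) (G : (Fin m → ℂ) → ℂ) : Prop :=
  ∀ p ∈ Y, ∃ U : Set (Fin m → ℂ), IsOpen U ∧ p ∈ U ∧ ∃ h : (Fin m → ℂ) → ℂ, DifferentiableOn ℂ h U ∧
    ∀ y ∈ Y, y ∈ U → h y = G y

section
variable {m : ℕ} {Y : Set (Fin m → ℂ)} {G : (Fin m → ℂ) → ℂ}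

theorem HolOn.comp (hG : HolOn Y G)
    {E : Type*} [NormedAddCommGroup E] [NormedSpace ℂ E] {S : Set E} (hS : IsOpen S)
    {F : E → (Fin m → ℂ)} (hF : DifferentiableOn ℂ F S) (hFY : ∀ x ∈ S, F x ∈ Y) :
    DifferentiableOn ℂ (fun x => G (F x)) S := by
  intro x hx
  obtain ⟨U, hU, hpU, h, hh, hhG⟩ := hG (F x) (hFY x hx)
  have hFx : DifferentiableAt ℂ F x := hF.differentiableAt (hS.mem_nhds hx)
  have h1 : ∀ᶠ x' in 𝓝 x, G (F x') = h (F x') := by
    have h2 : ∀ᶠ x' in 𝓝 x, F x' ∈ U := hFx.continuousAt.eventually_mem (hU.mem_nhds hpU)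
    filter_upwards [h2, hS.mem_nhds hx] with x' hx' hx''
    exact (hhG _ (hFY x' hx'') hx').symm
  have h3 : DifferentiableAt ℂ (fun x' => h (F x')) x :=
    DifferentiableAt.comp (g := h) (f := F) x (hh.differentiableAt (hU.mem_nhds hpU)) hFx
  exact (h3.congr_of_eventuallyEq h1).differentiableWithinAt

theorem HolOn.continuousOn (hG : HolOn Y G) : ContinuousOn G Y := by
  intro p hp
  obtain ⟨U, hU, hpU, h, hh, hhG⟩ := hG p hp
  have h1 : ContinuousWithinAt h Y p :=
    (hh.differentiableAt (hU.mem_nhds hpU)).continuousAt.continuousWithinAt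
  refine h1.congr_of_eventuallyEq ?_ (hhG p hp hpU).symm
  filter_upwards [self_mem_nhdsWithin, mem_nhdsWithin_of_mem_nhds (hU.mem_nhds hpU)] with y hy hyU
  exact (hhG y hy hyU).symm

theorem HolOn.one_sub (hG : HolOn Y G) : HolOn Y fun y => 1 - G y := by
  intro p hp
  obtain ⟨U, hU, hpU, h, hh, hhG⟩ := hG p hp
  exact ⟨U, hU, hpU, fun y => 1 - h y, hh.const_sub 1, fun y hy hyU => by simp only [hhG y hy hyU]⟩

end

/-- a continuous logarithm of a holomorphic function is holomorphic -/
theorem differentiableOn_log {E : Type*} [NormedAddCommGroup E] [NormedSpace ℂ E] {S : Set E}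
    (hS : IsOpen S) {l f : E → ℂ} (hl : ContinuousOn l S) (hf : DifferentiableOn ℂ f S)
    (he : ∀ x ∈ S, Complex.exp (l x) = f x) : DifferentiableOn ℂ l S := by
  intro x hx
  have hlx : ContinuousAt l x := hl.continuousAt (hS.mem_nhds hx)
  have hf0 : f x ≠ 0 := by rw [← he x hx]; exact Complex.exp_ne_zero _
  have h1 : ∀ᶠ x' in 𝓝 x, l x' = Complex.log (f x' / f x) + l x := by
    have h2 : ∀ᶠ x' in 𝓝 x, dist (l x') (l x) < Real.pi :=
      Metric.tendsto_nhds.1 hlx _ Real.pi_pos
    filter_upwards [h2, hS.mem_nhds hx] with x' hx' hx'S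
    have h3 : |(l x' - l x).im| < Real.pi := by
      refine lt_of_le_of_lt (Complex.abs_im_le_norm _) ?_
      rwa [← dist_eq_norm]
    rw [← he x' hx'S, ← he x hx, ← Complex.exp_sub, Complex.log_exp]
    · ring
    · exact (abs_lt.1 h3).1
    · exact (abs_lt.1 h3).2.le
  have h4 : DifferentiableAt ℂ (fun x' => Complex.log (f x' / f x) + l x) x := by
    refine DifferentiableAt.add_const _ ?_
    have h5 : DifferentiableAt ℂ (fun x' => f x' / f x) x := by
      simp only [div_eq_mul_inv]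
      exact (hf.differentiableAt (hS.mem_nhds hx)).mul_const _
    refine DifferentiableAt.clog h5 ?_
    rw [div_self hf0]
    exact Complex.one_mem_slitPlane
  exact (h4.congr_of_eventuallyEq h1).differentiableWithinAt

/-- A holomorphic function off a finite set, locally bounded, is the restriction of an entire one. -/
theorem exists_entire (A : Finset ℂ) : ∀ f : ℂ → ℂ, DifferentiableOn ℂ f (A : Set ℂ)ᶜ →
    (∀ R : ℝ, ∃ M : ℝ, ∀ τ, τ ∉ A → ‖τ‖ ≤ R → ‖f τ‖ ≤ M) →
    ∃ g : ℂ → ℂ, Differentiable ℂ g ∧ ∀ τ, τ ∉ A → g τ = f τ := by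
  induction A using Finset.induction_on with
  | empty =>
    intro f hf _
    refine ⟨f, ?_, fun _ _ => rfl⟩
    rw [Finset.coe_empty, compl_empty] at hf
    exact differentiableOn_univ.1 hf
  | insert a A ha ih =>
    intro f hf hb
    set v := limUnder (𝓝[≠] a) f with hv
    have hA : DifferentiableOn ℂ (Function.update f a v) (A : Set ℂ)ᶜ := by
      intro τ hτ
      by_cases h : τ = a
      · subst h
        have hopen : IsOpen ((A : Set ℂ)ᶜ) := A.finite_toSet.isClosed.isOpen_compl
        obtain ⟨δ, hδ, hδb⟩ := Metric.isOpen_iff.1 hopen τ hτ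
        obtain ⟨M, hM⟩ := hb (‖τ‖ + δ)
        have h0 : ∀ w ∈ ball τ δ \ {τ}, w ∉ insert τ A := by
          intro w hw
          rw [Finset.mem_insert, not_or]
          exact ⟨hw.2, fun h2 => hδb hw.1 h2⟩
        have h1 : DifferentiableOn ℂ (Function.update f τ (limUnder (𝓝[≠] τ) f)) (ball τ δ) := by
          refine Complex.differentiableOn_update_limUnder_of_bddAbove (ball_mem_nhds _ hδ)
            (hf.mono fun w hw => h0 w hw) ⟨M, ?_⟩
          rintro _ ⟨w, hw, rfl⟩
          refine hM w (h0 w hw) ?_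
          have h3 : ‖w - τ‖ < δ := by rw [← dist_eq_norm]; exact hw.1
          calc ‖w‖ = ‖τ + (w - τ)‖ := by ring_nf
            _ ≤ ‖τ‖ + ‖w - τ‖ := norm_add_le _ _
            _ ≤ ‖τ‖ + δ := by linarith
        exact (h1.differentiableAt (ball_mem_nhds _ hδ)).differentiableWithinAt
      · have h1 : DifferentiableAt ℂ f τ := by
          refine hf.differentiableAt ?_
          have hopen : IsOpen (((insert a A : Finset ℂ) : Set ℂ)ᶜ) :=
            (insert a A).finite_toSet.isClosed.isOpen_compl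
          apply hopen.mem_nhds
          rw [Finset.coe_insert]
          rintro (h2 | h2)
          · exact h h2
          · exact hτ h2
        have h2 : Function.update f a v =ᶠ[𝓝 τ] f := by
          filter_upwards [isOpen_ne.mem_nhds h] with w hw
          exact Function.update_of_ne hw _ _
        exact (h1.congr_of_eventuallyEq h2).differentiableWithinAt
    have hB : ∀ R : ℝ, ∃ M : ℝ, ∀ τ, τ ∉ A → ‖τ‖ ≤ R → ‖Function.update f a v τ‖ ≤ M := by
      intro R
      obtain ⟨M, hM⟩ := hb R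
      refine ⟨max M ‖v‖, fun τ hτ hR => ?_⟩
      by_cases h : τ = a
      · subst h
        rw [Function.update_self]
        exact le_max_right _ _
      · rw [Function.update_of_ne h]
        refine (hM τ ?_ hR).trans (le_max_left _ _)
        rw [Finset.mem_insert, not_or]
        exact ⟨h, hτ⟩
    obtain ⟨g, hg, hgf⟩ := ih (Function.update f a v) hA hB
    refine ⟨g, hg, fun τ hτ => ?_⟩
    rw [Finset.mem_insert, not_or] at hτ
    rw [hgf τ hτ.2, Function.update_of_ne hτ.1]

/-- An entire function of sublinear growth is constant. -/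
theorem const_of_sublinear {g : ℂ → ℂ} (hg : Differentiable ℂ g)
    (hgr : ∀ ε : ℝ, 0 < ε → ∃ R : ℝ, ∀ τ, R ≤ ‖τ‖ → ‖g τ‖ ≤ ε * ‖τ‖) (x y : ℂ) : g x = g y := by
  refine is_const_of_deriv_eq_zero hg (fun c => ?_) x y
  by_contra hne
  have hpos : 0 < ‖deriv g c‖ := norm_pos_iff.2 hne
  obtain ⟨R, hR⟩ := hgr (‖deriv g c‖ / 4) (by positivity)
  set ρ : ℝ := max (|R| + ‖c‖) 1 + ‖c‖ with hρ
  have hρ1 : 1 ≤ ρ := by
    have := le_max_right (|R| + ‖c‖) 1
    have := norm_nonneg c
    linarith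
  have hρc : |R| + 2 * ‖c‖ ≤ ρ := by
    have := le_max_left (|R| + ‖c‖) 1
    linarith
  have key : ‖deriv g c‖ ≤ (‖deriv g c‖ / 4 * (2 * ρ)) / ρ := by
    refine Complex.norm_deriv_le_of_forall_mem_sphere_norm_le (by linarith) hg.diffContOnCl ?_
    intro w hw
    have h1 : ‖w - c‖ = ρ := by rw [← dist_eq_norm]; exact hw
    have h2 : ‖w‖ ≤ 2 * ρ := by
      calc ‖w‖ = ‖(w - c) + c‖ := by ring_nf
        _ ≤ ‖w - c‖ + ‖c‖ := norm_add_le _ _
        _ ≤ 2 * ρ := by
          have := abs_nonneg R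
          have := norm_nonneg c
          linarith
    have h3 : R ≤ ‖w‖ := by
      have h4 : ‖w - c‖ ≤ ‖w‖ + ‖c‖ := norm_sub_le _ _
      have := le_abs_self R
      have := norm_nonneg c
      linarith
    refine (hR w h3).trans ?_
    exact mul_le_mul_of_nonneg_left h2 (by positivity)
  have h5 : (‖deriv g c‖ / 4 * (2 * ρ)) / ρ = ‖deriv g c‖ / 2 := by
    field_simp
    ring
  rw [h5] at key
  linarith

end Pool.Agent.R848
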