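import Mathlib
import Pool.Agent.R848.Hol

/-! Growth along lines of products of functions omitting `0` and `1`. -/

set_option autoImplicit false

open Set Filter Topology Metric

namespace Pool.Agent.R848

variable {m d : ℕ} {Y : Set (Fin m → ℂ)} {z : (Fin m → ℂ) → (Fin d → ℂ)} {P : (Fin d → ℂ) → ℂ}

theorem norm_log_le' (w : ℂ) : ‖Complex.log w‖ ≤ |Real.log ‖w‖| + Real.pi := by
  refine (Complex.norm_le_abs_re_add_abs_im _).trans ?_
  rw [Complex.log_re, Complex.log_im]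
  have := Complex.abs_arg_le_pi w
  linarith

/-- normalised logarithms on a disc -/
theorem exists_log_disc {x : ℝ} (hx : 1 ≤ x) {f : ℂ → ℂ} (hf : DifferentiableOn ℂ f (ball (x : ℂ) x))
    (hf0 : ∀ w ∈ ball (x : ℂ) x, f w ≠ 0) :
    ∃ l : ℂ → ℂ, DifferentiableOn ℂ l (ball (x : ℂ) x) ∧ (∀ w ∈ ball (x : ℂ) x, Complex.exp (l w) = f w) ∧
      l 1 = Complex.log (f 1) := by
  have hsc : IsSimplyConnected (ball (x : ℂ) x) := by
    have : ContractibleSpace (ball (x : ℂ) x) :=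
      (convex_ball (x : ℂ) x).contractibleSpace ⟨x, mem_ball_self (by linarith)⟩
    change SimplyConnectedSpace (ball (x : ℂ) x)
    infer_instance
  have h1 : (1 : ℂ) ∈ ball (x : ℂ) x := by
    rw [mem_ball, dist_eq_norm]
    have : ‖(1 : ℂ) - x‖ = x - 1 := by
      rw [show (1 : ℂ) - x = ((1 - x : ℝ) : ℂ) by push_cast; ring, Complex.norm_real,
        Real.norm_eq_abs, abs_of_nonpos (by linarith)]
      ring
    rw [this]; linarith
  obtain ⟨l, hl, hle⟩ := Complex.exists_continuousOn_eqOn_exp_comp hsc isOpen_ball hf.continuousOn (by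
    rintro ⟨w, hw, hw0⟩
    exact hf0 w hw hw0)
  have hle' : ∀ w ∈ ball (x : ℂ) x, Complex.exp (l w) = f w := hle
  refine ⟨fun w => l w + (Complex.log (f 1) - l 1), ?_, ?_, by ring⟩
  · exact (differentiableOn_log isOpen_ball hl hf hle').add_const _
  · intro w hw
    rw [Complex.exp_add, Complex.exp_sub, Complex.exp_log (hf0 1 h1), hle' w hw, hle' 1 h1,
      div_self (hf0 1 h1), mul_one]

theorem Ch.growth (hL : S_L) (h : Ch Y d z P) {ι : Type} [Fintype ι] (g : ι → (Fin m → ℂ) → ℂ)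
    (hg : ∀ i, HolOn Y (g i)) (hg0 : ∀ i, ∀ y ∈ Y, g i y ≠ 0) (hg1 : ∀ i, ∀ y ∈ Y, g i y ≠ 1)
    (a : ι → ℤ) (H : (Fin m → ℂ) → ℂ) (hH : ContinuousOn H Y)
    (he : ∀ y ∈ Y, Complex.exp (H y) = ∏ i, g i y ^ a i)
    (ζ v : Fin d → ℂ) (hζ : P ζ ≠ 0) :
    ∃ C K R₁ : ℝ, 1 ≤ C ∧ 0 ≤ K ∧ Real.exp 1 ≤ R₁ ∧
      (∀ τ : ℂ, R₁ ≤ ‖τ‖ → P (ζ + τ • v) ≠ 0) ∧
      ∀ y ∈ Y, ∀ τ : ℂ, z y = ζ + τ • v → R₁ ≤ ‖τ‖ → ‖H y‖ ≤ C * Real.log ‖τ‖ ^ K := by
  -- the radius
  obtain ⟨R₀, hR₀1, hR₀⟩ : ∃ R₀ : ℝ, 1 ≤ R₀ ∧ ∀ τ : ℂ, R₀ < ‖τ‖ → P (ζ + τ • v) ≠ 0 := by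
    obtain ⟨B, hB⟩ := (h.line ζ v hζ).isBounded.exists_norm_le
    refine ⟨max B 1, le_max_right _ _, fun τ hτ h0 => ?_⟩
    have h1 := hB τ h0
    have h2 := le_max_left B 1
    linarith
  -- compact set
  set K₁ : Set (Fin m → ℂ) :=
    {y | y ∈ Y ∧ z y ∈ (fun τ : ℂ => ζ + τ • v) '' closedBall 0 (R₀ * Real.exp 1)} with hK₁
  have hK₁c : IsCompact K₁ := by
    apply h.isCompact
    apply (isCompact_closedBall (0 : ℂ) _).image
    fun_prop
  obtain ⟨MH, hMH⟩ := hK₁c.exists_bound_of_continuousOn (hH.mono fun y hy => hy.1)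
  have hMi : ∀ i, ∃ M : ℝ, ∀ y ∈ K₁, |Real.log ‖g i y‖| ≤ M := by
    intro i
    have hc : ContinuousOn (fun y => Real.log ‖g i y‖) K₁ := by
      refine ContinuousOn.log ?_ fun y hy => norm_ne_zero_iff.2 (hg0 i y hy.1)
      exact ((hg i).continuousOn.mono fun y hy => hy.1).norm
    obtain ⟨M, hM⟩ := hK₁c.exists_bound_of_continuousOn hc
    exact ⟨M, fun y hy => by simpa using hM y hy⟩
  choose Mi hMi using hMi
  set M : ℝ := ∑ i, |Mi i| + Real.pi with hM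
  have hMi' : ∀ i, ∀ y ∈ K₁, ‖Complex.log (g i y)‖ ≤ M := by
    intro i y hy
    refine (norm_log_le' _).trans ?_
    have h1 := hMi i y hy
    have h2 : |Mi i| ≤ ∑ i, |Mi i| :=
      Finset.single_le_sum (f := fun i => |Mi i|) (fun j _ => abs_nonneg _) (Finset.mem_univ i)
    have h3 := le_abs_self (Mi i)
    rw [hM]; linarith
  have hM0 : 0 ≤ M := by
    have h1 : 0 ≤ ∑ i, |Mi i| := Finset.sum_nonneg fun _ _ => abs_nonneg _
    have := Real.pi_pos
    rw [hM]; linarith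
  obtain ⟨C, K, hCK⟩ := hL M
  set A : ℝ := ∑ i, ‖(a i : ℂ)‖ with hA
  have hA0 : 0 ≤ A := Finset.sum_nonneg fun _ _ => norm_nonneg _
  refine ⟨A * |C| + (|MH| + A * M) + 1, |K|, R₀ * Real.exp 1, ?_, abs_nonneg _, ?_, ?_, ?_⟩
  · have : 0 ≤ A * |C| := by positivity
    have : 0 ≤ A * M := by positivity
    have := abs_nonneg MH
    linarith
  · have := Real.exp_pos 1
    nlinarith
  · intro τ hτ
    apply hR₀
    refine lt_of_lt_of_le ?_ hτ
    have : 1 < Real.exp 1 := by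
      have := Real.add_one_lt_exp (one_ne_zero)
      linarith
    nlinarith
  intro y₁ hy₁ τ₁ hz₁ hτ₁
  have hexp1 : 0 < Real.exp 1 := Real.exp_pos 1
  have hR₀pos : 0 < R₀ := by linarith
  have hτpos : 0 < ‖τ₁‖ := lt_of_lt_of_le (by positivity) hτ₁
  set x : ℝ := Real.log (‖τ₁‖ / R₀) with hx
  have hx1 : 1 ≤ x := by
    rw [hx, Real.le_log_iff_exp_le (by positivity), le_div_iff₀ hR₀pos]
    linarith
  have hxlog : x ≤ Real.log ‖τ₁‖ := by
    rw [hx]
    apply Real.log_le_log (by positivity)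
    exact div_le_self hτpos.le hR₀1
  have hexpx : R₀ * Real.exp x = ‖τ₁‖ := by
    rw [hx, Real.exp_log (by positivity)]
    field_simp
  -- the disc
  have h1mem : (1 : ℂ) ∈ ball (x : ℂ) x := by
    rw [mem_ball, dist_eq_norm]
    have : ‖(1 : ℂ) - x‖ = x - 1 := by
      rw [show (1 : ℂ) - x = ((1 - x : ℝ) : ℂ) by push_cast; ring, Complex.norm_real,
        Real.norm_eq_abs, abs_of_nonpos (by linarith)]
      ring
    rw [this]; linarith
  have hxmem : (x : ℂ) ∈ ball (x : ℂ) x := mem_ball_self (by linarith)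
  set w₀ : ℂ := Complex.exp (Complex.arg τ₁ * Complex.I) with hw₀
  have hw₀n : ‖w₀‖ = 1 := by rw [hw₀, Complex.norm_exp_ofReal_mul_I]
  set t : ℂ → ℂ := fun ξ => R₀ * Complex.exp ξ * w₀ with ht
  have htn : ∀ ξ, ‖t ξ‖ = R₀ * Real.exp ξ.re := by
    intro ξ
    rw [ht]
    simp only [norm_mul, hw₀n, mul_one, Complex.norm_exp, Complex.norm_real, Real.norm_eq_abs,
      abs_of_pos hR₀pos]
  have htx : t x = τ₁ := by
    have h1 : ((R₀ * Real.exp x : ℝ) : ℂ) * w₀ = τ₁ := by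
      rw [hexpx, hw₀]
      exact Complex.norm_mul_exp_arg_mul_I τ₁
    rw [← h1, ht]
    push_cast
    ring
  have htd : Differentiable ℂ t := by
    rw [ht]; fun_prop
  have hre : ∀ ξ ∈ ball (x : ℂ) x, 0 < ξ.re := by
    intro ξ hξ
    have h1 : |(ξ - x).re| < x := lt_of_le_of_lt (Complex.abs_re_le_norm _) (by
      rw [← dist_eq_norm]; exact hξ)
    rw [Complex.sub_re, Complex.ofReal_re] at h1
    have := (abs_lt.1 h1).1
    linarith
  have hγd : DifferentiableOn ℂ (fun ξ => ζ + t ξ • v) (ball (x : ℂ) x) := by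
    apply Differentiable.differentiableOn
    fun_prop
  have hγP : ∀ ξ ∈ ball (x : ℂ) x, P (ζ + t ξ • v) ≠ 0 := by
    intro ξ hξ
    apply hR₀
    rw [htn]
    have : 1 < Real.exp ξ.re := Real.one_lt_exp_iff.2 (hre ξ hξ)
    nlinarith
  obtain ⟨F, hFd, hFx, hF⟩ := h.lift (by linarith : (0:ℝ) < x) hγd hγP hxmem hy₁ (by rw [htx, hz₁])
  have hF1 : F 1 ∈ K₁ := by
    refine ⟨(hF 1 h1mem).1, t 1, ?_, (hF 1 h1mem).2.symm⟩
    rw [mem_closedBall_zero_iff, htn, Complex.one_re]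
  -- the logarithms
  have hlog : ∀ i, ∃ l : ℂ → ℂ, DifferentiableOn ℂ l (ball (x : ℂ) x) ∧
      (∀ w ∈ ball (x : ℂ) x, Complex.exp (l w) = g i (F w)) ∧ l 1 = Complex.log (g i (F 1)) := by
    intro i
    exact exists_log_disc hx1 ((hg i).comp isOpen_ball hFd fun ξ hξ => (hF ξ hξ).1)
      fun w hw => hg0 i _ (hF w hw).1
  choose l hld hle hl1 using hlog
  have hlx : ∀ i, ‖l i x‖ ≤ |C| * x ^ |K| := by
    intro i
    have h1 := hCK x hx1 (l i) (hld i) (fun w hw => by rw [hle i w hw]; exact hg1 i _ (hF w hw).1)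
      (by rw [hl1 i]; exact hMi' i _ hF1)
    refine h1.trans ?_
    have h2 : x ^ K ≤ x ^ |K| := Real.rpow_le_rpow_of_exponent_le hx1 (le_abs_self K)
    have h3 : 0 ≤ x ^ K := Real.rpow_nonneg (by linarith) _
    calc C * x ^ K ≤ |C| * x ^ K := mul_le_mul_of_nonneg_right (le_abs_self C) h3
      _ ≤ |C| * x ^ |K| := mul_le_mul_of_nonneg_left h2 (abs_nonneg C)
  have hl1' : ∀ i, ‖l i 1‖ ≤ M := fun i => by rw [hl1 i]; exact hMi' i _ hF1
  -- comparison
  obtain ⟨c, -, hc⟩ := log_sub_const (f := fun ξ => ∏ i, g i (F ξ) ^ a i)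
    (l := fun ξ => H (F ξ)) (l' := fun ξ => ∑ i, (a i : ℂ) * l i ξ)
    (convex_ball (x : ℂ) x).isPreconnected
    (hH.comp hFd.continuousOn fun ξ hξ => (hF ξ hξ).1)
    (continuousOn_finsetSum _ fun i _ => continuousOn_const.mul (hld i).continuousOn)
    (fun ξ hξ => he _ (hF ξ hξ).1)
    (fun ξ hξ => by
      rw [Complex.exp_sum]
      refine Finset.prod_congr rfl fun i _ => ?_
      rw [Complex.exp_int_mul, hle i ξ hξ])
  have hsum : ∀ (ξ : ℂ) (B : ℝ), (∀ i, ‖l i ξ‖ ≤ B) → ‖∑ i, (a i : ℂ) * l i ξ‖ ≤ A * B := by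
    intro ξ B hB
    refine (norm_sum_le _ _).trans ?_
    rw [hA, Finset.sum_mul]
    refine Finset.sum_le_sum fun i _ => ?_
    rw [norm_mul]
    exact mul_le_mul_of_nonneg_left (hB i) (norm_nonneg _)
  have hcn : ‖c‖ ≤ |MH| + A * M := by
    have h1 : c = H (F 1) - ∑ i, (a i : ℂ) * l i 1 := by
      have := hc 1 h1mem
      rw [this]; ring
    rw [h1]
    refine (norm_sub_le _ _).trans ?_
    have h2 := hsum 1 M hl1'
    have h3 := hMH _ hF1
    have h4 := le_abs_self MH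
    linarith
  have hHy : H y₁ = ∑ i, (a i : ℂ) * l i x + c := by
    have := hc x hxmem
    simp only [hFx] at this
    exact this
  have hKx : 1 ≤ x ^ |K| := Real.one_le_rpow hx1 (abs_nonneg K)
  have hfin : ‖H y₁‖ ≤ (A * |C| + (|MH| + A * M) + 1) * x ^ |K| := by
    rw [hHy]
    refine (norm_add_le _ _).trans ?_
    have h1 := hsum x _ hlx
    have h2 : |MH| + A * M ≤ (|MH| + A * M) * x ^ |K| := by
      apply le_mul_of_one_le_right _ hKx
      have := abs_nonneg MH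
      positivity
    nlinarith
  refine hfin.trans ?_
  apply mul_le_mul_of_nonneg_left
  · exact Real.rpow_le_rpow (by linarith) hxlog (abs_nonneg K)
  · have := abs_nonneg MH
    positivity

end Pool.Agent.R848
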