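import Mathlib
import Pool.Agent.R848.Growth

/-! Rigidity: a product of functions omitting `0` and `1` with a continuous logarithm is constant. -/

set_option autoImplicit false

open Set Filter Topology Metric

namespace Pool.Agent.R848

variable {m d : ℕ} {Y : Set (Fin m → ℂ)} {z : (Fin m → ℂ) → (Fin d → ℂ)} {P : (Fin d → ℂ) → ℂ}

theorem differentiableOn_prod {E : Type*} [NormedAddCommGroup E] [NormedSpace ℂ E] {S : Set E}
    {ι : Type*} (s : Finset ι) (f : ι → E → ℂ) (hf : ∀ i ∈ s, DifferentiableOn ℂ (f i) S) :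
    DifferentiableOn ℂ (fun x => ∏ i ∈ s, f i x) S := by
  classical
  induction s using Finset.induction_on with
  | empty => simp only [Finset.prod_empty]; exact differentiableOn_const 1
  | insert i s hi ih =>
    simp only [Finset.prod_insert hi]
    exact (hf i (Finset.mem_insert_self _ _)).mul (ih fun j hj => hf j (Finset.mem_insert_of_mem hj))

/-- a continuous logarithm of a product of holomorphic functions is holomorphic along holomorphic maps -/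
theorem log_comp_differentiableOn {ι : Type} [Fintype ι] {g : ι → (Fin m → ℂ) → ℂ}
    (hg : ∀ i, HolOn Y (g i)) (hg0 : ∀ i, ∀ y ∈ Y, g i y ≠ 0)
    (a : ι → ℤ) {H : (Fin m → ℂ) → ℂ} (hH : ContinuousOn H Y)
    (he : ∀ y ∈ Y, Complex.exp (H y) = ∏ i, g i y ^ a i)
    {E : Type*} [NormedAddCommGroup E] [NormedSpace ℂ E] {S : Set E} (hS : IsOpen S)
    {F : E → (Fin m → ℂ)} (hF : DifferentiableOn ℂ F S) (hFY : ∀ x ∈ S, F x ∈ Y) :
    DifferentiableOn ℂ (fun x => H (F x)) S := by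
  refine differentiableOn_log hS (hH.comp hF.continuousOn hFY) ?_ fun x hx => he _ (hFY x hx)
  apply differentiableOn_prod
  intro i _
  exact ((hg i).comp hS hF hFY).zpow (Or.inl fun x hx => hg0 i _ (hFY x hx))

/-- norm of a product over a fibre -/
theorem norm_finprod_le {s : Set (Fin m → ℂ)} (hs : s.Finite) {n : ℕ} (hn : s.ncard = n)
    (f : (Fin m → ℂ) → ℂ) {B : ℝ} (hB : ∀ y ∈ s, ‖f y‖ ≤ B) : ‖∏ᶠ y ∈ s, f y‖ ≤ B ^ n := by
  rw [finprod_mem_eq_finite_toFinset_prod _ hs, norm_prod]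
  have h1 : ∏ y ∈ hs.toFinset, ‖f y‖ ≤ ∏ y ∈ hs.toFinset, B :=
    Finset.prod_le_prod (fun _ _ => norm_nonneg _) fun y hy => hB y (hs.mem_toFinset.1 hy)
  rwa [Finset.prod_const, ← ncard_eq_toFinset_card s hs, hn] at h1

theorem Ch.values (hL : S_L) (h : Ch Y d z P) {ι : Type} [Fintype ι] (g : ι → (Fin m → ℂ) → ℂ)
    (hg : ∀ i, HolOn Y (g i)) (hg0 : ∀ i, ∀ y ∈ Y, g i y ≠ 0) (hg1 : ∀ i, ∀ y ∈ Y, g i y ≠ 1)
    (a : ι → ℤ) (H : (Fin m → ℂ) → ℂ) (hH : ContinuousOn H Y)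
    (he : ∀ y ∈ Y, Complex.exp (H y) = ∏ i, g i y ^ a i)
    {ζ : Fin d → ℂ} (hζ : P ζ ≠ 0) {y₁ : Fin m → ℂ} (hy₁ : y₁ ∈ Y) (hP₁ : P (z y₁) ≠ 0) :
    ∃ y ∈ Y, z y = ζ ∧ H y = H y₁ := by
  set v : Fin d → ℂ := z y₁ - ζ with hv
  obtain ⟨C, K, R₁, hC, hK, hR₁, hPR, hgr⟩ := h.growth hL g hg hg0 hg1 a H hH he ζ v hζ
  have hAfin := h.line ζ v hζ
  set A : Finset ℂ := hAfin.toFinset with hA
  have hmA : ∀ τ : ℂ, τ ∉ A ↔ P (ζ + τ • v) ≠ 0 := by
    intro τ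
    rw [hA, hAfin.mem_toFinset]
    rfl
  set fib : ℂ → Set (Fin m → ℂ) := fun τ => {y | y ∈ Y ∧ z y = ζ + τ • v} with hfib
  have hfibfin : ∀ τ, τ ∉ A → (fib τ).Finite := fun τ hτ => h.fibFinite ((hmA τ).1 hτ)
  -- local description
  have hloc : ∀ τ₁, τ₁ ∉ A → ∃ (n : ℕ) (s : Fin n → ℂ → (Fin m → ℂ)) (O : Set ℂ), IsOpen O ∧ τ₁ ∈ O ∧
      (∀ i, DifferentiableOn ℂ (s i) O) ∧ (∀ i, ∀ τ ∈ O, s i τ ∈ Y) ∧
      (∀ τ ∈ O, fib τ = range (fun i => s i τ) ∧ Function.Injective fun i => s i τ) := by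
    intro τ₁ hτ₁
    obtain ⟨n, s, r, hr, hs, -, hsf⟩ := h.fib ((hmA τ₁).1 hτ₁)
    have hcont : Continuous fun τ : ℂ => ζ + τ • v := by fun_prop
    have hsub : ∀ τ ∈ (fun τ : ℂ => ζ + τ • v) ⁻¹' ball (ζ + τ₁ • v) r,
        fib τ = range (fun i => s i (ζ + τ • v)) ∧ Function.Injective fun i => s i (ζ + τ • v) := by
      intro τ hτ
      exact hsf _ hτ
    refine ⟨n, fun i τ => s i (ζ + τ • v), (fun τ : ℂ => ζ + τ • v) ⁻¹' ball (ζ + τ₁ • v) r,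
      isOpen_ball.preimage hcont, mem_ball_self hr, fun i => ?_, fun i τ hτ => ?_, hsub⟩
    · refine (hs i).comp ?_ fun τ hτ => hτ
      apply Differentiable.differentiableOn
      fun_prop
    · have h1 : s i (ζ + τ • v) ∈ fib τ := by
        rw [(hsub τ hτ).1]
        exact ⟨i, rfl⟩
      exact h1.1
  -- the number of points
  obtain ⟨n, hn⟩ : ∃ n : ℕ, ∀ τ, τ ∉ A → (fib τ).ncard = n := by
    have hconn : IsPreconnected ((A : Set ℂ)ᶜ) := by
      refine (Set.Countable.isPathConnected_compl_of_one_lt_rank ?_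
        A.finite_toSet.countable).isConnected.isPreconnected
      rw [Complex.rank_real_complex]
      norm_num
    have hcont : ContinuousOn (fun τ => (fib τ).ncard) ((A : Set ℂ)ᶜ) := by
      intro τ₁ hτ₁
      obtain ⟨n, s, O, hO, hτO, -, -, hsf⟩ := hloc τ₁ hτ₁
      have h1 : ∀ τ ∈ O, (fib τ).ncard = n := by
        intro τ hτ
        rw [(hsf τ hτ).1, ← image_univ, ncard_image_of_injective _ (hsf τ hτ).2, ncard_univ,
          Nat.card_eq_fintype_card, Fintype.card_fin]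
      refine ContinuousAt.continuousWithinAt ?_
      have h2 : (fun τ => (fib τ).ncard) =ᶠ[𝓝 τ₁] fun _ => n := by
        filter_upwards [hO.mem_nhds hτO] with τ hτ
        exact h1 τ hτ
      exact continuousAt_const.congr h2.symm
    have h0 : (0 : ℂ) ∈ ((A : Set ℂ)ᶜ) := by
      rw [mem_compl_iff, Finset.mem_coe, hmA]
      simpa using hζ
    exact ⟨(fib 0).ncard, fun τ hτ => hconn.constant hcont (show τ ∈ ((A : Set ℂ)ᶜ) from hτ) h0⟩
  -- the function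
  set T : ℂ := H y₁ with hT
  set S : ℂ → ℂ := fun τ => ∏ᶠ y ∈ fib τ, (T - H y) with hS
  have hSd : DifferentiableOn ℂ S ((A : Set ℂ)ᶜ) := by
    intro τ₁ hτ₁
    obtain ⟨n', s, O, hO, hτO, hs, hsY, hsf⟩ := hloc τ₁ hτ₁
    have h1 : ∀ τ ∈ O, S τ = ∏ i, (T - H (s i τ)) := by
      intro τ hτ
      change ∏ᶠ y ∈ fib τ, (T - H y) = _
      rw [(hsf τ hτ).1, finprod_mem_range (hsf τ hτ).2, finprod_eq_prod_of_fintype]
    have h2 : DifferentiableOn ℂ (fun τ => ∏ i, (T - H (s i τ))) O := by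
      apply differentiableOn_prod
      intro i _
      exact (log_comp_differentiableOn hg hg0 a hH he hO (hs i) (hsY i)).const_sub T
    have h3 : DifferentiableAt ℂ S τ₁ := by
      refine (h2.differentiableAt (hO.mem_nhds hτO)).congr_of_eventuallyEq ?_
      filter_upwards [hO.mem_nhds hτO] with τ hτ
      exact h1 τ hτ
    exact h3.differentiableWithinAt
  have hSb : ∀ R : ℝ, ∃ M : ℝ, ∀ τ, τ ∉ A → ‖τ‖ ≤ R → ‖S τ‖ ≤ M := by
    intro R
    have hK : IsCompact {y | y ∈ Y ∧ z y ∈ (fun τ : ℂ => ζ + τ • v) '' closedBall 0 R} := by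
      apply h.isCompact
      apply (isCompact_closedBall (0 : ℂ) _).image
      fun_prop
    obtain ⟨B, hB⟩ := hK.exists_bound_of_continuousOn (hH.mono fun y hy => hy.1)
    refine ⟨(‖T‖ + B) ^ n, fun τ hτ hR => ?_⟩
    refine norm_finprod_le (hfibfin τ hτ) (hn τ hτ) _ fun y hy => ?_
    refine (norm_sub_le _ _).trans ?_
    have h1 := hB y ⟨hy.1, τ, by rwa [mem_closedBall_zero_iff], hy.2.symm⟩
    linarith
  obtain ⟨G, hG, hGS⟩ := exists_entire A S hSd hSb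
  have hGg : ∀ ε : ℝ, 0 < ε → ∃ R : ℝ, ∀ τ, R ≤ ‖τ‖ → ‖G τ‖ ≤ ε * ‖τ‖ := by
    intro ε hε
    have hpos : 0 < (‖T‖ + C) ^ n := by positivity
    have h1 := (isLittleO_log_rpow_rpow_atTop (s := 1) (K * n) one_pos).bound
      (c := ε / (‖T‖ + C) ^ n) (by positivity)
    rw [eventually_atTop] at h1
    obtain ⟨R₂, hR₂⟩ := h1
    refine ⟨max R₁ R₂, fun τ hτ => ?_⟩
    have hτ1 : R₁ ≤ ‖τ‖ := (le_max_left _ _).trans hτ
    have hτ2 : R₂ ≤ ‖τ‖ := (le_max_right _ _).trans hτ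
    have hτA : τ ∉ A := (hmA τ).2 (hPR τ hτ1)
    have hlog1 : 1 ≤ Real.log ‖τ‖ := by
      rw [Real.le_log_iff_exp_le (lt_of_lt_of_le (Real.exp_pos 1) (hR₁.trans hτ1))]
      exact hR₁.trans hτ1
    rw [hGS τ hτA]
    have h2 : ‖S τ‖ ≤ ((‖T‖ + C) * Real.log ‖τ‖ ^ K) ^ n := by
      refine norm_finprod_le (hfibfin τ hτA) (hn τ hτA) _ fun y hy => ?_
      refine (norm_sub_le _ _).trans ?_
      have h3 := hgr y hy.1 τ hy.2 hτ1
      have h4 : 1 ≤ Real.log ‖τ‖ ^ K := Real.one_le_rpow hlog1 hK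
      have h5 : ‖T‖ ≤ ‖T‖ * Real.log ‖τ‖ ^ K := le_mul_of_one_le_right (norm_nonneg _) h4
      rw [add_mul]
      linarith
    have h6 := hR₂ ‖τ‖ hτ2
    rw [Real.rpow_one, Real.norm_eq_abs, Real.norm_eq_abs, abs_of_nonneg (norm_nonneg τ),
      abs_of_nonneg (Real.rpow_nonneg (by linarith) _), Real.rpow_mul (by linarith),
      Real.rpow_natCast] at h6
    rw [mul_pow] at h2
    calc ‖S τ‖ ≤ (‖T‖ + C) ^ n * (Real.log ‖τ‖ ^ K) ^ n := h2
      _ ≤ (‖T‖ + C) ^ n * (ε / (‖T‖ + C) ^ n * ‖τ‖) := mul_le_mul_of_nonneg_left h6 hpos.le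
      _ = ε * ‖τ‖ := by field_simp
  have hGc := const_of_sublinear hG hGg
  have h0A : (0 : ℂ) ∉ A := by
    rw [hmA]
    simpa using hζ
  have h1A : (1 : ℂ) ∉ A := by
    rw [hmA, hv]
    simpa using hP₁
  have hS01 : S 0 = S 1 := by rw [← hGS 0 h0A, ← hGS 1 h1A, hGc 0 1]
  have hS1 : S 1 = 0 := by
    change ∏ᶠ y ∈ fib 1, (T - H y) = 0
    rw [finprod_mem_eq_finite_toFinset_prod _ (hfibfin 1 h1A)]
    refine Finset.prod_eq_zero (i := y₁) ?_ (by rw [hT, sub_self])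
    rw [(hfibfin 1 h1A).mem_toFinset]
    refine ⟨hy₁, ?_⟩
    rw [hv, one_smul]; abel
  rw [hS1] at hS01
  change ∏ᶠ y ∈ fib 0, (T - H y) = 0 at hS01
  rw [finprod_mem_eq_finite_toFinset_prod _ (hfibfin 0 h0A), Finset.prod_eq_zero_iff] at hS01
  obtain ⟨y, hy, hy0⟩ := hS01
  rw [(hfibfin 0 h0A).mem_toFinset] at hy
  refine ⟨y, hy.1, ?_, (sub_eq_zero.1 hy0).symm⟩
  have := hy.2
  rwa [zero_smul, add_zero] at this

/-- Rigidity. -/
theorem Ch.rigid (hL : S_L) (h : Ch Y d z P) {ι : Type} [Fintype ι] (g : ι → (Fin m → ℂ) → ℂ)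
    (hg : ∀ i, HolOn Y (g i)) (hg0 : ∀ i, ∀ y ∈ Y, g i y ≠ 0) (hg1 : ∀ i, ∀ y ∈ Y, g i y ≠ 1)
    (a : ι → ℤ) (H : (Fin m → ℂ) → ℂ) (hH : ContinuousOn H Y)
    (he : ∀ y ∈ Y, Complex.exp (H y) = ∏ i, g i y ^ a i) :
    ∀ y ∈ Y, ∀ y' ∈ Y, H y = H y' := by
  obtain ⟨y₀, hy₀, hP₀⟩ := h.ne
  have hZ : (H '' {y | y ∈ Y ∧ z y = z y₀}).Finite := (h.fibFinite hP₀).image H
  have hval : ∀ y ∈ Y, P (z y) ≠ 0 → H y ∈ H '' {y | y ∈ Y ∧ z y = z y₀} := by
    intro y hy hP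
    obtain ⟨y', hy', hz', hH'⟩ := h.values hL g hg hg0 hg1 a H hH he hP₀ hy hP
    exact ⟨y', ⟨hy', hz'⟩, hH'⟩
  have hpc : PreconnectedSpace Y := Subtype.preconnectedSpace h.conn.isPreconnected
  have hHc : Continuous fun y : Y => H y := continuousOn_iff_continuous_domRestrict.1 hH
  have hloc : ∀ y ∈ {y : Y | P (z y) ≠ 0}, ∀ᶠ x in 𝓝[{y : Y | P (z y) ≠ 0}] y,
      (fun y : Y => H y) x = (fun y : Y => H y) y := by
    intro y hy
    have h1 : ((H '' {y | y ∈ Y ∧ z y = z y₀}) \ {H y})ᶜ ∈ 𝓝 (H y) := by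
      apply (hZ.subset sdiff_subset).isClosed.isOpen_compl.mem_nhds
      rintro ⟨-, h2⟩
      exact h2 rfl
    have h2 := (hHc.continuousAt.eventually_mem h1).filter_mono
      (nhdsWithin_le_nhds (s := {y : Y | P (z y) ≠ 0}))
    filter_upwards [h2, self_mem_nhdsWithin] with x hx hxP
    by_contra hne
    exact hx ⟨hval x x.2 hxP, hne⟩
  have key := h.thin.const hHc hloc
  intro y hy y' hy'
  exact key ⟨y, hy⟩ ⟨y', hy'⟩

end Pool.Agent.R848
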