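import Mathlib
import Pool.Agent.R848.Rank
import Pool.Agent.R848.Rigid

/-! Derivatives along the unbranched part of a smooth affine variety. -/

set_option autoImplicit false

open Set Filter Topology Metric

namespace Pool.Agent.R848

open Pool.Agent.Helper540 (differentiableOn_fderiv_apply)
open Pool.Agent.Helper417.Mer

variable {m d : ℕ} {Y : Set (Fin m → ℂ)} {z : (Fin m → ℂ) → (Fin d → ℂ)} {P : (Fin d → ℂ) → ℂ}

/-- `s` is a local section of `z` at `y` -/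
def SecAt (Y : Set (Fin m → ℂ)) (z : (Fin m → ℂ) → (Fin d → ℂ)) (y : Fin m → ℂ)
    (s : (Fin d → ℂ) → (Fin m → ℂ)) : Prop :=
  s (z y) = y ∧ ContinuousAt s (z y) ∧ ∀ᶠ ζ in 𝓝 (z y), s ζ ∈ Y ∧ z (s ζ) = ζ

/-- `s` is a holomorphic section on a ball -/
structure IsSec (Y : Set (Fin m → ℂ)) (z : (Fin m → ℂ) → (Fin d → ℂ)) (P : (Fin d → ℂ) → ℂ)
    (c : Fin d → ℂ) (r : ℝ) (s : (Fin d → ℂ) → (Fin m → ℂ)) : Prop where
  pos : 0 < r
  diff : DifferentiableOn ℂ s (ball c r)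
  mem : ∀ ζ ∈ ball c r, s ζ ∈ Y
  zs : ∀ ζ ∈ ball c r, z (s ζ) = ζ
  ne : ∀ ζ ∈ ball c r, P ζ ≠ 0

theorem IsSec.secAt {c : Fin d → ℂ} {r : ℝ} {s : (Fin d → ℂ) → (Fin m → ℂ)}
    (hs : IsSec Y z P c r s) {ζ : Fin d → ℂ} (hζ : ζ ∈ ball c r) : SecAt Y z (s ζ) s := by
  have h1 := hs.zs ζ hζ
  refine ⟨by rw [h1], ?_, ?_⟩
  · rw [h1]
    exact hs.diff.continuousOn.continuousAt (isOpen_ball.mem_nhds hζ)
  · rw [h1]
    filter_upwards [isOpen_ball.mem_nhds hζ] with ξ hξ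
    exact ⟨hs.mem ξ hξ, hs.zs ξ hξ⟩

theorem Ch.secAt_unique (h : Ch Y d z P) {y : Fin m → ℂ} (hy : y ∈ Y) (hP : P (z y) ≠ 0)
    {s s' : (Fin d → ℂ) → (Fin m → ℂ)} (hs : SecAt Y z y s) (hs' : SecAt Y z y s') :
    s =ᶠ[𝓝 (z y)] s' := by
  obtain ⟨Ω, s₀, -, -, -, -, -, h2⟩ := h.sec y hy hP
  have key : ∀ s, SecAt Y z y s → s =ᶠ[𝓝 (z y)] s₀ := by
    intro s hs
    have h3 : Tendsto s (𝓝 (z y)) (𝓝[Y] y) := by
      rw [tendsto_nhdsWithin_iff]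
      refine ⟨?_, hs.2.2.mono fun ζ hζ => hζ.1⟩
      have := hs.2.1.tendsto
      rwa [hs.1] at this
    filter_upwards [h3.eventually h2, hs.2.2] with ζ hζ hζ'
    rw [← hζ, hζ'.2]
  exact (key s hs).trans (key s' hs').symm

open Classical in
/-- the derivative of `G` along `Y` in the coordinates `z` -/
noncomputable def dG (Y : Set (Fin m → ℂ)) (z : (Fin m → ℂ) → (Fin d → ℂ))
    (G : (Fin m → ℂ) → ℂ) (y : Fin m → ℂ) : (Fin d → ℂ) →L[ℂ] ℂ :=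
  if h : ∃ s, SecAt Y z y s then fderiv ℂ (fun ζ => G (h.choose ζ)) (z y) else 0

theorem Ch.dG_eq (h : Ch Y d z P) {c : Fin d → ℂ} {r : ℝ} {s : (Fin d → ℂ) → (Fin m → ℂ)}
    (hs : IsSec Y z P c r s) {ζ : Fin d → ℂ} (hζ : ζ ∈ ball c r) (G : (Fin m → ℂ) → ℂ) :
    dG Y z G (s ζ) = fderiv ℂ (fun ζ => G (s ζ)) ζ := by
  have hex : ∃ s', SecAt Y z (s ζ) s' := ⟨s, hs.secAt hζ⟩
  have h1 : s =ᶠ[𝓝 (z (s ζ))] hex.choose :=
    h.secAt_unique (hs.mem ζ hζ) (by rw [hs.zs ζ hζ]; exact hs.ne ζ hζ) (hs.secAt hζ) hex.choose_spec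
  have h2 : (fun ζ => G (hex.choose ζ)) =ᶠ[𝓝 (z (s ζ))] fun ζ => G (s ζ) := by
    filter_upwards [h1] with ξ hξ
    rw [hξ]
  unfold dG
  rw [dif_pos hex, h2.fderiv_eq, hs.zs ζ hζ]

/-- holomorphic in all sections -/
def SecHol (Y : Set (Fin m → ℂ)) (z : (Fin m → ℂ) → (Fin d → ℂ)) (P : (Fin d → ℂ) → ℂ)
    (q : (Fin m → ℂ) → ℂ) : Prop :=
  ∀ (c : Fin d → ℂ) (r : ℝ) (s : (Fin d → ℂ) → (Fin m → ℂ)), IsSec Y z P c r s →
    DifferentiableOn ℂ (fun ζ => q (s ζ)) (ball c r)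

theorem HolOn.secHol {q : (Fin m → ℂ) → ℂ} (hq : HolOn Y q) : SecHol Y z P q :=
  fun _ _ _ hs => hq.comp isOpen_ball hs.diff hs.mem

/-- existence of sections with small image -/
theorem Ch.exists_isSec (h : Ch Y d z P) (y₀ : U0 Y z P) {N : Set (U0 Y z P)} (hN : N ∈ 𝓝 y₀) :
    ∃ (r : ℝ) (s : (Fin d → ℂ) → U0 Y z P), 
    ContinuousOn s (ball (z y₀) r) ∧ s (z y₀) = y₀ ∧
    IsSec Y z P (z y₀) r (fun ζ => (s ζ : Fin m → ℂ)) ∧
    (∀ ζ ∈ ball (z y₀) r, s ζ ∈ N) ∧ (∀ᶠ y : U0 Y z P in 𝓝 y₀, s (z y) = y) ∧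
    s '' ball (z y₀) r ∈ 𝓝 y₀ := by
  obtain ⟨r, s, hr, hs, hs0, hsd, hs1, hs2⟩ := h.secU y₀ hN
  refine ⟨r, s, hs, hs0, ⟨hr, hsd, fun ζ _ => (s ζ).2.1, fun ζ hζ => (hs1 ζ hζ).1, fun ζ hζ => ?_⟩,
    fun ζ hζ => (hs1 ζ hζ).2, hs2, h.nhds_image y₀ hs2 (ball_mem_nhds _ hr)⟩
  have := (s ζ).2.2
  rwa [(hs1 ζ hζ).1] at this

theorem Ch.preU (h : Ch Y d z P) : PreconnectedSpace (U0 Y z P) := by
  have hpc : PreconnectedSpace Y := Subtype.preconnectedSpace h.conn.isPreconnected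
  have h1 := h.thin.isPreconnected
  have h2 := h1.image (Subtype.val : Y → (Fin m → ℂ)) continuous_subtype_val.continuousOn
  have h3 : (Subtype.val : Y → (Fin m → ℂ)) '' {y : Y | P (z y) ≠ 0} = {y | y ∈ Y ∧ P (z y) ≠ 0} := by
    ext y
    constructor
    · rintro ⟨y, hy, rfl⟩
      exact ⟨y.2, hy⟩
    · rintro ⟨hy, hy'⟩
      exact ⟨⟨y, hy⟩, hy', rfl⟩
  rw [h3] at h2
  exact Subtype.preconnectedSpace h2

/-- Zero sets of nonzero holomorphic functions on the unbranched part are thin. -/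
theorem Ch.thinU (h : Ch Y d z P) {q : (Fin m → ℂ) → ℂ} (hq : SecHol Y z P q)
    (hne : ∃ y ∈ Y, P (z y) ≠ 0 ∧ q y ≠ 0) : ThinC {y : U0 Y z P | q y ≠ 0} := by
  have hpre := h.preU
  have hid : ∀ y : U0 Y z P, ¬ ∀ᶠ x : U0 Y z P in 𝓝 y, q x = 0 := by
    let Z : Set (U0 Y z P) := {y | ∀ᶠ x : U0 Y z P in 𝓝 y, q x = 0}
    have hZo : IsOpen Z := by
      rw [isOpen_iff_mem_nhds]
      intro y hy
      exact eventually_eventually_nhds.2 hy
    have hZc : IsClosed Z := by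
      rw [← isOpen_compl_iff, isOpen_iff_mem_nhds]
      intro y hy
      by_contra hcon
      apply hy
      have hfreq : ∃ᶠ y' in 𝓝 y, y' ∈ Z := by
        intro h
        apply hcon
        filter_upwards [h] with y' hy'
        exact hy'
      obtain ⟨r, s, hs, hs0, hsec, -, -, himg⟩ := h.exists_isSec y univ_mem
      obtain ⟨y', hy'Z, ζ, hζ, hζy⟩ := (hfreq.and_eventually himg).exists
      have hqs := hq _ _ _ hsec
      have hev : ∀ᶠ w in 𝓝 ζ, q (s w) = 0 := by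
        have h1 : Tendsto s (𝓝 ζ) (𝓝 (s ζ)) := hs.continuousAt (isOpen_ball.mem_nhds hζ)
        rw [hζy] at h1
        exact h1.eventually hy'Z
      obtain ⟨O, hO0, hOo, hζO⟩ := _root_.eventually_nhds_iff.1 hev
      have hzero : ∀ᶠ w in 𝓝 (z y), q (s w) = 0 := by
        by_contra hne
        obtain ⟨w, ⟨hwO, hwb⟩, hw0⟩ := ThinAux.ball_nonzero hsec.pos hqs hne hOo ⟨ζ, hζO, hζ⟩
        exact hw0 (hO0 w hwO)
      obtain ⟨r', s', hs', hs0', hsec', -, hs2', himg'⟩ := h.exists_isSec y univ_mem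
      have heq : (fun ζ => (s ζ : Fin m → ℂ)) =ᶠ[𝓝 (z y)] fun ζ => (s' ζ : Fin m → ℂ) := by
        have ha := hsec.secAt (mem_ball_self hsec.pos)
        have hb := hsec'.secAt (mem_ball_self hsec'.pos)
        simp only [hs0, hs0'] at ha hb
        exact h.secAt_unique y.2.1 y.2.2 ha hb
      have hzc : Continuous fun y : U0 Y z P => z y := h.zd.continuous.comp continuous_subtype_val
      have h3 := (hzc.tendsto y).eventually (hzero.and heq)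
      change ∀ᶠ x : U0 Y z P in 𝓝 y, q x = 0
      filter_upwards [h3, hs2'] with x hx hx2
      rw [← hx2, ← hx.2]
      exact hx.1
    obtain ⟨y₁, hy₁, hP₁, hq₁⟩ := hne
    intro y hy
    have hZ : Z = univ := IsClopen.eq_univ ⟨hZc, hZo⟩ ⟨y, hy⟩
    have h1 : (⟨y₁, hy₁, hP₁⟩ : U0 Y z P) ∈ Z := by rw [hZ]; trivial
    exact hq₁ (h1 : ∀ᶠ x : U0 Y z P in 𝓝 (⟨y₁, hy₁, hP₁⟩ : U0 Y z P), q x = 0).self_of_nhds
  intro y N hN
  obtain ⟨r, s, hs, hs0, hsec, hsN, hs2, himg⟩ := h.exists_isSec y hN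
  have hqs := hq _ _ _ hsec
  have hnz : ¬ ∀ᶠ w in 𝓝 (z y), q (s w) = 0 := by
    intro hzero
    apply hid y
    have hzc : Continuous fun y : U0 Y z P => z y := h.zd.continuous.comp continuous_subtype_val
    filter_upwards [(hzc.tendsto y).eventually hzero, hs2] with x hx hx2
    rw [hx2] at hx
    exact hx
  refine ⟨s '' ball (z y) r, himg, ?_, ?_⟩
  · rintro _ ⟨ζ, hζ, rfl⟩
    exact hsN ζ hζ
  · have himg : s '' ball (z y) r ∩ {y : U0 Y z P | q y ≠ 0} =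
        s '' {ζ | ζ ∈ ball (z y) r ∧ q (s ζ) ≠ 0} := by
      ext x
      constructor
      · rintro ⟨⟨ζ, hζ, rfl⟩, hx⟩
        exact ⟨ζ, ⟨hζ, hx⟩, rfl⟩
      · rintro ⟨ζ, ⟨hζ, hζ'⟩, rfl⟩
        exact ⟨⟨ζ, hζ, rfl⟩, hζ'⟩
    rw [himg]
    refine IsConnected.image ⟨?_, ThinAux.ball_diff hqs⟩ _ (hs.mono fun ζ hζ => hζ.1)
    obtain ⟨w, ⟨-, hwb⟩, hw0⟩ := ThinAux.ball_nonzero hsec.pos hqs hnz isOpen_univ
      ⟨z y, trivial, mem_ball_self hsec.pos⟩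
    exact ⟨w, hwb, hw0⟩

/-- transfer of logarithms from the unbranched part -/
theorem Ch.hasLog_of_U (h : Ch Y d z P) {f : Y → ℂ} (hf : Continuous f) (hf0 : ∀ y, f y ≠ 0)
    (hl : HasLog (fun y : U0 Y z P => f ⟨y, y.2.1⟩) univ) : HasLog f univ := by
  refine h.thin.hasLog hf hf0 ?_
  obtain ⟨l, hl, hle⟩ := hl
  classical
  refine ⟨fun y => if hy : P (z y) ≠ 0 then l ⟨y, y.2, hy⟩ else 0, ?_, ?_⟩
  · rw [continuousOn_iff_continuous_domRestrict]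
    have h2 : Continuous fun x : {y : Y | P (z y) ≠ 0} => l ⟨x.1, x.1.2, x.2⟩ := by
      have h3 : Continuous l := continuousOn_univ.1 hl
      refine h3.comp ?_
      exact (continuous_subtype_val.comp continuous_subtype_val).subtype_mk _
    convert h2 using 1
    funext x
    have h4 : P (z (x : Y)) ≠ 0 := x.2
    change dite (P (z (x : Y)) ≠ 0) _ _ = _
    rw [dif_pos h4]
  · intro y hy
    have h2 := hle ⟨y, y.2, hy⟩ (mem_univ _)
    have h4 : P (z y) ≠ 0 := hy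
    change Complex.exp (dite (P (z y) ≠ 0) _ _) = _
    rw [dif_pos h4, h2]

/-- holomorphic logarithms in a section -/
theorem exists_log_sec {c : Fin d → ℂ} {r : ℝ} {s : (Fin d → ℂ) → (Fin m → ℂ)}
    (hs : IsSec Y z P c r s) {u : (Fin m → ℂ) → ℂ} (hu : SecHol Y z P u) (hu0 : ∀ y ∈ Y, u y ≠ 0) :
    ∃ l : (Fin d → ℂ) → ℂ, DifferentiableOn ℂ l (ball c r) ∧
      ∀ ζ ∈ ball c r, Complex.exp (l ζ) = u (s ζ) := by
  obtain ⟨l, hl, hle⟩ := Complex.exists_continuousOn_eqOn_exp_comp (ball_simply c hs.pos) isOpen_ball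
    (hu _ _ _ hs).continuousOn (by
      rintro ⟨ζ, hζ, hζ0⟩
      exact hu0 _ (hs.mem ζ hζ) hζ0)
  exact ⟨l, differentiableOn_log isOpen_ball hl (hu _ _ _ hs) hle, hle⟩

theorem eventually_of_U {y : Y} (hy : P (z y) ≠ 0) {p : Y → Prop}
    (hp : ∀ᶠ x : U0 Y z P in 𝓝 ⟨y, y.2, hy⟩, p ⟨x, x.2.1⟩) :
    ∀ᶠ x in 𝓝[{y : Y | P (z y) ≠ 0}] y, p x := by
  obtain ⟨O, hO, hOp⟩ := mem_nhds_induced _ _ _ |>.1 hp
  have h1 : (Subtype.val : Y → (Fin m → ℂ)) ⁻¹' O ∈ 𝓝 y :=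
    continuous_subtype_val.continuousAt.preimage_mem_nhds hO
  filter_upwards [self_mem_nhdsWithin, mem_nhdsWithin_of_mem_nhds h1] with x hx hxO
  exact hOp (show (⟨x, x.2, hx⟩ : U0 Y z P) ∈ Subtype.val ⁻¹' O from hxO)

/-- a nonconstant function has a nonzero derivative -/
theorem Ch.exists_dG_ne (h : Ch Y d z P) {g : (Fin m → ℂ) → ℂ} (hg : SecHol Y z P g)
    (hgc : ContinuousOn g Y) (hne : ∃ y ∈ Y, ∃ y' ∈ Y, g y ≠ g y') :
    ∃ v : Fin d → ℂ, ∃ y ∈ Y, P (z y) ≠ 0 ∧ dG Y z g y v ≠ 0 := by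
  by_contra hcon
  push Not at hcon
  obtain ⟨y₁, hy₁, y₂, hy₂, h12⟩ := hne
  apply h12
  have hpc : PreconnectedSpace Y := Subtype.preconnectedSpace h.conn.isPreconnected
  have hgc' : Continuous fun y : Y => g y := continuousOn_iff_continuous_domRestrict.1 hgc
  have hloc : ∀ y ∈ {y : Y | P (z y) ≠ 0}, ∀ᶠ x in 𝓝[{y : Y | P (z y) ≠ 0}] y,
      (fun y : Y => g y) x = (fun y : Y => g y) y := by
    intro y hy
    obtain ⟨r, s, hs, hs0, hsec, -, hs2, -⟩ := h.exists_isSec ⟨y, y.2, hy⟩ univ_mem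
    have hconst : ∀ ζ ∈ ball (z y) r, g (s ζ) = g y := by
      intro ζ hζ
      have h1 := isOpen_ball.is_const_of_fderiv_eq_zero (𝕜 := ℂ) (s := ball (z y) r)
        (f := fun ζ => g (s ζ)) (convex_ball _ _).isPreconnected (hg _ _ _ hsec) (fun ξ hξ => by
          rw [← h.dG_eq hsec hξ g]
          ext v
          exact hcon v _ (hsec.mem ξ hξ) (by
            have := hsec.ne ξ hξ
            rwa [hsec.zs ξ hξ])) hζ (mem_ball_self hsec.pos)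
      have h2 : g (s ζ) = g (s (z y)) := h1
      rw [h2, hs0]
    have hzc : Continuous fun y : U0 Y z P => z y := h.zd.continuous.comp continuous_subtype_val
    have h3 : ∀ᶠ x : U0 Y z P in 𝓝 ⟨y, y.2, hy⟩, z x ∈ ball (z y) r :=
      hzc.continuousAt.eventually_mem (ball_mem_nhds _ hsec.pos)
    apply eventually_of_U hy
    filter_upwards [hs2, h3] with x hx hx3
    change g x = g y
    rw [← hx]
    exact hconst _ hx3
  exact h.thin.const hgc' hloc ⟨y₁, hy₁⟩ ⟨y₂, hy₂⟩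

end Pool.Agent.R848
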