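import Mathlib
import Pool.Agent.R848.Der

/-! A function whose derivative is a linear combination of logarithmic derivatives of independent
functions has zero coefficients. -/

set_option autoImplicit false

open Set Filter Topology Metric

namespace Pool.Agent.R848

variable {m d : ℕ} {Y : Set (Fin m → ℂ)} {z : (Fin m → ℂ) → (Fin d → ℂ)} {P : (Fin d → ℂ) → ℂ}

theorem exists_theta {J : Type} [Fintype J] {α : J → ℂ} {j₀ : J} (hj₀ : α j₀ ≠ 0) :
    ∃ (θ : ℂ →ₗ[ℚ] ℚ) (M : J → ℤ), (∀ j, θ (α j) = M j) ∧ M j₀ ≠ 0 := by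
  obtain ⟨θ₀, hθ₀⟩ : ∃ φ : Module.Dual ℚ ℂ, φ (α j₀) ≠ 0 := by
    by_contra hcon
    push Not at hcon
    exact hj₀ ((Module.forall_dual_apply_eq_zero_iff ℚ (α j₀)).1 hcon)
  set N : ℕ := ∏ j, (θ₀ (α j)).den with hN
  have hN0 : (N : ℚ) ≠ 0 := by
    rw [hN]
    push_cast
    exact Finset.prod_ne_zero_iff.2 fun j _ => by exact_mod_cast (θ₀ (α j)).den_nz
  have hdvd : ∀ j, (θ₀ (α j)).den ∣ N := fun j => Finset.dvd_prod_of_mem _ (Finset.mem_univ j)
  choose k hk using hdvd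
  have hM : ∀ j, (N : ℚ) * θ₀ (α j) = ((k j * (θ₀ (α j)).num : ℤ) : ℚ) := by
    intro j
    rw [hk j]
    push_cast
    have h1 := Rat.mul_den_eq_num (θ₀ (α j))
    calc ((θ₀ (α j)).den : ℚ) * (k j) * θ₀ (α j) = (k j) * (θ₀ (α j) * (θ₀ (α j)).den) := by ring
      _ = _ := by rw [h1]
  refine ⟨(N : ℚ) • θ₀, fun j => k j * (θ₀ (α j)).num, fun j => ?_, fun h0 => ?_⟩
  · rw [LinearMap.smul_apply, smul_eq_mul]
    exact hM j
  · have h1 := hM j₀
    have h0' : (k j₀ : ℤ) * (θ₀ (α j₀)).num = 0 := h0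
    rw [h0', Int.cast_zero] at h1
    exact (mul_ne_zero hN0 hθ₀) h1

/-- independence of the choice of logarithms -/
theorem theta_indep {J : Type} [Fintype J] {α : J → ℂ} {θ : ℂ →ₗ[ℚ] ℚ} {M : J → ℤ}
    (hM : ∀ j, θ (α j) = M j) (F : ℂ) {l l' : J → ℂ}
    (hl : ∀ j, Complex.exp (l j) = Complex.exp (l' j)) :
    ∑ j, (M j : ℂ) * l j + 2 * Real.pi * Complex.I *
      (θ ((F - ∑ j, α j * l j) / (2 * Real.pi * Complex.I)) : ℂ) =
    ∑ j, (M j : ℂ) * l' j + 2 * Real.pi * Complex.I *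
      (θ ((F - ∑ j, α j * l' j) / (2 * Real.pi * Complex.I)) : ℂ) := by
  have h1 : ∀ j, ∃ n : ℤ, l j = l' j + n * (2 * Real.pi * Complex.I) := fun j =>
    Complex.exp_eq_exp_iff_exists_int.1 (hl j)
  choose n hn using h1
  have hpi : (2 * Real.pi * Complex.I : ℂ) ≠ 0 := Complex.two_pi_I_ne_zero
  have h2 : (F - ∑ j, α j * l j) / (2 * Real.pi * Complex.I) =
      (F - ∑ j, α j * l' j) / (2 * Real.pi * Complex.I) - ∑ j, n j • α j := by
    have h3 : ∑ j, α j * l j = ∑ j, α j * l' j + (∑ j, n j • α j) * (2 * Real.pi * Complex.I) := by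
      rw [Finset.sum_mul, ← Finset.sum_add_distrib]
      refine Finset.sum_congr rfl fun j _ => ?_
      rw [hn j, zsmul_eq_mul]
      ring
    rw [h3]
    field_simp
    ring
  rw [h2, map_sub, map_sum]
  have h4 : ∑ j, θ (n j • α j) = ((∑ j, n j * M j : ℤ) : ℚ) := by
    push_cast
    refine Finset.sum_congr rfl fun j _ => ?_
    rw [map_zsmul, hM j, zsmul_eq_mul]
  have h5 : ∑ j, (M j : ℂ) * l j = ∑ j, (M j : ℂ) * l' j +
      ((∑ j, n j * M j : ℤ) : ℂ) * (2 * Real.pi * Complex.I) := by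
    push_cast
    rw [Finset.sum_mul, ← Finset.sum_add_distrib]
    refine Finset.sum_congr rfl fun j _ => ?_
    rw [hn j]
    ring
  rw [h4, h5, Rat.cast_sub, Rat.cast_intCast]
  ring

theorem exp_sum_log {J : Type} [Fintype J] (M : J → ℤ) {l u : J → ℂ}
    (hl : ∀ j, Complex.exp (l j) = u j) :
    Complex.exp (∑ j, (M j : ℂ) * l j) = ∏ j, u j ^ M j := by
  rw [Complex.exp_sum]
  refine Finset.prod_congr rfl fun j _ => ?_
  rw [Complex.exp_int_mul, hl j]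

theorem Ch.theta (h : Ch Y d z P) {J : Type} [Fintype J] (u : J → (Fin m → ℂ) → ℂ)
    (hu : ∀ j, SecHol Y z P (u j)) (huc : ∀ j, ContinuousOn (u j) Y)
    (hu0 : ∀ j, ∀ y ∈ Y, u j y ≠ 0)
    (hind : ∀ M : J → ℤ, HasLog (fun y : Y => ∏ j, u j y ^ M j) univ → M = 0)
    {q F : (Fin m → ℂ) → ℂ} (hq : SecHol Y z P q) (hqne : ∃ y ∈ Y, P (z y) ≠ 0 ∧ q y ≠ 0)
    (α : J → ℂ)
    (hF : ∀ c r s, IsSec Y z P c r s → ∀ l : J → (Fin d → ℂ) → ℂ,
      (∀ j, DifferentiableOn ℂ (l j) (ball c r)) →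
      (∀ j, ∀ ζ ∈ ball c r, Complex.exp (l j ζ) = u j (s ζ)) →
      ∃ κ : ℂ, ∀ ζ ∈ ball c r, q (s ζ) ≠ 0 → F (s ζ) = ∑ j, α j * l j ζ + κ) : α = 0 := by
  by_contra hα
  obtain ⟨j₀, hj₀⟩ : ∃ j, α j ≠ 0 := by
    by_contra hcon
    push Not at hcon
    exact hα (funext hcon)
  obtain ⟨θ, M, hM, hM0⟩ := exists_theta hj₀
  set H : (Fin m → ℂ) → ℂ := fun y => ∑ j, (M j : ℂ) * Complex.log (u j y) +
    2 * Real.pi * Complex.I *
      (θ ((F y - ∑ j, α j * Complex.log (u j y)) / (2 * Real.pi * Complex.I)) : ℂ) with hH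
  -- local form of `H`
  have hHloc : ∀ (c : Fin d → ℂ) (r : ℝ) (s : (Fin d → ℂ) → (Fin m → ℂ)), IsSec Y z P c r s →
      ∃ (L : (Fin d → ℂ) → ℂ) (κ : ℂ), ContinuousOn L (ball c r) ∧
        (∀ ζ ∈ ball c r, Complex.exp (L ζ) = ∏ j, u j (s ζ) ^ M j) ∧
        ∀ ζ ∈ ball c r, q (s ζ) ≠ 0 → H (s ζ) = L ζ + κ := by
    intro c r s hs
    have hlog : ∀ j, ∃ l : (Fin d → ℂ) → ℂ, DifferentiableOn ℂ l (ball c r) ∧
      ∀ ζ ∈ ball c r, Complex.exp (l ζ) = u j (s ζ) := fun j => exists_log_sec hs (hu j) (hu0 j)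
    choose l hl hle using hlog
    obtain ⟨κ, hκ⟩ := hF c r s hs l hl hle
    refine ⟨fun ζ => ∑ j, (M j : ℂ) * l j ζ,
      2 * Real.pi * Complex.I * (θ (κ / (2 * Real.pi * Complex.I)) : ℂ), ?_, ?_, ?_⟩
    · exact continuousOn_finsetSum _ fun j _ => continuousOn_const.mul (hl j).continuousOn
    · intro ζ hζ
      exact exp_sum_log M fun j => hle j ζ hζ
    · intro ζ hζ hqζ
      have h1 : H (s ζ) = ∑ j, (M j : ℂ) * l j ζ + 2 * Real.pi * Complex.I *
          (θ ((F (s ζ) - ∑ j, α j * l j ζ) / (2 * Real.pi * Complex.I)) : ℂ) := by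
        refine theta_indep hM (F (s ζ)) fun j => ?_
        rw [Complex.exp_log (hu0 j _ (hs.mem ζ hζ)), hle j ζ hζ]
      rw [h1, hκ ζ hζ hqζ, add_sub_cancel_left]
  -- the function on the unbranched part
  set f : U0 Y z P → ℂ := fun y => ∏ j, u j y ^ M j with hf
  have hf0 : ∀ y, f y ≠ 0 := fun y =>
    Finset.prod_ne_zero_iff.2 fun j _ => zpow_ne_zero _ (hu0 j y y.2.1)
  have hucU : ∀ j, Continuous fun y : U0 Y z P => u j y := by
    intro j
    exact (huc j).comp_continuous continuous_subtype_val fun y => y.2.1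
  have hfc : Continuous f := by
    apply continuous_finsetProd
    intro j _
    exact (hucU j).zpow₀ (M j) fun y => Or.inl (hu0 j y y.2.1)
  have hthin := h.thinU hq hqne
  have hpre := h.preU
  have hVp := hthin.isPreconnected
  set V : Set (U0 Y z P) := {y : U0 Y z P | q y ≠ 0} with hV
  have hzc : Continuous fun y : U0 Y z P => z y := h.zd.continuous.comp continuous_subtype_val
  -- near a point
  have hnear : ∀ y₀ : U0 Y z P, ∃ (L : U0 Y z P → ℂ) (κ : ℂ), ContinuousAt L y₀ ∧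
      (∀ᶠ y : U0 Y z P in 𝓝 y₀, Complex.exp (L y) = f y ∧ (q y ≠ 0 → H y = L y + κ)) := by
    intro y₀
    obtain ⟨r, s, hs, hs0, hsec, -, hs2, -⟩ := h.exists_isSec y₀ univ_mem
    obtain ⟨L, κ, hL, hLe, hLH⟩ := hHloc _ _ _ hsec
    refine ⟨fun y => L (z y), κ, ?_, ?_⟩
    · exact ContinuousAt.comp (g := L) (f := fun y : U0 Y z P => z y)
        (hL.continuousAt (ball_mem_nhds _ hsec.pos)) hzc.continuousAt
    · have h3 : ∀ᶠ x : U0 Y z P in 𝓝 y₀, z x ∈ ball (z y₀) r :=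
        hzc.continuousAt.eventually_mem (ball_mem_nhds _ hsec.pos)
      filter_upwards [hs2, h3] with y hy hy3
      have h4 := hLe _ hy3
      have h5 := hLH _ hy3
      rw [hy] at h4 h5
      exact ⟨h4, h5⟩
  set ρ : U0 Y z P → ℂ := fun y => Complex.exp (H y) * (f y)⁻¹ with hρ
  have hρloc : ∀ y₀ : U0 Y z P, ∃ κ : ℂ, ∀ᶠ y : U0 Y z P in 𝓝 y₀, q y ≠ 0 → ρ y = κ := by
    intro y₀
    obtain ⟨L, κ, -, h2⟩ := hnear y₀
    refine ⟨Complex.exp κ, ?_⟩
    filter_upwards [h2] with y hy hqy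
    rw [hρ]
    simp only
    rw [hy.2 hqy, Complex.exp_add, hy.1]
    field_simp [hf0 y]
  have hρc : ∀ a ∈ V, ∀ b ∈ V, ρ a = ρ b := by
    intro a ha b hb
    refine hVp.induction₂' (fun a b => ρ a = ρ b) ?_ (fun a b c _ _ _ => Eq.trans) ha hb
    intro a ha
    obtain ⟨κ, hκ⟩ := hρloc a
    have h1 : ρ a = κ := hκ.self_of_nhds ha
    filter_upwards [mem_nhdsWithin_of_mem_nhds hκ, self_mem_nhdsWithin] with b hb hbV
    have h2 : ρ b = κ := hb hbV
    exact ⟨h1.trans h2.symm, h2.trans h1.symm⟩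
  obtain ⟨y₁, hy₁, hP₁, hq₁⟩ := hqne
  set a₁ : U0 Y z P := ⟨y₁, hy₁, hP₁⟩ with ha₁
  have ha₁V : a₁ ∈ V := hq₁
  have hρ1 : ρ a₁ ≠ 0 := mul_ne_zero (Complex.exp_ne_zero _) (inv_ne_zero (hf0 _))
  have hlogV : HasLog f V := by
    refine ⟨fun y => H y - Complex.log (ρ a₁), ?_, ?_⟩
    · intro y₀ hy₀
      obtain ⟨L, κ, hL, h2⟩ := hnear y₀
      have h3 : ContinuousWithinAt (fun y => L y + κ - Complex.log (ρ a₁)) V y₀ := by
        have : ContinuousAt (fun y => L y + κ - Complex.log (ρ a₁)) y₀ := by fun_prop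
        exact this.continuousWithinAt
      refine h3.congr_of_eventuallyEq ?_ ?_
      · filter_upwards [mem_nhdsWithin_of_mem_nhds h2, self_mem_nhdsWithin] with y hy hyV
        rw [hy.2 hyV]
      · rw [h2.self_of_nhds.2 hy₀]
    · intro y hy
      rw [Complex.exp_sub, Complex.exp_log hρ1, ← hρc y hy a₁ ha₁V, hρ]
      simp only
      field_simp [hf0 y, Complex.exp_ne_zero (H y)]
  have hlogU : HasLog f univ := hthin.hasLog hfc hf0 hlogV
  have hlogY : HasLog (fun y : Y => ∏ j, u j y ^ M j) univ := by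
    refine h.hasLog_of_U ?_ ?_ hlogU
    · apply continuous_finsetProd
      intro j _
      exact (continuousOn_iff_continuous_domRestrict.1 (huc j)).zpow₀ (M j)
        fun y => Or.inl (hu0 j y y.2)
    · intro y
      exact Finset.prod_ne_zero_iff.2 fun j _ => zpow_ne_zero _ (hu0 j y y.2)
  have := hind M hlogY
  exact hM0 (congrFun this j₀)

end Pool.Agent.R848
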