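import Mathlib
import Pool.Agent.R848.Theta
import Pool.Agent.R848.Lin

/-! Solutions of the unit equation on `Y` and their deformations. -/

set_option autoImplicit false

open Set Filter Topology Metric

namespace Pool.Agent.R848

open Pool.Agent.Helper540 (differentiableOn_fderiv_apply)
open Pool.Agent.Helper417.Mer

variable {m d : ℕ} {Y : Set (Fin m → ℂ)} {z : (Fin m → ℂ) → (Fin d → ℂ)} {P : (Fin d → ℂ) → ℂ}

/-- logarithmic derivative along `Y` -/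
noncomputable def om (Y : Set (Fin m → ℂ)) (z : (Fin m → ℂ) → (Fin d → ℂ)) (u : (Fin m → ℂ) → ℂ)
    (y : Fin m → ℂ) (v : Fin d → ℂ) : ℂ := (u y)⁻¹ * dG Y z u y v

/-- its derivative in the same direction -/
noncomputable def om' (Y : Set (Fin m → ℂ)) (z : (Fin m → ℂ) → (Fin d → ℂ)) (u : (Fin m → ℂ) → ℂ)
    (y : Fin m → ℂ) (v : Fin d → ℂ) : ℂ := dG Y z (fun y => om Y z u y v) y v

theorem Ch.om_sec (h : Ch Y d z P) {c : Fin d → ℂ} {r : ℝ} {s : (Fin d → ℂ) → (Fin m → ℂ)}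
    (hs : IsSec Y z P c r s) {u : (Fin m → ℂ) → ℂ} {l : (Fin d → ℂ) → ℂ}
    (hl : DifferentiableOn ℂ l (ball c r)) (hle : ∀ ζ ∈ ball c r, Complex.exp (l ζ) = u (s ζ))
    {ζ : Fin d → ℂ} (hζ : ζ ∈ ball c r) (v : Fin d → ℂ) : om Y z u (s ζ) v = fderiv ℂ l ζ v := by
  have h1 : HasFDerivAt l (fderiv ℂ l ζ) ζ :=
    (hl.differentiableAt (isOpen_ball.mem_nhds hζ)).hasFDerivAt
  have h2 := h1.cexp
  have h3 : (fun ξ => u (s ξ)) =ᶠ[𝓝 ζ] fun ξ => Complex.exp (l ξ) := by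
    filter_upwards [isOpen_ball.mem_nhds hζ] with ξ hξ
    exact (hle ξ hξ).symm
  unfold om
  rw [h.dG_eq hs hζ u, h3.fderiv_eq, h2.fderiv, ← hle ζ hζ]
  simp only [smul_apply, smul_eq_mul]
  rw [← mul_assoc, inv_mul_cancel₀ (Complex.exp_ne_zero _), one_mul]

theorem Ch.om'_sec (h : Ch Y d z P) {c : Fin d → ℂ} {r : ℝ} {s : (Fin d → ℂ) → (Fin m → ℂ)}
    (hs : IsSec Y z P c r s) {u : (Fin m → ℂ) → ℂ} {l : (Fin d → ℂ) → ℂ}
    (hl : DifferentiableOn ℂ l (ball c r)) (hle : ∀ ζ ∈ ball c r, Complex.exp (l ζ) = u (s ζ))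
    {ζ : Fin d → ℂ} (hζ : ζ ∈ ball c r) (v : Fin d → ℂ) :
    om' Y z u (s ζ) v = fderiv ℂ (fun ξ => fderiv ℂ l ξ v) ζ v := by
  have h3 : (fun ξ => om Y z u (s ξ) v) =ᶠ[𝓝 ζ] fun ξ => fderiv ℂ l ξ v := by
    filter_upwards [isOpen_ball.mem_nhds hζ] with ξ hξ
    exact h.om_sec hs hl hle hξ v
  unfold om'
  rw [h.dG_eq hs hζ (fun y => om Y z u y v), h3.fderiv_eq]

variable {J : Type} [Fintype J]

/-- linear combinations of logarithmic derivatives -/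
noncomputable def lf (Y : Set (Fin m → ℂ)) (z : (Fin m → ℂ) → (Fin d → ℂ))
    (u : J → (Fin m → ℂ) → ℂ) (a : J → ℂ) (y : Fin m → ℂ) (v : Fin d → ℂ) : ℂ :=
  ∑ j, a j * om Y z (u j) y v

/-- their derivatives in the same direction -/
noncomputable def lf' (Y : Set (Fin m → ℂ)) (z : (Fin m → ℂ) → (Fin d → ℂ))
    (u : J → (Fin m → ℂ) → ℂ) (a : J → ℂ) (y : Fin m → ℂ) (v : Fin d → ℂ) : ℂ :=
  ∑ j, a j * om' Y z (u j) y v

theorem Ch.lf_sec (h : Ch Y d z P) {c : Fin d → ℂ} {r : ℝ} {s : (Fin d → ℂ) → (Fin m → ℂ)}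
    (hs : IsSec Y z P c r s) {u : J → (Fin m → ℂ) → ℂ} {l : J → (Fin d → ℂ) → ℂ}
    (hl : ∀ j, DifferentiableOn ℂ (l j) (ball c r))
    (hle : ∀ j, ∀ ζ ∈ ball c r, Complex.exp (l j ζ) = u j (s ζ)) (a : J → ℂ)
    {ζ : Fin d → ℂ} (hζ : ζ ∈ ball c r) (v : Fin d → ℂ) : lf Y z u a (s ζ) v = lc l a ζ v := by
  unfold lf lc
  exact Finset.sum_congr rfl fun j _ => by rw [h.om_sec hs (hl j) (hle j) hζ v]

theorem Ch.lf'_sec (h : Ch Y d z P) {c : Fin d → ℂ} {r : ℝ} {s : (Fin d → ℂ) → (Fin m → ℂ)}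
    (hs : IsSec Y z P c r s) {u : J → (Fin m → ℂ) → ℂ} {l : J → (Fin d → ℂ) → ℂ}
    (hl : ∀ j, DifferentiableOn ℂ (l j) (ball c r))
    (hle : ∀ j, ∀ ζ ∈ ball c r, Complex.exp (l j ζ) = u j (s ζ)) (a : J → ℂ)
    {ζ : Fin d → ℂ} (hζ : ζ ∈ ball c r) (v : Fin d → ℂ) : lf' Y z u a (s ζ) v = lc' l a ζ v := by
  unfold lf' lc'
  exact Finset.sum_congr rfl fun j _ => by rw [h.om'_sec hs (hl j) (hle j) hζ v]

/-- the family of functions and its independence -/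
structure Fam (Y : Set (Fin m → ℂ)) (z : (Fin m → ℂ) → (Fin d → ℂ)) (P : (Fin d → ℂ) → ℂ)
    (u : J → (Fin m → ℂ) → ℂ) : Prop where
  hol : ∀ j, SecHol Y z P (u j)
  cont : ∀ j, ContinuousOn (u j) Y
  ne : ∀ j, ∀ y ∈ Y, u j y ≠ 0
  ind : ∀ M : J → ℤ, HasLog (fun y : Y => ∏ j, u j y ^ M j) univ → M = 0

/-- a solution of the unit equation in logarithmic coordinates -/
structure Sol (Y : Set (Fin m → ℂ)) (z : (Fin m → ℂ) → (Fin d → ℂ)) (P : (Fin d → ℂ) → ℂ)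
    (u : J → (Fin m → ℂ) → ℂ) (g : (Fin m → ℂ) → ℂ) (a b : J → ℂ) : Prop where
  hol : SecHol Y z P g
  cont : ContinuousOn g Y
  nc : ∃ y ∈ Y, ∃ y' ∈ Y, g y ≠ g y'
  g0 : ∀ y ∈ Y, g y ≠ 0
  g1 : ∀ y ∈ Y, g y ≠ 1
  ea : ∀ y ∈ Y, P (z y) ≠ 0 → ∀ v, dG Y z g y v = g y * lf Y z u a y v
  eb : ∀ y ∈ Y, P (z y) ≠ 0 → ∀ v, dG Y z g y v = -(1 - g y) * lf Y z u b y v

theorem Sol.lsol (h : Ch Y d z P) {u : J → (Fin m → ℂ) → ℂ} {g : (Fin m → ℂ) → ℂ} {a b : J → ℂ}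
    (hg : Sol Y z P u g a b) {c : Fin d → ℂ} {r : ℝ} {s : (Fin d → ℂ) → (Fin m → ℂ)}
    (hs : IsSec Y z P c r s) {l : J → (Fin d → ℂ) → ℂ}
    (hl : ∀ j, DifferentiableOn ℂ (l j) (ball c r))
    (hle : ∀ j, ∀ ζ ∈ ball c r, Complex.exp (l j ζ) = u j (s ζ)) :
    LSol (ball c r) l (fun ζ => g (s ζ)) a b := by
  have hP : ∀ ζ ∈ ball c r, P (z (s ζ)) ≠ 0 := by
    intro ζ hζ
    rw [hs.zs ζ hζ]
    exact hs.ne ζ hζ
  refine ⟨isOpen_ball, hl, hg.hol _ _ _ hs, fun ζ hζ => hg.g0 _ (hs.mem ζ hζ),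
    fun ζ hζ => hg.g1 _ (hs.mem ζ hζ), fun ζ hζ v => ?_, fun ζ hζ v => ?_⟩
  · rw [← h.dG_eq hs hζ g, hg.ea _ (hs.mem ζ hζ) (hP ζ hζ) v, h.lf_sec hs hl hle a hζ v]
  · rw [← h.dG_eq hs hζ g, hg.eb _ (hs.mem ζ hζ) (hP ζ hζ) v, h.lf_sec hs hl hle b hζ v]

theorem Ch.exists_chart (h : Ch Y d z P) {u : J → (Fin m → ℂ) → ℂ} (hu : Fam Y z P u)
    {y : Fin m → ℂ} (hy : y ∈ Y) (hP : P (z y) ≠ 0) :
    ∃ (r : ℝ) (s : (Fin d → ℂ) → (Fin m → ℂ)) (l : J → (Fin d → ℂ) → ℂ), IsSec Y z P (z y) r s ∧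
      s (z y) = y ∧ (∀ j, DifferentiableOn ℂ (l j) (ball (z y) r)) ∧
      (∀ j, ∀ ζ ∈ ball (z y) r, Complex.exp (l j ζ) = u j (s ζ)) := by
  obtain ⟨r, s, -, hs0, hsec, -, -, -⟩ := h.exists_isSec ⟨y, hy, hP⟩ univ_mem
  have hlog : ∀ j, ∃ l : (Fin d → ℂ) → ℂ, DifferentiableOn ℂ l (ball (z y) r) ∧
      ∀ ζ ∈ ball (z y) r, Complex.exp (l ζ) = u j (s ζ) :=
    fun j => exists_log_sec hsec (hu.hol j) (hu.ne j)
  choose l hl hle using hlog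
  have hs0' : s (z y) = ⟨y, hy, hP⟩ := hs0
  exact ⟨r, fun ζ => s ζ, l, hsec, by simp only [hs0'], hl, hle⟩

theorem Sol.E1 (h : Ch Y d z P) {u : J → (Fin m → ℂ) → ℂ} (hu : Fam Y z P u)
    {g : (Fin m → ℂ) → ℂ} {a b : J → ℂ} (hg : Sol Y z P u g a b) {y : Fin m → ℂ} (hy : y ∈ Y)
    (hP : P (z y) ≠ 0) (v : Fin d → ℂ) :
    lf' Y z u a y v * lf Y z u b y v - lf Y z u a y v * lf' Y z u b y v -
      lf Y z u a y v * lf Y z u b y v * (lf Y z u b y v - lf Y z u a y v) = 0 := by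
  obtain ⟨r, s, l, hs, hs0, hl, hle⟩ := h.exists_chart hu hy hP
  have hm := mem_ball_self hs.pos (x := z y)
  have h1 := (hg.lsol h hs hl hle).E1 hm v
  rw [← h.lf_sec hs hl hle a hm v, ← h.lf_sec hs hl hle b hm v, ← h.lf'_sec hs hl hle a hm v,
    ← h.lf'_sec hs hl hle b hm v, hs0] at h1
  exact h1

theorem Sol.E2 (h : Ch Y d z P) {u : J → (Fin m → ℂ) → ℂ} (hu : Fam Y z P u)
    {g : (Fin m → ℂ) → ℂ} {a b : J → ℂ} (hg : Sol Y z P u g a b) {y : Fin m → ℂ} (hy : y ∈ Y)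
    (hP : P (z y) ≠ 0) (v w : Fin d → ℂ) :
    lf Y z u a y v * lf Y z u b y w - lf Y z u a y w * lf Y z u b y v = 0 := by
  obtain ⟨r, s, l, hs, hs0, hl, hle⟩ := h.exists_chart hu hy hP
  have hm := mem_ball_self hs.pos (x := z y)
  have h1 := (hg.lsol h hs hl hle).E2 hm v w
  rw [← h.lf_sec hs hl hle a hm v, ← h.lf_sec hs hl hle b hm v, ← h.lf_sec hs hl hle a hm w,
    ← h.lf_sec hs hl hle b hm w, hs0] at h1
  exact h1

/-- linearization of the first equation -/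
def LE1 (Y : Set (Fin m → ℂ)) (z : (Fin m → ℂ) → (Fin d → ℂ)) (u : J → (Fin m → ℂ) → ℂ)
    (a b α β : J → ℂ) (y : Fin m → ℂ) (v : Fin d → ℂ) : Prop :=
  lf' Y z u α y v * lf Y z u b y v + lf' Y z u a y v * lf Y z u β y v -
    lf Y z u α y v * lf' Y z u b y v - lf Y z u a y v * lf' Y z u β y v -
    lf Y z u α y v * lf Y z u b y v * (lf Y z u b y v - lf Y z u a y v) -
    lf Y z u a y v * lf Y z u β y v * (lf Y z u b y v - lf Y z u a y v) -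
    lf Y z u a y v * lf Y z u b y v * (lf Y z u β y v - lf Y z u α y v) = 0

/-- linearization of the second equation -/
def LE2 (Y : Set (Fin m → ℂ)) (z : (Fin m → ℂ) → (Fin d → ℂ)) (u : J → (Fin m → ℂ) → ℂ)
    (a b α β : J → ℂ) (y : Fin m → ℂ) (v w : Fin d → ℂ) : Prop :=
  lf Y z u α y v * lf Y z u b y w + lf Y z u a y v * lf Y z u β y w -
    lf Y z u α y w * lf Y z u b y v - lf Y z u a y w * lf Y z u β y v = 0

theorem LE1.symm {u : J → (Fin m → ℂ) → ℂ} {a b α β : J → ℂ} {y : Fin m → ℂ} {v : Fin d → ℂ}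
    (h : LE1 Y z u a b α β y v) : LE1 Y z u b a β α y v := by
  unfold LE1 at h ⊢
  linear_combination -h

theorem LE2.symm {u : J → (Fin m → ℂ) → ℂ} {a b α β : J → ℂ} {y : Fin m → ℂ} {v w : Fin d → ℂ}
    (h : LE2 Y z u a b α β y v w) : LE2 Y z u b a β α y v w := by
  unfold LE2 at h ⊢
  linear_combination -h

theorem Sol.nondeg (h : Ch Y d z P) {u : J → (Fin m → ℂ) → ℂ} (hu : Fam Y z P u)
    {g : (Fin m → ℂ) → ℂ} {a b : J → ℂ} (hg : Sol Y z P u g a b) {α β : J → ℂ}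
    (h1 : ∀ y ∈ Y, P (z y) ≠ 0 → ∀ v, LE1 Y z u a b α β y v)
    (h2 : ∀ y ∈ Y, P (z y) ≠ 0 → ∀ v w, LE2 Y z u a b α β y v w) : α = 0 := by
  obtain ⟨v₀, hv₀⟩ := h.exists_dG_ne hg.hol hg.cont hg.nc
  have hq : SecHol Y z P (fun y => dG Y z g y v₀) := by
    intro c r s hs
    have h3 := differentiableOn_fderiv_apply isOpen_ball (hg.hol _ _ _ hs) v₀
    refine h3.congr fun ζ hζ => ?_
    change dG Y z g (s ζ) v₀ = _
    rw [h.dG_eq hs hζ g]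
  refine h.theta u hu.hol hu.cont hu.ne hu.ind hq hv₀ α
    (F := fun y => (g y * lf Y z u α y v₀ + (1 - g y) * lf Y z u β y v₀) / lf Y z u b y v₀) ?_
  intro c r s hs l hl hle
  have hL := hg.lsol h hs hl hle
  have hP : ∀ ζ ∈ ball c r, P (z (s ζ)) ≠ 0 := by
    intro ζ hζ
    rw [hs.zs ζ hζ]
    exact hs.ne ζ hζ
  have hE1 : ∀ ζ ∈ ball c r, ∀ v, lc' l α ζ v * lc l b ζ v + lc' l a ζ v * lc l β ζ v -
      lc l α ζ v * lc' l b ζ v - lc l a ζ v * lc' l β ζ v -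
      lc l α ζ v * lc l b ζ v * (lc l b ζ v - lc l a ζ v) -
      lc l a ζ v * lc l β ζ v * (lc l b ζ v - lc l a ζ v) -
      lc l a ζ v * lc l b ζ v * (lc l β ζ v - lc l α ζ v) = 0 := by
    intro ζ hζ v
    have h3 := h1 _ (hs.mem ζ hζ) (hP ζ hζ) v
    unfold LE1 at h3
    rw [h.lf_sec hs hl hle a hζ v, h.lf_sec hs hl hle b hζ v, h.lf_sec hs hl hle α hζ v,
      h.lf_sec hs hl hle β hζ v, h.lf'_sec hs hl hle a hζ v, h.lf'_sec hs hl hle b hζ v,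
      h.lf'_sec hs hl hle α hζ v, h.lf'_sec hs hl hle β hζ v] at h3
    exact h3
  have hE2 : ∀ ζ ∈ ball c r, ∀ v w, lc l α ζ v * lc l b ζ w + lc l a ζ v * lc l β ζ w -
      lc l α ζ w * lc l b ζ v - lc l a ζ w * lc l β ζ v = 0 := by
    intro ζ hζ v w
    have h3 := h2 _ (hs.mem ζ hζ) (hP ζ hζ) v w
    unfold LE2 at h3
    rw [h.lf_sec hs hl hle a hζ v, h.lf_sec hs hl hle b hζ v, h.lf_sec hs hl hle α hζ v,
      h.lf_sec hs hl hle β hζ v, h.lf_sec hs hl hle a hζ w, h.lf_sec hs hl hle b hζ w,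
      h.lf_sec hs hl hle α hζ w, h.lf_sec hs hl hle β hζ w] at h3
    exact h3
  have hqs := hq _ _ _ hs
  have hOo : IsOpen {ζ | ζ ∈ ball c r ∧ dG Y z g (s ζ) v₀ ≠ 0} := by
    have := hqs.continuousOn.isOpen_inter_preimage isOpen_ball (isOpen_ne (x := (0 : ℂ)))
    exact this
  obtain ⟨κ, hκ⟩ := hL.const α β hE1 hE2 v₀ hOo (ThinAux.ball_diff hqs) (fun ζ hζ => hζ.1) (by
    rintro ζ ⟨hζ, hζ'⟩ h0
    apply hζ'
    rw [hg.eb _ (hs.mem ζ hζ) (hP ζ hζ), h.lf_sec hs hl hle b hζ, h0, mul_zero])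
  refine ⟨κ, fun ζ hζ hζq => ?_⟩
  have h3 := hκ ζ ⟨hζ, hζq⟩
  simp only [h.lf_sec hs hl hle _ hζ]
  exact h3

theorem Sol.symm (h : Ch Y d z P) {u : J → (Fin m → ℂ) → ℂ}
    {g : (Fin m → ℂ) → ℂ} {a b : J → ℂ} (hg : Sol Y z P u g a b) :
    Sol Y z P u (fun y => 1 - g y) b a := by
  have hd : ∀ y ∈ Y, P (z y) ≠ 0 → ∀ v, dG Y z (fun y => 1 - g y) y v = - dG Y z g y v := by
    intro y hy hP v
    obtain ⟨r, s, -, hs0, hsec, -, -, -⟩ := h.exists_isSec ⟨y, hy, hP⟩ univ_mem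
    have hm := mem_ball_self hsec.pos (x := z y)
    have h1 := h.dG_eq hsec hm (fun y => 1 - g y)
    have h2 := h.dG_eq hsec hm g
    simp only [hs0] at h1 h2
    rw [h1, h2, fderiv_const_sub]
    rfl
  refine ⟨fun c r s hs => (hg.hol c r s hs).const_sub 1, continuousOn_const.sub hg.cont, ?_,
    fun y hy h0 => hg.g1 y hy (by linear_combination -h0), fun y hy h0 => hg.g0 y hy
      (by linear_combination -h0), fun y hy hP v => ?_, fun y hy hP v => ?_⟩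
  · obtain ⟨y, hy, y', hy', hne⟩ := hg.nc
    exact ⟨y, hy, y', hy', fun h0 => hne (by linear_combination -h0)⟩
  · rw [hd y hy hP, hg.eb y hy hP]; ring
  · rw [hd y hy hP, hg.ea y hy hP]; ring

theorem Sol.nondeg' (h : Ch Y d z P) {u : J → (Fin m → ℂ) → ℂ} (hu : Fam Y z P u)
    {g : (Fin m → ℂ) → ℂ} {a b : J → ℂ} (hg : Sol Y z P u g a b) {α β : J → ℂ}
    (h1 : ∀ y ∈ Y, P (z y) ≠ 0 → ∀ v, LE1 Y z u a b α β y v)
    (h2 : ∀ y ∈ Y, P (z y) ≠ 0 → ∀ v w, LE2 Y z u a b α β y v w) : α = 0 ∧ β = 0 :=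
  ⟨hg.nondeg h hu h1 h2, (hg.symm h).nondeg h hu (fun y hy hP v => (h1 y hy hP v).symm)
    fun y hy hP v w => (h2 y hy hP v w).symm⟩

end Pool.Agent.R848
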