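import Mathlib
import Pool.Agent.R848.NonDeg

/-! The polynomial system satisfied by the solutions and the count of solutions. -/

set_option autoImplicit false

open Set Filter Topology Metric

namespace Pool.Agent.R848

section Lin
open MvPolynomial

variable {σ : Type} [Fintype σ]

/-- a linear form -/
noncomputable def lin (c : σ → ℂ) : MvPolynomial σ ℂ := ∑ i, C (c i) * X i

theorem lin_eval (c x : σ → ℂ) : eval x (lin c) = ∑ i, x i * c i := by
  simp only [lin, map_sum, map_mul, eval_C, eval_X, mul_comm]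

theorem lin_degree (c : σ → ℂ) : (lin c).totalDegree ≤ 1 := by
  refine (totalDegree_finset_sum _ _).trans (Finset.sup_le fun i _ => ?_)
  refine (totalDegree_mul _ _).trans ?_
  rw [totalDegree_C, totalDegree_X]

/-- directional derivative at a point -/
noncomputable def dd (x v : σ → ℂ) (p : MvPolynomial σ ℂ) : ℂ := ∑ i, v i * eval x (pderiv i p)

theorem dd_lin (x v c : σ → ℂ) : dd x v (lin c) = ∑ i, v i * c i := by
  classical
  unfold dd lin
  refine Finset.sum_congr rfl fun i _ => ?_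
  congr 1
  rw [map_sum, map_sum]
  rw [Finset.sum_eq_single i]
  · rw [pderiv_mul, pderiv_C, pderiv_X_self]; simp
  · intro j _ hj
    rw [pderiv_mul, pderiv_C, pderiv_X_of_ne hj]; simp
  · intro h; exact absurd (Finset.mem_univ i) h

theorem dd_mul (x v : σ → ℂ) (p q : MvPolynomial σ ℂ) :
    dd x v (p * q) = dd x v p * eval x q + eval x p * dd x v q := by
  unfold dd
  rw [Finset.sum_mul, Finset.mul_sum, ← Finset.sum_add_distrib]
  refine Finset.sum_congr rfl fun i _ => ?_
  rw [pderiv_mul, map_add, map_mul, map_mul]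
  ring

theorem dd_sub (x v : σ → ℂ) (p q : MvPolynomial σ ℂ) :
    dd x v (p - q) = dd x v p - dd x v q := by
  unfold dd
  rw [← Finset.sum_sub_distrib]
  refine Finset.sum_congr rfl fun i _ => ?_
  rw [map_sub, map_sub]
  ring

/-- the first equation as a polynomial -/
noncomputable def pol1 (A B A' B' : σ → ℂ) : MvPolynomial σ ℂ :=
  lin A' * lin B - lin A * lin B' - lin A * lin B * (lin B - lin A)

/-- the second equation as a polynomial -/
noncomputable def pol2 (A B A' B' : σ → ℂ) : MvPolynomial σ ℂ :=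
  lin A * lin B' - lin A' * lin B

theorem mul_degree {p q : MvPolynomial σ ℂ} {a b : ℕ} (hp : p.totalDegree ≤ a)
    (hq : q.totalDegree ≤ b) : (p * q).totalDegree ≤ a + b :=
  (totalDegree_mul p q).trans (add_le_add hp hq)

theorem sub_degree {p q : MvPolynomial σ ℂ} {a : ℕ} (hp : p.totalDegree ≤ a)
    (hq : q.totalDegree ≤ a) : (p - q).totalDegree ≤ a :=
  (totalDegree_sub p q).trans (max_le hp hq)

theorem pol1_degree (A B A' B' : σ → ℂ) : (pol1 A B A' B').totalDegree ≤ 3 := by
  unfold pol1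
  have h := lin_degree (σ := σ)
  have h1 := mul_degree (h A') (h B)
  have h2 := mul_degree (h A) (h B')
  have h3 := mul_degree (mul_degree (h A) (h B)) (sub_degree (h B) (h A))
  exact sub_degree (sub_degree (h1.trans (by norm_num)) (h2.trans (by norm_num)))
    (h3.trans (by norm_num))

theorem pol2_degree (A B A' B' : σ → ℂ) : (pol2 A B A' B').totalDegree ≤ 3 := by
  unfold pol2
  have h := lin_degree (σ := σ)
  have h1 := mul_degree (h A') (h B)
  have h2 := mul_degree (h A) (h B')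
  exact sub_degree (h2.trans (by norm_num)) (h1.trans (by norm_num))

end Lin

variable {m d : ℕ} {Y : Set (Fin m → ℂ)} {z : (Fin m → ℂ) → (Fin d → ℂ)} {P : (Fin d → ℂ) → ℂ}

theorem Ch.count (hN : S_N) (h : Ch Y d z P) {J : Type} [Fintype J]
    {u : J → (Fin m → ℂ) → ℂ} (hu : Fam Y z P u) {ι : Type} [Fintype ι]
    (g : ι → (Fin m → ℂ) → ℂ) (a b : ι → J → ℂ) (hg : ∀ i, Sol Y z P u (g i) (a i) (b i))
    (hinj : ∀ i k, a i = a k → b i = b k → i = k) :
    Fintype.card ι ≤ 16 ^ Fintype.card J := by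
  classical
  -- coefficient vectors
  let cA : (Fin m → ℂ) → (Fin d → ℂ) → (J ⊕ J → ℂ) := fun y v =>
    Sum.elim (fun j => om Y z (u j) y v) 0
  let cB : (Fin m → ℂ) → (Fin d → ℂ) → (J ⊕ J → ℂ) := fun y v =>
    Sum.elim 0 (fun j => om Y z (u j) y v)
  let cA' : (Fin m → ℂ) → (Fin d → ℂ) → (J ⊕ J → ℂ) := fun y v =>
    Sum.elim (fun j => om' Y z (u j) y v) 0
  let cB' : (Fin m → ℂ) → (Fin d → ℂ) → (J ⊕ J → ℂ) := fun y v =>
    Sum.elim 0 (fun j => om' Y z (u j) y v)
  have eA : ∀ (x : J ⊕ J → ℂ) y v, ∑ i, x i * cA y v i = lf Y z u (x ∘ Sum.inl) y v := by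
    intro x y v
    simp only [cA, lf, Fintype.sum_sum_type, Sum.elim_inl, Sum.elim_inr, Function.comp,
      Pi.zero_apply, mul_zero, Finset.sum_const_zero, add_zero]
  have eB : ∀ (x : J ⊕ J → ℂ) y v, ∑ i, x i * cB y v i = lf Y z u (x ∘ Sum.inr) y v := by
    intro x y v
    simp only [cB, lf, Fintype.sum_sum_type, Sum.elim_inl, Sum.elim_inr, Function.comp,
      Pi.zero_apply, mul_zero, Finset.sum_const_zero, zero_add]
  have eA' : ∀ (x : J ⊕ J → ℂ) y v, ∑ i, x i * cA' y v i = lf' Y z u (x ∘ Sum.inl) y v := by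
    intro x y v
    simp only [cA', lf', Fintype.sum_sum_type, Sum.elim_inl, Sum.elim_inr, Function.comp,
      Pi.zero_apply, mul_zero, Finset.sum_const_zero, add_zero]
  have eB' : ∀ (x : J ⊕ J → ℂ) y v, ∑ i, x i * cB' y v i = lf' Y z u (x ∘ Sum.inr) y v := by
    intro x y v
    simp only [cB', lf', Fintype.sum_sum_type, Sum.elim_inl, Sum.elim_inr, Function.comp,
      Pi.zero_apply, mul_zero, Finset.sum_const_zero, zero_add]
  let E : Set (MvPolynomial (J ⊕ J) ℂ) :=
    {p | ∃ y ∈ Y, P (z y) ≠ 0 ∧ ∃ v, p = pol1 (cA y v) (cB y v) (cA' y v) (cB' y v)} ∪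
    {p | ∃ y ∈ Y, P (z y) ≠ 0 ∧ ∃ v w, p = pol2 (cA y v) (cB y v) (cA y w) (cB y w)}
  let Z : Finset (J ⊕ J → ℂ) := Finset.univ.image fun i => Sum.elim (a i) (b i)
  have hZc : Z.card = Fintype.card ι := by
    rw [Finset.card_image_of_injective, Finset.card_univ]
    intro i k hik
    have hik' : (Sum.elim (a i) (b i) : J ⊕ J → ℂ) = Sum.elim (a k) (b k) := hik
    apply hinj i k
    · funext j
      have := congrFun hik' (Sum.inl j)
      simpa using this
    · funext j
      have := congrFun hik' (Sum.inr j)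
      simpa using this
  have hcomp : ∀ a b : J → ℂ, (Sum.elim a b) ∘ Sum.inl = a ∧ (Sum.elim a b) ∘ Sum.inr = b :=
    fun a b => ⟨Sum.elim_comp_inl a b, Sum.elim_comp_inr a b⟩
  have key := hN (J ⊕ J) 3 E ?_ Z ?_ ?_
  · rw [hZc, Fintype.card_sum, ← two_mul, pow_mul] at key
    norm_num at key
    exact key
  · rintro p (⟨y, -, -, v, rfl⟩ | ⟨y, -, -, v, w, rfl⟩)
    · exact pol1_degree _ _ _ _
    · exact pol2_degree _ _ _ _
  · intro x hx p hp
    obtain ⟨i, -, rfl⟩ := Finset.mem_image.1 hx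
    rcases hp with ⟨y, hy, hP, v, rfl⟩ | ⟨y, hy, hP, v, w, rfl⟩
    · have h1 := (hg i).E1 h hu hy hP v
      simp only [pol1, map_sub, map_mul, lin_eval, eA, eB, eA', eB', (hcomp _ _).1, (hcomp _ _).2]
      exact h1
    · have h1 := (hg i).E2 h hu hy hP v w
      simp only [pol2, map_sub, map_mul, lin_eval, eA, eB, (hcomp _ _).1, (hcomp _ _).2]
      exact h1
  · intro x hx v hv
    obtain ⟨i, -, rfl⟩ := Finset.mem_image.1 hx
    by_contra hcon
    push Not at hcon
    have hdd : ∀ p ∈ E, dd (Sum.elim (a i) (b i)) v p = 0 := hcon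
    obtain ⟨h1, h2⟩ := (hg i).nondeg' h hu (α := v ∘ Sum.inl) (β := v ∘ Sum.inr)
      (fun y hy hP w => by
        have h3 := hdd _ (Or.inl ⟨y, hy, hP, w, rfl⟩)
        simp only [pol1, dd_sub, dd_mul, dd_lin, map_sub, map_mul, lin_eval, eA, eB, eA', eB',
          (hcomp _ _).1, (hcomp _ _).2] at h3
        unfold LE1
        linear_combination h3)
      (fun y hy hP w w' => by
        have h3 := hdd _ (Or.inr ⟨y, hy, hP, w, w', rfl⟩)
        simp only [pol2, dd_sub, dd_mul, dd_lin, map_sub, map_mul, lin_eval, eA, eB,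
          (hcomp _ _).1, (hcomp _ _).2] at h3
        unfold LE2
        linear_combination h3)
    apply hv
    funext j
    rcases j with j | j
    · exact congrFun h1 j
    · exact congrFun h2 j

end Pool.Agent.R848
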