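import Mathlib
import Pool.Agent.R848.Poly

/-! The count of functions omitting `0` and `1`. -/

set_option autoImplicit false

open Set Filter Topology Metric

namespace Pool.Agent.R848

section Monomials

variable {K : Type} [Fintype K] {w : K → ℂ}

theorem pw_add (hw : ∀ k, w k ≠ 0) (F G : K → ℤ) :
    ∏ k, w k ^ (F + G) k = (∏ k, w k ^ F k) * ∏ k, w k ^ G k := by
  rw [← Finset.prod_mul_distrib]
  exact Finset.prod_congr rfl fun k _ => by rw [Pi.add_apply, zpow_add₀ (hw k)]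

theorem pw_smul (n : ℤ) (F : K → ℤ) :
    ∏ k, w k ^ (n • F) k = (∏ k, w k ^ F k) ^ n := by
  rw [← Finset.prod_zpow]
  exact Finset.prod_congr rfl fun k _ => by rw [Pi.smul_apply, smul_eq_mul, mul_comm, zpow_mul]

theorem pw_sum (hw : ∀ k, w k ≠ 0) {J : Type} (s : Finset J) (M : J → ℤ) (F : J → K → ℤ) :
    ∏ k, w k ^ (∑ j ∈ s, M j • F j) k = ∏ j ∈ s, (∏ k, w k ^ F j k) ^ M j := by
  classical
  induction s using Finset.induction_on with
  | empty => simp
  | insert j s hj ih => rw [Finset.sum_insert hj, Finset.prod_insert hj, pw_add hw, pw_smul, ih]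

theorem pw_single [DecidableEq K] (k : K) : ∏ k', w k' ^ (Pi.single k 1 : K → ℤ) k' = w k := by
  rw [Finset.prod_eq_single k]
  · rw [Pi.single_eq_same, zpow_one]
  · intro b _ hb
    rw [Pi.single_eq_of_ne hb, zpow_zero]
  · intro h; exact absurd (Finset.mem_univ k) h

theorem zpow_sum_ne {J : Type} (s : Finset J) (x : ℂ) (hx : x ≠ 0) (e : J → ℤ) :
    x ^ (∑ i ∈ s, e i) = ∏ i ∈ s, x ^ e i := by
  classical
  induction s using Finset.induction_on with
  | empty => simp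
  | insert j s hj ih => rw [Finset.sum_insert hj, Finset.prod_insert hj, zpow_add₀ hx, ih]

end Monomials

variable {m d : ℕ} {Y : Set (Fin m → ℂ)} {z : (Fin m → ℂ) → (Fin d → ℂ)} {P : (Fin d → ℂ) → ℂ}

theorem const_of_zpow (hY : IsPreconnected Y) {φ : (Fin m → ℂ) → ℂ} (hφ : ContinuousOn φ Y)
    {n : ℤ} (hn : n ≠ 0) {c : ℂ} (h : ∀ y ∈ Y, φ y ^ n = c) :
    ∀ y ∈ Y, ∀ y' ∈ Y, φ y = φ y' := by
  obtain ⟨k, hk, c', hc'⟩ : ∃ k : ℕ, 0 < k ∧ ∃ c' : ℂ, ∀ y ∈ Y, φ y ^ k = c' := by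
    rcases Int.natAbs_eq n with h1 | h1
    · refine ⟨n.natAbs, Int.natAbs_pos.2 hn, c, fun y hy => ?_⟩
      rw [← h y hy]
      conv_rhs => rw [h1]
      rw [zpow_natCast]
    · refine ⟨n.natAbs, Int.natAbs_pos.2 hn, c⁻¹, fun y hy => ?_⟩
      rw [← h y hy]
      conv_rhs => rw [h1]
      rw [zpow_neg, zpow_natCast, inv_inv]
  have hfin : {w : ℂ | w ^ k = c'}.Finite := by
    refine ((Polynomial.nthRoots k c').toFinset.finite_toSet).subset fun w hw => ?_
    rw [Finset.mem_coe, Multiset.mem_toFinset, Polynomial.mem_nthRoots hk]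
    exact hw
  intro y hy y' hy'
  exact hY.constant_of_mapsTo hfin.isDiscrete hφ (fun x hx => hc' x hx) hy hy'

/-- the relation module of a family of functions -/
def RelM {K : Type} [Fintype K] (Y : Set (Fin m → ℂ)) (f : K → (Fin m → ℂ) → ℂ)
    (hf : ∀ k, ∀ y ∈ Y, f k y ≠ 0) : Submodule ℤ (K → ℤ) where
  carrier := {F | ∃ c : ℂ, c ≠ 0 ∧ ∀ y ∈ Y, ∏ k, f k y ^ F k = c}
  add_mem' := by
    rintro F G ⟨c, hc, hF⟩ ⟨c', hc', hG⟩
    refine ⟨c * c', mul_ne_zero hc hc', fun y hy => ?_⟩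
    rw [pw_add fun k => hf k y hy, hF y hy, hG y hy]
  zero_mem' := ⟨1, one_ne_zero, fun y hy => by simp⟩
  smul_mem' := by
    rintro n F ⟨c, hc, hF⟩
    refine ⟨c ^ n, zpow_ne_zero _ hc, fun y hy => ?_⟩
    rw [pw_smul, hF y hy]

theorem mem_RelM {K : Type} [Fintype K] {f : K → (Fin m → ℂ) → ℂ}
    {hf : ∀ k, ∀ y ∈ Y, f k y ≠ 0} {F : K → ℤ} :
    F ∈ RelM Y f hf ↔ ∃ c : ℂ, c ≠ 0 ∧ ∀ y ∈ Y, ∏ k, f k y ^ F k = c := Iff.rfl

theorem relM_torsionFree (hY : IsConnected Y) {K : Type} [Fintype K] {f : K → (Fin m → ℂ) → ℂ}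
    (hf : ∀ k, ∀ y ∈ Y, f k y ≠ 0) (hfc : ∀ k, ContinuousOn (f k) Y) :
    Module.IsTorsionFree ℤ ((K → ℤ) ⧸ RelM Y f hf) := by
  apply Module.IsTorsionFree.of_smul_eq_zero
  intro n q hq
  obtain ⟨F, rfl⟩ := Submodule.Quotient.mk_surjective _ q
  by_cases hn : n = 0
  · exact Or.inl hn
  · right
    rw [← Submodule.Quotient.mk_smul, Submodule.Quotient.mk_eq_zero, mem_RelM] at hq
    rw [Submodule.Quotient.mk_eq_zero, mem_RelM]
    obtain ⟨c, hc, hF⟩ := hq
    obtain ⟨y₀, hy₀⟩ := hY.nonempty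
    refine ⟨∏ k, f k y₀ ^ F k, Finset.prod_ne_zero_iff.2 fun k _ => zpow_ne_zero _ (hf k y₀ hy₀),
      fun y hy => ?_⟩
    refine const_of_zpow hY.isPreconnected (φ := fun y => ∏ k, f k y ^ F k) ?_ hn (c := c) ?_ y hy y₀ hy₀
    · apply continuousOn_finsetProd
      intro k _
      exact (hfc k).zpow₀ (F k) fun y hy => Or.inl (hf k y hy)
    · intro y hy
      rw [← hF y hy, pw_smul]

/-- derivative of a monomial -/
theorem Ch.dG_mon (h : Ch Y d z P) {J : Type} [Fintype J] {u : J → (Fin m → ℂ) → ℂ}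
    (hu : Fam Y z P u) {q : (Fin m → ℂ) → ℂ} {κ : ℂ} {c : J → ℤ}
    (hq : ∀ y ∈ Y, q y = κ * ∏ j, u j y ^ c j) {y : Fin m → ℂ} (hy : y ∈ Y) (hP : P (z y) ≠ 0)
    (v : Fin d → ℂ) : dG Y z q y v = q y * lf Y z u (fun j => (c j : ℂ)) y v := by
  obtain ⟨r, s, l, hs, hs0, hl, hle⟩ := h.exists_chart hu hy hP
  have hm := mem_ball_self hs.pos (x := z y)
  have h1 := h.dG_eq hs hm q
  have h2 := h.lf_sec hs hl hle (fun j => (c j : ℂ)) hm v
  rw [hs0] at h1 h2
  have h3 : ∀ ζ ∈ ball (z y) r, q (s ζ) = κ * Complex.exp (∑ j, (c j : ℂ) * l j ζ) := by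
    intro ζ hζ
    rw [hq _ (hs.mem ζ hζ), exp_sum_log c fun j => hle j ζ hζ]
  have h4 : (fun ζ => q (s ζ)) =ᶠ[𝓝 (z y)] fun ζ => κ * Complex.exp (∑ j, (c j : ℂ) * l j ζ) := by
    filter_upwards [isOpen_ball.mem_nhds hm] with ζ hζ
    exact h3 ζ hζ
  have hsum : HasFDerivAt (fun ξ => ∑ j, (c j : ℂ) * l j ξ)
      (∑ j, (c j : ℂ) • fderiv ℂ (l j) (z y)) (z y) := by
    apply HasFDerivAt.fun_sum
    intro j _
    exact (((hl j).differentiableAt (isOpen_ball.mem_nhds hm)).hasFDerivAt).const_mul (c j : ℂ)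
  have h5 := (hsum.cexp).const_mul κ
  have h6 := h3 _ hm
  rw [hs0] at h6
  rw [h1, h4.fderiv_eq, h5.fderiv, h2, h6]
  simp only [lc, smul_apply, sum_apply, smul_eq_mul]
  ring

theorem Ch.dG_one_sub (h : Ch Y d z P) (g : (Fin m → ℂ) → ℂ) {y : Fin m → ℂ} (hy : y ∈ Y)
    (hP : P (z y) ≠ 0) (v : Fin d → ℂ) : dG Y z (fun y => 1 - g y) y v = - dG Y z g y v := by
  obtain ⟨r, s, -, hs0, hsec, -, -, -⟩ := h.exists_isSec ⟨y, hy, hP⟩ univ_mem
  have hm := mem_ball_self hsec.pos (x := z y)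
  have h1 := h.dG_eq hsec hm (fun y => 1 - g y)
  have h2 := h.dG_eq hsec hm g
  simp only [hs0] at h1 h2
  rw [h1, h2, fderiv_const_sub]
  rfl

theorem Ch.main (hN : S_N) (hL : S_L) (h : Ch Y d z P) {T : ℕ}
    (hT : ∀ f : Fin (T + 1) → Y → ℂ, (∀ i, Continuous (f i)) → (∀ i x, f i x ≠ 0) →
      ∃ k : Fin (T + 1) → ℤ, k ≠ 0 ∧ HasLog (fun x => ∏ i, f i x ^ k i) univ)
    {ι : Type} [Fintype ι] (g : ι → (Fin m → ℂ) → ℂ) (hg : ∀ i, HolOn Y (g i))
    (hg0 : ∀ i, ∀ y ∈ Y, g i y ≠ 0) (hg1 : ∀ i, ∀ y ∈ Y, g i y ≠ 1)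
    (hnc : ∀ i, ∃ y ∈ Y, ∃ y' ∈ Y, g i y ≠ g i y')
    (hinj : ∀ i k, (∀ y ∈ Y, g i y = g k y) → i = k) : Fintype.card ι ≤ 16 ^ T := by
  classical
  set f : ι ⊕ ι → (Fin m → ℂ) → ℂ := Sum.elim g (fun i y => 1 - g i y) with hfdef
  have hf : ∀ k, HolOn Y (f k) := by
    rintro (i | i)
    · exact hg i
    · exact (hg i).one_sub
  have hf0 : ∀ k, ∀ y ∈ Y, f k y ≠ 0 := by
    rintro (i | i) y hy
    · exact hg0 i y hy
    · intro h0
      exact hg1 i y hy (sub_eq_zero.1 h0).symm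
  have hf1 : ∀ k, ∀ y ∈ Y, f k y ≠ 1 := by
    rintro (i | i) y hy
    · exact hg1 i y hy
    · intro h0
      have h0' : 1 - g i y = 1 := h0
      exact hg0 i y hy (by linear_combination -h0')
  have hfc : ∀ k, ContinuousOn (f k) Y := fun k => (hf k).continuousOn
  have htf := relM_torsionFree h.conn hf0 hfc
  obtain ⟨n, 𝔟⟩ := Module.basisOfFiniteTypeTorsionFree' (R := ℤ)
    (M := ((ι ⊕ ι → ℤ) ⧸ RelM Y f hf0))
  have hlift : ∀ j, ∃ F : ι ⊕ ι → ℤ, (RelM Y f hf0).mkQ F = 𝔟 j := fun j =>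
    (RelM Y f hf0).mkQ_surjective _
  choose F hF using hlift
  set u : Fin n → (Fin m → ℂ) → ℂ := fun j y => ∏ k, f k y ^ F j k with hudef
  have hu0 : ∀ j, ∀ y ∈ Y, u j y ≠ 0 := fun j y hy =>
    Finset.prod_ne_zero_iff.2 fun k _ => zpow_ne_zero _ (hf0 k y hy)
  have huc : ∀ j, ContinuousOn (u j) Y := by
    intro j
    apply continuousOn_finsetProd
    intro k _
    exact (hfc k).zpow₀ (F j k) fun y hy => Or.inl (hf0 k y hy)
  have hind : ∀ M : Fin n → ℤ, HasLog (fun y : Y => ∏ j, u j y ^ M j) univ → M = 0 := by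
    rintro M ⟨l, hl, hle⟩
    set H : (Fin m → ℂ) → ℂ := fun y => if hy : y ∈ Y then l ⟨y, hy⟩ else 0 with hH
    have hHe : ∀ y (hy : y ∈ Y), H y = l ⟨y, hy⟩ := fun y hy => dif_pos hy
    have hHc : ContinuousOn H Y := by
      rw [continuousOn_iff_continuous_domRestrict]
      convert continuousOn_univ.1 hl using 1
      funext y
      exact hHe y y.2
    have hHexp : ∀ y ∈ Y, Complex.exp (H y) = ∏ k, f k y ^ (∑ j, M j • F j) k := by
      intro y hy
      rw [hHe y hy, hle ⟨y, hy⟩ (mem_univ _), pw_sum fun k => hf0 k y hy]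
    have hrig := h.rigid hL f hf hf0 hf1 _ H hHc hHexp
    obtain ⟨y₀, hy₀⟩ := h.conn.nonempty
    have hmem : ∑ j, M j • F j ∈ RelM Y f hf0 := by
      rw [mem_RelM]
      refine ⟨Complex.exp (H y₀), Complex.exp_ne_zero _, fun y hy => ?_⟩
      rw [← hHexp y hy, hrig y hy y₀ hy₀]
    have hzero : ∑ j, M j • 𝔟 j = 0 := by
      have h1 : (RelM Y f hf0).mkQ (∑ j, M j • F j) = 0 := by
        rw [Submodule.mkQ_apply, Submodule.Quotient.mk_eq_zero]
        exact hmem
      rw [map_sum] at h1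
      rw [← h1]
      exact Finset.sum_congr rfl fun j _ => by rw [map_smul, hF j]
    funext j
    exact Fintype.linearIndependent_iff.1 𝔟.linearIndependent M hzero j
  have hfam : Fam Y z P u := by
    refine ⟨fun j c r s hs => ?_, huc, hu0, hind⟩
    apply differentiableOn_prod
    intro k _
    exact ((hf k).comp isOpen_ball hs.diff hs.mem).zpow (Or.inl fun x hx => hf0 k _ (hs.mem x hx))
  -- the rank
  have hnT : n ≤ T := by
    by_contra hcon
    push Not at hcon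
    have hle : T + 1 ≤ n := hcon
    obtain ⟨k, hk0, hk⟩ := hT (fun i y => u (Fin.castLE hle i) y)
      (fun i => continuousOn_iff_continuous_domRestrict.1 (huc _)) (fun i y => hu0 _ y y.2)
    apply hk0
    set M : Fin n → ℤ := fun j => ∑ i, if Fin.castLE hle i = j then k i else 0 with hM
    have hMi : ∀ i, M (Fin.castLE hle i) = k i := by
      intro i
      rw [hM]
      simp only
      rw [Finset.sum_eq_single i]
      · rw [if_pos rfl]
      · intro i' _ hi'
        rw [if_neg]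
        intro h0
        exact hi' (Fin.castLE_injective hle h0)
      · intro h0; exact absurd (Finset.mem_univ i) h0
    have hprod : ∀ y : Y, ∏ j, u j y ^ M j = ∏ i, u (Fin.castLE hle i) y ^ k i := by
      intro y
      have h1 : ∀ j, u j y ^ M j = ∏ i, u j y ^ (if Fin.castLE hle i = j then k i else 0) :=
        fun j => zpow_sum_ne _ _ (hu0 j y y.2) _
      simp only [h1]
      rw [Finset.prod_comm]
      refine Finset.prod_congr rfl fun i _ => ?_
      rw [Finset.prod_eq_single (Fin.castLE hle i)]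
      · rw [if_pos rfl]
      · intro j _ hj
        rw [if_neg (fun h0 => hj h0.symm), zpow_zero]
      · intro h0; exact absurd (Finset.mem_univ _) h0
    have hM0 : M = 0 := by
      apply hind
      have : (fun y : Y => ∏ j, u j y ^ M j) = fun y : Y => ∏ i, u (Fin.castLE hle i) y ^ k i :=
        funext hprod
      rw [this]
      exact hk
    funext i
    rw [← hMi i, hM0]
    rfl
  -- expressions as monomials
  have hmon : ∀ k : ι ⊕ ι, ∃ (c : Fin n → ℤ) (κ : ℂ), κ ≠ 0 ∧ ∀ y ∈ Y, f k y = κ * ∏ j, u j y ^ c j := by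
    intro k
    set c : Fin n → ℤ := fun j => 𝔟.repr ((RelM Y f hf0).mkQ (Pi.single k 1)) j with hc
    have hmem : (Pi.single k 1 : ι ⊕ ι → ℤ) - ∑ j, c j • F j ∈ RelM Y f hf0 := by
      rw [← Submodule.Quotient.mk_eq_zero, ← Submodule.mkQ_apply, map_sub, map_sum, sub_eq_zero]
      have h1 := 𝔟.sum_repr ((RelM Y f hf0).mkQ (Pi.single k 1))
      rw [← h1]
      exact Finset.sum_congr rfl fun j _ => by rw [map_smul, hF j]
    rw [mem_RelM] at hmem
    obtain ⟨κ, hκ, hκ'⟩ := hmem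
    refine ⟨c, κ, hκ, fun y hy => ?_⟩
    have h2 : (Pi.single k 1 : ι ⊕ ι → ℤ) = (Pi.single k 1 - ∑ j, c j • F j) + ∑ j, c j • F j := by
      rw [sub_add_cancel]
    have h3 := pw_single (w := fun k => f k y) k
    rw [h2, pw_add fun k => hf0 k y hy, hκ' y hy, pw_sum fun k => hf0 k y hy] at h3
    exact h3.symm
  choose c κ hκ hc using hmon
  have hcard := h.count hN hfam g (fun i j => (c (Sum.inl i) j : ℂ)) (fun i j => (c (Sum.inr i) j : ℂ))
    (fun i => ⟨(hg i).secHol, (hg i).continuousOn, hnc i, hg0 i, hg1 i,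
      fun y hy hP v => h.dG_mon hfam (hc (Sum.inl i)) hy hP v,
      fun y hy hP v => by
        have h1 := h.dG_mon hfam (hc (Sum.inr i)) hy hP v
        have h2 := h.dG_one_sub (g i) hy hP v
        have h3 : dG Y z (f (Sum.inr i)) y v = - dG Y z (g i) y v := h2
        have h4 : f (Sum.inr i) y = 1 - g i y := rfl
        rw [h3, h4] at h1
        linear_combination -h1⟩)
    (by
      intro i k hik hik'
      apply hinj
      have hci : c (Sum.inl i) = c (Sum.inl k) := by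
        funext j
        have := congrFun hik j
        exact_mod_cast this
      have hci' : c (Sum.inr i) = c (Sum.inr k) := by
        funext j
        have := congrFun hik' j
        exact_mod_cast this
      set ρ : ℂ := κ (Sum.inl i) / κ (Sum.inl k) with hρ
      set τ : ℂ := κ (Sum.inr i) / κ (Sum.inr k) with hτ
      have h1 : ∀ y ∈ Y, g i y = ρ * g k y := by
        intro y hy
        have ha : g i y = κ (Sum.inl i) * ∏ j, u j y ^ c (Sum.inl i) j := hc (Sum.inl i) y hy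
        have hb : g k y = κ (Sum.inl k) * ∏ j, u j y ^ c (Sum.inl k) j := hc (Sum.inl k) y hy
        rw [ha, hb, hci, hρ]
        field_simp [hκ (Sum.inl k)]
      have h2 : ∀ y ∈ Y, 1 - g i y = τ * (1 - g k y) := by
        intro y hy
        have ha : 1 - g i y = κ (Sum.inr i) * ∏ j, u j y ^ c (Sum.inr i) j := hc (Sum.inr i) y hy
        have hb : 1 - g k y = κ (Sum.inr k) * ∏ j, u j y ^ c (Sum.inr k) j := hc (Sum.inr k) y hy
        rw [ha, hb, hci', hτ]
        field_simp [hκ (Sum.inr k)]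
      have h3 : ∀ y ∈ Y, (τ - ρ) * g k y = τ - 1 := by
        intro y hy
        linear_combination (h2 y hy) + h1 y hy
      obtain ⟨y, hy, y', hy', hne⟩ := hnc k
      have h4 : τ - ρ = 0 := by
        have h5 : (τ - ρ) * (g k y - g k y') = 0 := by
          linear_combination h3 y hy - h3 y' hy'
        rcases mul_eq_zero.1 h5 with h6 | h6
        · exact h6
        · exact absurd (sub_eq_zero.1 h6) hne
      have h5 : τ = 1 := by
        have := h3 y hy
        rw [h4] at this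
        linear_combination -this
      have h6 : ρ = 1 := by rw [← h5]; linear_combination -h4
      intro y hy
      rw [h1 y hy, h6, one_mul])
  rw [Fintype.card_fin] at hcard
  exact hcard.trans (Nat.pow_le_pow_right (by norm_num) hnT)

end Pool.Agent.R848
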