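import Mathlib
import Pool.Agent.R848.Stm

set_option autoImplicit false
set_option linter.unusedVariables false

/-! # Block Crit: bounded critical values of `∑ |ζ i - a i|² + 1 / |P ζ|²` -/

namespace Pool.Agent.R848

namespace Cr

open MvPolynomial MeasureTheory

/-! ### Derivatives of polynomials along curves -/

theorem hasDeriv_eval {τ : Type} [Fintype τ] [DecidableEq τ] (p : MvPolynomial τ ℂ)
    (G : ℝ → τ → ℂ) (v : τ → ℂ) (t : ℝ) (hG : ∀ i, HasDerivAt (fun r => G r i) (v i) t) :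
    HasDerivAt (fun r => eval (G r) p) (∑ i, v i * eval (G t) (pderiv i p)) t := by
  induction p using MvPolynomial.induction_on with
  | C c =>
    simp only [eval_C, pderiv_C, map_zero, mul_zero, Finset.sum_const_zero]
    exact hasDerivAt_const _ _
  | add p q hp hq =>
    simp only [map_add, mul_add, Finset.sum_add_distrib]
    exact hp.add hq
  | mul_X p j hp =>
    have h1 := hp.mul (hG j)
    refine (h1.congr_deriv ?_).congr_of_eventuallyEq (Filter.Eventually.of_forall fun r => ?_)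
    · have h2 : ∀ i, v i * eval (G t) (pderiv i (p * X j)) =
          (v i * eval (G t) (pderiv i p)) * G t j + (if i = j then v i * eval (G t) p else 0) := by
        intro i
        rw [pderiv_mul, map_add, map_mul, map_mul, eval_X, pderiv_X, mul_add]
        split_ifs with h
        · subst h
          rw [Pi.single_eq_same, map_one]
          ring
        · rw [Pi.single_eq_of_ne (fun h' => h h'.symm), map_zero]
          ring
      simp only [h2, Finset.sum_add_distrib, Finset.sum_ite_eq', Finset.mem_univ, if_true]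
      rw [Finset.sum_mul]
      ring
    · simp only [map_mul, eval_X, Pi.mul_apply]

theorem diff_eval {τ : Type} [Fintype τ] (p : MvPolynomial τ ℂ) (z : τ → ℂ) :
    DifferentiableAt ℝ (fun w : τ → ℂ => eval w p) z := by
  induction p using MvPolynomial.induction_on with
  | C c => simp only [eval_C]; exact differentiableAt_const _
  | add p q hp hq => simp only [map_add]; exact hp.add hq
  | mul_X p j hp =>
    simp only [map_mul, eval_X]
    exact hp.mul (differentiableAt_apply j z)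

theorem conj_eval {τ : Type} (P : MvPolynomial τ ℂ) (z : τ → ℂ) :
    eval (fun i => (starRingEnd ℂ) (z i)) (map (starRingEnd ℂ) P) =
      (starRingEnd ℂ) (eval z P) := by
  induction P using MvPolynomial.induction_on with
  | C c => simp
  | add p q hp hq => simp only [map_add, hp, hq]
  | mul_X p j hp => simp only [map_mul, map_X, eval_X, hp]

/-! ### The system -/

variable {d : ℕ}

/-- the unknowns `ζ`, `η`, `s`, `s'` -/
abbrev Un (d : ℕ) : Type := (Fin d ⊕ Fin d) ⊕ Bool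

/-- the conjugate polynomial -/
noncomputable def cj (P : MvPolynomial (Fin d) ℂ) : MvPolynomial (Fin d) ℂ :=
  map (starRingEnd ℂ) P

noncomputable def q1 (P : MvPolynomial (Fin d) ℂ) : MvPolynomial (Un d) ℂ :=
  X (Sum.inr false) * rename (fun j => Sum.inl (Sum.inl j)) P - 1

noncomputable def q2 (P : MvPolynomial (Fin d) ℂ) : MvPolynomial (Un d) ℂ :=
  X (Sum.inr true) * rename (fun j => Sum.inl (Sum.inr j)) (cj P) - 1

noncomputable def q3 (P : MvPolynomial (Fin d) ℂ) (a : Fin d → ℂ) (j : Fin d) :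
    MvPolynomial (Un d) ℂ :=
  X (Sum.inl (Sum.inl j)) - C (a j) - rename (fun j => Sum.inl (Sum.inr j)) (pderiv j (cj P)) *
    X (Sum.inr true) ^ 2 * X (Sum.inr false)

noncomputable def q4 (P : MvPolynomial (Fin d) ℂ) (a : Fin d → ℂ) (j : Fin d) :
    MvPolynomial (Un d) ℂ :=
  X (Sum.inl (Sum.inr j)) - C ((starRingEnd ℂ) (a j)) -
    rename (fun j => Sum.inl (Sum.inl j)) (pderiv j P) *
    X (Sum.inr false) ^ 2 * X (Sum.inr true)

/-- the involution -/
noncomputable def io (w : Un d → ℂ) : Un d → ℂ :=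
  Sum.elim (Sum.elim (fun j => (starRingEnd ℂ) (w (Sum.inl (Sum.inr j))))
    (fun j => (starRingEnd ℂ) (w (Sum.inl (Sum.inl j)))))
    (fun b => (starRingEnd ℂ) (w (Sum.inr (!b))))

theorem io_io (w : Un d → ℂ) : io (io w) = w := by
  ext i
  rcases i with (j | j) | b <;> simp [io]

theorem io_add (v w : Un d → ℂ) : io (v + w) = io v + io w := by
  ext i
  rcases i with (j | j) | b <;> simp [io]

theorem io_smul (c : ℂ) (v : Un d → ℂ) : io (c • v) = (starRingEnd ℂ) c • io v := by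
  ext i
  rcases i with (j | j) | b <;> simp [io]

theorem pderiv_cj (P : MvPolynomial (Fin d) ℂ) (j : Fin d) :
    pderiv j (cj P) = cj (pderiv j P) := by
  rw [cj, cj, pderiv_map]

theorem eval_q1 (P : MvPolynomial (Fin d) ℂ) (w : Un d → ℂ) :
    eval w (q1 P) = w (Sum.inr false) * eval (fun j => w (Sum.inl (Sum.inl j))) P - 1 := by
  rw [q1, map_sub, map_mul, eval_X, eval_rename, map_one]
  rfl

theorem eval_q2 (P : MvPolynomial (Fin d) ℂ) (w : Un d → ℂ) :
    eval w (q2 P) = w (Sum.inr true) * eval (fun j => w (Sum.inl (Sum.inr j))) (cj P) - 1 := by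
  rw [q2, map_sub, map_mul, eval_X, eval_rename, map_one]
  rfl

theorem eval_q3 (P : MvPolynomial (Fin d) ℂ) (a : Fin d → ℂ) (j : Fin d) (w : Un d → ℂ) :
    eval w (q3 P a j) = w (Sum.inl (Sum.inl j)) - a j -
      eval (fun j => w (Sum.inl (Sum.inr j))) (pderiv j (cj P)) * w (Sum.inr true) ^ 2 *
        w (Sum.inr false) := by
  rw [q3, map_sub, map_sub, eval_X, eval_C, map_mul, map_mul, eval_rename, map_pow, eval_X, eval_X]
  rfl

theorem eval_q4 (P : MvPolynomial (Fin d) ℂ) (a : Fin d → ℂ) (j : Fin d) (w : Un d → ℂ) :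
    eval w (q4 P a j) = w (Sum.inl (Sum.inr j)) - (starRingEnd ℂ) (a j) -
      eval (fun j => w (Sum.inl (Sum.inl j))) (pderiv j P) * w (Sum.inr false) ^ 2 *
        w (Sum.inr true) := by
  rw [q4, map_sub, map_sub, eval_X, eval_C, map_mul, map_mul, eval_rename, map_pow, eval_X, eval_X]
  rfl

theorem cj_cj (P : MvPolynomial (Fin d) ℂ) : cj (cj P) = P := by
  rw [cj, cj, map_map]
  have : (starRingEnd ℂ).comp (starRingEnd ℂ) = RingHom.id ℂ := by
    ext x
    simp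
  rw [this, map_id]

theorem conj_eval' (P : MvPolynomial (Fin d) ℂ) (z : Fin d → ℂ) :
    eval (fun i => (starRingEnd ℂ) (z i)) (cj P) = (starRingEnd ℂ) (eval z P) :=
  conj_eval P z

theorem conj_eval2 (P : MvPolynomial (Fin d) ℂ) (z : Fin d → ℂ) :
    eval (fun i => (starRingEnd ℂ) (z i)) P = (starRingEnd ℂ) (eval z (cj P)) := by
  rw [← conj_eval' (cj P), cj_cj]

theorem io_q12 (P : MvPolynomial (Fin d) ℂ) (w : Un d → ℂ) :
    eval (io w) (q2 P) = (starRingEnd ℂ) (eval w (q1 P)) := by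
  rw [eval_q1, eval_q2, map_sub, map_mul, ← conj_eval', map_one]
  rfl

theorem io_q21 (P : MvPolynomial (Fin d) ℂ) (w : Un d → ℂ) :
    eval (io w) (q1 P) = (starRingEnd ℂ) (eval w (q2 P)) := by
  rw [← io_io w, io_q12, io_io, Complex.conj_conj]

theorem io_q34 (P : MvPolynomial (Fin d) ℂ) (a : Fin d → ℂ) (j : Fin d) (w : Un d → ℂ) :
    eval (io w) (q4 P a j) = (starRingEnd ℂ) (eval w (q3 P a j)) := by
  rw [eval_q3, eval_q4, map_sub, map_sub, map_mul, map_mul, map_pow, pderiv_cj, ← conj_eval2]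
  rfl

theorem io_q43 (P : MvPolynomial (Fin d) ℂ) (a : Fin d → ℂ) (j : Fin d) (w : Un d → ℂ) :
    eval (io w) (q3 P a j) = (starRingEnd ℂ) (eval w (q4 P a j)) := by
  rw [← io_io w, io_q34, io_io, Complex.conj_conj]

/-- the directional derivative -/
noncomputable def dd (p : MvPolynomial (Un d) ℂ) (z v : Un d → ℂ) : ℂ :=
  ∑ i, v i * eval z (pderiv i p)

theorem dd_add (p : MvPolynomial (Un d) ℂ) (z v w : Un d → ℂ) :
    dd p z (v + w) = dd p z v + dd p z w := by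
  simp only [dd, Pi.add_apply, add_mul, Finset.sum_add_distrib]

theorem dd_smul (p : MvPolynomial (Un d) ℂ) (z v : Un d → ℂ) (c : ℂ) :
    dd p z (c • v) = c * dd p z v := by
  simp only [dd, Pi.smul_apply, smul_eq_mul, mul_assoc, Finset.mul_sum]

theorem hasDeriv_line (v z : Un d → ℂ) (i : Un d) (t : ℝ) :
    HasDerivAt (fun r : ℝ => (z + (r : ℂ) • v) i) (v i) t := by
  have h1 : HasDerivAt (fun r : ℝ => (r : ℂ)) 1 t := Complex.ofRealCLM.hasDerivAt
  have h2 := (h1.mul_const (v i)).const_add (z i)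
  rw [one_mul] at h2
  exact h2

theorem hasDeriv_dd (p : MvPolynomial (Un d) ℂ) (z v : Un d → ℂ) :
    HasDerivAt (fun r : ℝ => eval (z + (r : ℂ) • v) p) (dd p z v) 0 := by
  have := hasDeriv_eval p (fun r : ℝ => z + (r : ℂ) • v) v 0 (fun i => hasDeriv_line v z i 0)
  simpa [dd] using this

/-- conjugation of derivatives -/
theorem dd_io (p p' : MvPolynomial (Un d) ℂ)
    (h : ∀ w, eval (io w) p' = (starRingEnd ℂ) (eval w p)) (z v : Un d → ℂ) :
    dd p' (io z) (io v) = (starRingEnd ℂ) (dd p z v) := by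
  have h1 := hasDeriv_dd p' (io z) (io v)
  have h2 : HasDerivAt (fun r : ℝ => (starRingEnd ℂ) (eval (z + (r : ℂ) • v) p))
      ((starRingEnd ℂ) (dd p z v)) 0 := by
    have := (hasDeriv_dd p z v)
    exact Complex.conjCLE.toContinuousLinearMap.hasFDerivAt.comp_hasDerivAt (0 : ℝ) this
  have h3 : (fun r : ℝ => (starRingEnd ℂ) (eval (z + (r : ℂ) • v) p)) =
      fun r : ℝ => eval (io z + (r : ℂ) • io v) p' := by
    funext r
    rw [← h, io_add, io_smul, Complex.conj_ofReal]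
  rw [h3] at h2
  exact h1.unique h2

/-- the point of the system -/
noncomputable def pt (P : MvPolynomial (Fin d) ℂ) (ζ : Fin d → ℂ) : Un d → ℂ :=
  Sum.elim (Sum.elim ζ (fun j => (starRingEnd ℂ) (ζ j)))
    (fun b => if b then (starRingEnd ℂ) (eval ζ P)⁻¹ else (eval ζ P)⁻¹)

theorem io_pt (P : MvPolynomial (Fin d) ℂ) (ζ : Fin d → ℂ) : io (pt P ζ) = pt P ζ := by
  ext i
  rcases i with (j | j) | (_ | _) <;> simp [io, pt]

/-- the map whose values are the `a` for which `ζ` is critical -/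
noncomputable def Psi (P : MvPolynomial (Fin d) ℂ) (ζ : Fin d → ℂ) : Fin d → ℂ :=
  fun j => ζ j - (starRingEnd ℂ) (eval ζ (pderiv j P)) * ((starRingEnd ℂ) (eval ζ P)⁻¹) ^ 2 *
    (eval ζ P)⁻¹

theorem eval_pt_q1 (P : MvPolynomial (Fin d) ℂ) (ζ : Fin d → ℂ) (h : eval ζ P ≠ 0) :
    eval (pt P ζ) (q1 P) = 0 := by
  rw [eval_q1]
  simp only [pt, Sum.elim_inl, Sum.elim_inr]
  simp [h]

theorem eval_pt_q2 (P : MvPolynomial (Fin d) ℂ) (ζ : Fin d → ℂ) (h : eval ζ P ≠ 0) :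
    eval (pt P ζ) (q2 P) = 0 := by
  rw [← io_pt, io_q12, eval_pt_q1 P ζ h, map_zero]

theorem eval_pt_q3 (P : MvPolynomial (Fin d) ℂ) (a : Fin d → ℂ) (ζ : Fin d → ℂ) (j : Fin d) :
    eval (pt P ζ) (q3 P a j) = Psi P ζ j - a j := by
  rw [eval_q3]
  simp only [pt, Sum.elim_inl, Sum.elim_inr, Psi, if_true]
  rw [pderiv_cj, conj_eval']
  simp
  ring

theorem eval_pt_q4 (P : MvPolynomial (Fin d) ℂ) (a : Fin d → ℂ) (ζ : Fin d → ℂ) (j : Fin d)
    (h : Psi P ζ = a) : eval (pt P ζ) (q4 P a j) = 0 := by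
  rw [← io_pt, io_q34, eval_pt_q3, h, sub_self, map_zero]

/-- the set of equations -/
def Eq (P : MvPolynomial (Fin d) ℂ) (a : Fin d → ℂ) : Set (MvPolynomial (Un d) ℂ) :=
  ({q1 P, q2 P} ∪ Set.range (q3 P a)) ∪ Set.range (q4 P a)

theorem finite_Eq (P : MvPolynomial (Fin d) ℂ) (a : Fin d → ℂ) : (Eq P a).Finite :=
  ((Set.toFinite _).union (Set.finite_range _)).union (Set.finite_range _)

theorem Eq_zero (P : MvPolynomial (Fin d) ℂ) (a : Fin d → ℂ) (ζ : Fin d → ℂ)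
    (h : eval ζ P ≠ 0) (ha : Psi P ζ = a) : ∀ p ∈ Eq P a, eval (pt P ζ) p = 0 := by
  intro p hp
  rcases hp with ((rfl | rfl) | ⟨j, rfl⟩) | ⟨j, rfl⟩
  · exact eval_pt_q1 P ζ h
  · exact eval_pt_q2 P ζ h
  · rw [eval_pt_q3, ha, sub_self]
  · exact eval_pt_q4 P a ζ j ha

/-- the derivative of `P` in the direction `h` -/
noncomputable def dP (P : MvPolynomial (Fin d) ℂ) (ζ h : Fin d → ℂ) : ℂ :=
  ∑ i, h i * eval ζ (pderiv i P)

theorem hasDeriv_lineF (v z : Fin d → ℂ) (i : Fin d) (t : ℝ) :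
    HasDerivAt (fun r : ℝ => (z + (r : ℂ) • v) i) (v i) t := by
  have h1 : HasDerivAt (fun r : ℝ => (r : ℂ)) 1 t := Complex.ofRealCLM.hasDerivAt
  have h2 := (h1.mul_const (v i)).const_add (z i)
  rw [one_mul] at h2
  exact h2

theorem hasDeriv_dP (P : MvPolynomial (Fin d) ℂ) (ζ h : Fin d → ℂ) :
    HasDerivAt (fun r : ℝ => eval (ζ + (r : ℂ) • h) P) (dP P ζ h) 0 := by
  have := hasDeriv_eval P (fun r : ℝ => ζ + (r : ℂ) • h) h 0 (fun i => hasDeriv_lineF h ζ i 0)
  simpa [dP] using this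

theorem dd_q1 (P : MvPolynomial (Fin d) ℂ) (z v : Un d → ℂ) :
    dd (q1 P) z v = v (Sum.inr false) * eval (fun j => z (Sum.inl (Sum.inl j))) P +
      z (Sum.inr false) * dP P (fun j => z (Sum.inl (Sum.inl j)))
        (fun j => v (Sum.inl (Sum.inl j))) := by
  have h1 := hasDeriv_dd (q1 P) z v
  have h2 := (hasDeriv_line v z (Sum.inr false) 0).mul
    (hasDeriv_dP P (fun j => z (Sum.inl (Sum.inl j))) (fun j => v (Sum.inl (Sum.inl j))))
  have h3 := h2.sub_const 1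
  have h4 : (fun r : ℝ => eval (z + (r : ℂ) • v) (q1 P)) = fun r : ℝ =>
      ((fun r : ℝ => (z + (r : ℂ) • v) (Sum.inr false)) *
        fun r : ℝ => eval ((fun j => z (Sum.inl (Sum.inl j))) +
          (r : ℂ) • fun j => v (Sum.inl (Sum.inl j))) P) r - 1 := by
    funext r
    rw [eval_q1]
    rfl
  rw [h4] at h1
  have h5 := h1.unique h3
  rw [h5]
  simp

theorem hasDeriv_pt (P : MvPolynomial (Fin d) ℂ) (ζ h : Fin d → ℂ) (hP : eval ζ P ≠ 0)
    (v : Un d → ℂ) (hv : io v = v) (hh : ∀ j, v (Sum.inl (Sum.inl j)) = h j)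
    (h1 : dd (q1 P) (pt P ζ) v = 0) (i : Un d) :
    HasDerivAt (fun r : ℝ => pt P (ζ + (r : ℂ) • h) i) (v i) 0 := by
  have hv1 : ∀ i, io v i = v i := fun i => by rw [hv]
  have hhh : (fun j => v (Sum.inl (Sum.inl j))) = h := funext hh
  have hu : v (Sum.inr false) = -(dP P ζ h) / (eval ζ P) ^ 2 := by
    rw [dd_q1, hhh] at h1
    have e1 : (fun j => pt P ζ (Sum.inl (Sum.inl j))) = ζ := rfl
    have e2 : pt P ζ (Sum.inr false) = (eval ζ P)⁻¹ := rfl
    rw [e1, e2] at h1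
    field_simp at h1
    rw [eq_div_iff (pow_ne_zero 2 hP)]
    linear_combination h1
  have hs : HasDerivAt (fun r : ℝ => (eval (ζ + (r : ℂ) • h) P)⁻¹) (v (Sum.inr false)) 0 := by
    have h2 := (hasDeriv_dP P ζ h).fun_inv (by simpa using hP)
    rw [hu]
    simpa using h2
  rcases i with (j | j) | (_ | _)
  · have := hasDeriv_lineF h ζ j 0
    rw [hh]
    exact this
  · have h2 := hasDeriv_lineF h ζ j 0
    have h3 := Complex.conjCLE.toContinuousLinearMap.hasFDerivAt.comp_hasDerivAt (0 : ℝ) h2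
    have h4 : v (Sum.inl (Sum.inr j)) = (starRingEnd ℂ) (h j) := by
      rw [← hv1, ← hh]
      rfl
    rw [h4]
    exact h3
  · exact hs
  · have h3 := Complex.conjCLE.toContinuousLinearMap.hasFDerivAt.comp_hasDerivAt (0 : ℝ) hs
    have h4 : v (Sum.inr true) = (starRingEnd ℂ) (v (Sum.inr false)) := by
      rw [← hv1]
      rfl
    rw [h4]
    exact h3

theorem diff_Psi (P : MvPolynomial (Fin d) ℂ) (ζ : Fin d → ℂ) (hP : eval ζ P ≠ 0) :
    DifferentiableAt ℝ (Psi P) ζ := by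
  rw [differentiableAt_pi]
  intro j
  unfold Psi
  have hc : ∀ g : (Fin d → ℂ) → ℂ, DifferentiableAt ℝ g ζ →
      DifferentiableAt ℝ (fun w => (starRingEnd ℂ) (g w)) ζ := by
    intro g hg
    exact Complex.conjCLE.toContinuousLinearMap.differentiableAt.comp ζ hg
  refine (differentiableAt_apply j ζ).sub ?_
  have hi : DifferentiableAt ℝ (fun w => (eval w P)⁻¹) ζ := (diff_eval P ζ).fun_inv hP
  exact ((hc _ (diff_eval (pderiv j P) ζ)).mul ((hc _ hi).pow 2)).mul hi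

theorem line_diff {W : Type} [NormedAddCommGroup W] [NormedSpace ℝ W] (g : (Fin d → ℂ) → W)
    (ζ h : Fin d → ℂ) (hg : DifferentiableAt ℝ g ζ) :
    HasDerivAt (fun r : ℝ => g (ζ + (r : ℂ) • h)) (fderiv ℝ g ζ h) 0 := by
  have h1 : HasDerivAt (fun r : ℝ => ζ + (r : ℂ) • h) h 0 := by
    rw [hasDerivAt_pi]
    intro i
    exact hasDeriv_lineF h ζ i 0
  have h2 : HasFDerivAt g (fderiv ℝ g ζ) (ζ + ((0 : ℝ) : ℂ) • h) := by
    simpa using hg.hasFDerivAt
  exact h2.comp_hasDerivAt (0 : ℝ) h1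

/-- nondegeneracy for vectors fixed by the involution -/
theorem nondeg_fix (P : MvPolynomial (Fin d) ℂ) (a : Fin d → ℂ) (ζ : Fin d → ℂ)
    (hP : eval ζ P ≠ 0) (hdet : (fderiv ℝ (Psi P) ζ).det ≠ 0)
    (v : Un d → ℂ) (hv : io v = v) (hE : ∀ p ∈ Eq P a, dd p (pt P ζ) v = 0) : v = 0 := by
  obtain ⟨h, hh⟩ : ∃ h : Fin d → ℂ, ∀ j, v (Sum.inl (Sum.inl j)) = h j := ⟨_, fun _ => rfl⟩
  have hq1 : dd (q1 P) (pt P ζ) v = 0 := hE _ (by simp [Eq])
  have hG := hasDeriv_pt P ζ h hP v hv hh hq1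
  have hh0 : h = 0 := by
    have h1 : fderiv ℝ (Psi P) ζ h = 0 := by
      ext j
      have h2 := line_diff (Psi P) ζ h (diff_Psi P ζ hP)
      rw [hasDerivAt_pi] at h2
      have h3 := hasDeriv_eval (q3 P a j) (fun r : ℝ => pt P (ζ + (r : ℂ) • h)) v 0 hG
      have h4 : (∑ i, v i * eval (pt P (ζ + ((0 : ℝ) : ℂ) • h)) (pderiv i (q3 P a j))) = 0 := by
        have := hE (q3 P a j) (by simp [Eq])
        simpa [dd] using this
      rw [h4] at h3
      simp only [eval_pt_q3] at h3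
      have h5 := (h2 j).sub_const (a j)
      exact h5.unique h3
    have hinj : Function.Injective (fderiv ℝ (Psi P) ζ : (Fin d → ℂ) →ₗ[ℝ] (Fin d → ℂ)) := by
      exact (LinearMap.equivOfDetNeZero
        (fderiv ℝ (Psi P) ζ : (Fin d → ℂ) →ₗ[ℝ] (Fin d → ℂ)) hdet).injective
    exact hinj (by simpa using h1)
  have hv1 : ∀ i, io v i = v i := fun i => by rw [hv]
  have hz : ∀ i, v i = 0 := by
    intro i
    have h6 := hG i
    rw [hh0] at h6
    simp only [smul_zero, add_zero] at h6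
    exact h6.unique (hasDerivAt_const (0 : ℝ) _)
  exact funext hz

theorem nondeg (P : MvPolynomial (Fin d) ℂ) (a : Fin d → ℂ) (ζ : Fin d → ℂ)
    (hP : eval ζ P ≠ 0) (hdet : (fderiv ℝ (Psi P) ζ).det ≠ 0)
    (v : Un d → ℂ) (hE : ∀ p ∈ Eq P a, dd p (pt P ζ) v = 0) : v = 0 := by
  have key : ∀ v : Un d → ℂ, (∀ p ∈ Eq P a, dd p (pt P ζ) v = 0) → v + io v = 0 := by
    intro v hE
    refine nondeg_fix P a ζ hP hdet (v + io v) (by rw [io_add, io_io, add_comm]) ?_
    intro p hp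
    rw [dd_add, hE p hp, zero_add]
    have hz := io_pt P ζ
    rcases hp with ((rfl | rfl) | ⟨j, rfl⟩) | ⟨j, rfl⟩
    · rw [← hz, dd_io _ _ (io_q21 P), hE _ (by simp [Eq]), map_zero]
    · rw [← hz, dd_io _ _ (io_q12 P), hE _ (by simp [Eq]), map_zero]
    · rw [← hz, dd_io _ _ (io_q43 P a j), hE _ (by simp [Eq]), map_zero]
    · rw [← hz, dd_io _ _ (io_q34 P a j), hE _ (by simp [Eq]), map_zero]
  have h1 := key v hE
  have h2 := key (Complex.I • v) (fun p hp => by rw [dd_smul, hE p hp, mul_zero])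
  rw [io_smul, Complex.conj_I, neg_smul, ← sub_eq_add_neg, ← smul_sub] at h2
  have h3 : v - io v = 0 := (smul_eq_zero.mp h2).resolve_left Complex.I_ne_zero
  have h4 : (2 : ℂ) • v = 0 := by
    rw [two_smul]
    calc v + v = (v + io v) + (v - io v) := by abel
      _ = 0 := by rw [h1, h3, add_zero]
  exact (smul_eq_zero.mp h4).resolve_left two_ne_zero

/-- the function -/
noncomputable def phi (P : MvPolynomial (Fin d) ℂ) (a : Fin d → ℂ) (ζ : Fin d → ℂ) : ℝ :=
  ∑ i, ‖ζ i - a i‖ ^ 2 + (‖eval ζ P‖ ^ 2)⁻¹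

theorem diff_phi (P : MvPolynomial (Fin d) ℂ) (a : Fin d → ℂ) (ζ : Fin d → ℂ)
    (hP : eval ζ P ≠ 0) : DifferentiableAt ℝ (phi P a) ζ := by
  unfold phi
  refine DifferentiableAt.add ?_ ?_
  · refine DifferentiableAt.fun_sum fun i _ => ?_
    exact ((differentiableAt_apply i ζ).sub_const (a i)).norm_sq ℝ
  · refine DifferentiableAt.fun_inv ?_ (pow_ne_zero 2 (norm_ne_zero_iff.mpr hP))
    exact (diff_eval P ζ).norm_sq ℝ

theorem deriv_phi (P : MvPolynomial (Fin d) ℂ) (a : Fin d → ℂ) (ζ : Fin d → ℂ)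
    (hP : eval ζ P ≠ 0) (h : Fin d → ℂ) :
    fderiv ℝ (phi P a) ζ h = ∑ i, 2 * inner ℝ (ζ i - a i) (h i) -
      (2 * inner ℝ (eval ζ P) (dP P ζ h)) / (‖eval ζ P‖ ^ 2) ^ 2 := by
  have h1 := line_diff (phi P a) ζ h (diff_phi P a ζ hP)
  have h2 : HasDerivAt (fun r : ℝ => ∑ i, ‖(ζ + (r : ℂ) • h) i - a i‖ ^ 2)
      (∑ i, 2 * inner ℝ (ζ i - a i) (h i)) 0 := by
    refine HasDerivAt.fun_sum fun i _ => ?_
    have := ((hasDeriv_lineF h ζ i 0).sub_const (a i)).norm_sq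
    simpa using this
  have h3 := ((hasDeriv_dP P ζ h).norm_sq).fun_inv (by simpa using hP)
  have h4 := h2.add h3
  have h5 := h1.unique h4
  rw [h5]
  simp [neg_div]
  ring

theorem crit_Psi (P : MvPolynomial (Fin d) ℂ) (a : Fin d → ℂ) (ζ : Fin d → ℂ)
    (hP : eval ζ P ≠ 0) (h0 : fderiv ℝ (phi P a) ζ = 0) : Psi P ζ = a := by
  ext j
  have key : ∀ c : ℂ, inner ℝ (ζ j - a j) c -
      inner ℝ (eval ζ P) (c * eval ζ (pderiv j P)) / (‖eval ζ P‖ ^ 2) ^ 2 = 0 := by
    intro c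
    have h1 := deriv_phi P a ζ hP (Pi.single j c)
    rw [h0] at h1
    have h2 : dP P ζ (Pi.single j c) = c * eval ζ (pderiv j P) := by
      rw [dP, Finset.sum_eq_single j]
      · rw [Pi.single_eq_same]
      · intro b _ hb
        rw [Pi.single_eq_of_ne hb, zero_mul]
      · intro hj
        exact absurd (Finset.mem_univ _) hj
    have h3 : (∑ i, 2 * inner ℝ (ζ i - a i) ((Pi.single j c : Fin d → ℂ) i)) =
        2 * inner ℝ (ζ j - a j) c := by
      rw [Finset.sum_eq_single j]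
      · rw [Pi.single_eq_same]
      · intro b _ hb
        rw [Pi.single_eq_of_ne hb, inner_zero_right, mul_zero]
      · intro hj
        exact absurd (Finset.mem_univ _) hj
    rw [h2, h3] at h1
    have h4 : (0 : (Fin d → ℂ) →L[ℝ] ℝ) (Pi.single j c) = 0 := rfl
    rw [h4] at h1
    linarith [h1, mul_div_assoc (2 : ℝ) (inner ℝ (eval ζ P) (c * eval ζ (pderiv j P)))
      ((‖eval ζ P‖ ^ 2) ^ 2)]
  -- the complex number
  set p := eval ζ P with hp
  set q := eval ζ (pderiv j P) with hq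
  have hw : ∀ c : ℂ, inner ℝ (ζ j - a j - (starRingEnd ℂ) q * p / ((‖p‖ ^ 2) ^ 2 : ℝ)) c = 0 := by
    intro c
    have h1 := key c
    rw [inner_sub_left, sub_eq_zero.mp h1, sub_eq_zero, Complex.inner, Complex.inner]
    have h2 : c * (starRingEnd ℂ) ((starRingEnd ℂ) q * p / ((‖p‖ ^ 2) ^ 2 : ℝ)) =
        (c * q * (starRingEnd ℂ) p) / ((‖p‖ ^ 2) ^ 2 : ℝ) := by
      rw [map_div₀, map_mul, Complex.conj_conj, Complex.conj_ofReal]
      ring
    rw [h2, Complex.div_ofReal_re]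
  have h5 := hw (ζ j - a j - (starRingEnd ℂ) q * p / ((‖p‖ ^ 2) ^ 2 : ℝ))
  rw [inner_self_eq_zero] at h5
  have hpp : (((‖p‖ ^ 2) ^ 2 : ℝ) : ℂ) = (p * (starRingEnd ℂ) p) ^ 2 := by
    rw [Complex.mul_conj, Complex.normSq_eq_norm_sq]
    push_cast
    ring
  rw [hpp] at h5
  have hc : (starRingEnd ℂ) p ≠ 0 := by
    simpa using hP
  have h6 : (starRingEnd ℂ) q * p / (p * (starRingEnd ℂ) p) ^ 2 =
      (starRingEnd ℂ) q * ((starRingEnd ℂ) p⁻¹) ^ 2 * p⁻¹ := by
    rw [map_inv₀]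
    field_simp
  rw [h6] at h5
  rw [Psi, ← hp, ← hq]
  linear_combination h5

theorem pt_injective (P : MvPolynomial (Fin d) ℂ) : Function.Injective (pt P) := by
  intro z w h
  ext j
  exact congrFun h (Sum.inl (Sum.inl j))

theorem finite_crit (hN : S_N) (P : MvPolynomial (Fin d) ℂ) (a : Fin d → ℂ)
    (hdet : ∀ ζ, eval ζ P ≠ 0 → Psi P ζ = a → (fderiv ℝ (Psi P) ζ).det ≠ 0) :
    {ζ : Fin d → ℂ | eval ζ P ≠ 0 ∧ Psi P ζ = a}.Finite := by
  classical
  obtain ⟨D, hD⟩ := ((finite_Eq P a).image (fun p => p.totalDegree)).bddAbove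
  by_contra hinf
  obtain ⟨F, hF, hFc⟩ := (Set.not_finite.mp hinf).exists_subset_card_eq
    ((D + 1) ^ Fintype.card (Un d) + 1)
  have h1 := hN (Un d) D (Eq P a) (fun p hp => hD ⟨p, hp, rfl⟩) (F.image (pt P)) (by
    intro z hz p hp
    obtain ⟨ζ, hζ, rfl⟩ := Finset.mem_image.mp hz
    exact Eq_zero P a ζ (hF hζ).1 (hF hζ).2 p hp) (by
    intro z hz v hv
    obtain ⟨ζ, hζ, rfl⟩ := Finset.mem_image.mp hz
    by_contra hcon
    push Not at hcon
    exact hv (nondeg P a ζ (hF hζ).1 (hdet ζ (hF hζ).1 (hF hζ).2) v hcon))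
  rw [Finset.card_image_of_injective _ (pt_injective P), hFc] at h1
  omega

theorem exists_good (P : MvPolynomial (Fin d) ℂ) : ∃ a : Fin d → ℂ,
    ∀ ζ, eval ζ P ≠ 0 → Psi P ζ = a → (fderiv ℝ (Psi P) ζ).det ≠ 0 := by
  by_contra hcon
  push Not at hcon
  have h1 := MeasureTheory.addHaar_image_eq_zero_of_det_fderivWithin_eq_zero
    (μ := (volume : Measure (Fin d → ℂ))) (f := Psi P) (f' := fun ζ => fderiv ℝ (Psi P) ζ)
    (s := {ζ | eval ζ P ≠ 0 ∧ (fderiv ℝ (Psi P) ζ).det = 0})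
    (fun ζ hζ => (diff_Psi P ζ hζ.1).hasFDerivAt.hasFDerivWithinAt) (fun ζ hζ => hζ.2)
  have h2 : Psi P '' {ζ | eval ζ P ≠ 0 ∧ (fderiv ℝ (Psi P) ζ).det = 0} = Set.univ := by
    rw [Set.eq_univ_iff_forall]
    intro a
    obtain ⟨ζ, h3, h4, h5⟩ := hcon a
    exact ⟨ζ, ⟨h3, h5⟩, h4⟩
  rw [h2] at h1
  exact (isOpen_univ.measure_ne_zero (volume : Measure (Fin d → ℂ)) Set.univ_nonempty) h1

end Cr

theorem Crit (hN : S_N) : S_Crit := by
  intro d P hP0
  obtain ⟨a, ha⟩ := Cr.exists_good P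
  have hfin := Cr.finite_crit hN P a ha
  obtain ⟨c₀, hc⟩ := (hfin.image (Cr.phi P a)).bddAbove
  refine ⟨a, c₀, fun ζ hP hlt h0 => ?_⟩
  have h1 := Cr.crit_Psi P a ζ hP h0
  have h2 := hc ⟨ζ, ⟨hP, h1⟩, rfl⟩
  exact absurd hlt (not_lt.mpr h2)

end Pool.Agent.R848
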