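import Pool.Agent.R848.Stm

/-! Block H: half balls. -/

set_option autoImplicit false

open Set Filter Topology Metric

namespace Pool.Agent.R848

theorem H : S_H := by
  intro V _ _ _ φ x hφ hne N hN
  have hstrict : HasStrictFDerivAt φ (fderiv ℝ φ x) x := hφ.hasStrictFDerivAt one_ne_zero
  have hrange : (fderiv ℝ φ x).range = ⊤ := by
    obtain ⟨u, hu⟩ : ∃ u, fderiv ℝ φ x u ≠ 0 := by
      by_contra hcon
      push Not at hcon
      exact hne (ContinuousLinearMap.ext hcon)
    rw [eq_top_iff]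
    intro t _
    refine ⟨(t / fderiv ℝ φ x u) • u, ?_⟩
    simp [hu]
  haveI : CompleteSpace V := FiniteDimensional.complete ℝ V
  set e := hstrict.implicitToOpenPartialHomeomorph φ (fderiv ℝ φ x) hrange with he
  have hex : e x = (φ x, 0) := hstrict.implicitToOpenPartialHomeomorph_self hrange
  have hxs : x ∈ e.source := hstrict.mem_implicitToOpenPartialHomeomorph_source hrange
  have hfst : ∀ y, (e y).1 = φ y := fun y =>
    hstrict.implicitToOpenPartialHomeomorph_fst hrange y
  have hxt : (φ x, (0 : (fderiv ℝ φ x).ker)) ∈ e.target := by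
    rw [← hex]; exact e.map_source hxs
  have hsymm : e.symm (φ x, 0) = x := by rw [← hex]; exact e.left_inv hxs
  have hpre : e.target ∩ e.symm ⁻¹' N ∈ 𝓝 ((φ x, 0) : ℝ × (fderiv ℝ φ x).ker) := by
    refine inter_mem (e.open_target.mem_nhds hxt) ?_
    have hc : ContinuousAt e.symm (φ x, 0) := e.continuousAt_symm hxt
    apply hc
    rw [hsymm]; exact hN
  obtain ⟨r, hr, hball⟩ := Metric.mem_nhds_iff.1 hpre
  set B := ball ((φ x, 0) : ℝ × (fderiv ℝ φ x).ker) r with hB
  have hBt : B ⊆ e.target := fun p hp => (hball hp).1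
  have himg : e.symm '' B = e.source ∩ e ⁻¹' B := by
    ext y
    constructor
    · rintro ⟨p, hp, rfl⟩
      exact ⟨e.map_target (hBt hp), by show e (e.symm p) ∈ B; rw [e.right_inv (hBt hp)]; exact hp⟩
    · rintro ⟨hy, hy'⟩
      exact ⟨e y, hy', e.left_inv hy⟩
  have hopen : IsOpen (e.symm '' B) := by
    rw [himg]; exact e.isOpen_inter_preimage isOpen_ball
  have hφs : ∀ p ∈ B, φ (e.symm p) = p.1 := by
    intro p hp
    rw [← hfst, e.right_inv (hBt hp)]
  have hinter : e.symm '' B ∩ {y | φ y < φ x} = e.symm '' (B ∩ {p | p.1 < φ x}) := by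
    ext y
    constructor
    · rintro ⟨⟨p, hp, rfl⟩, hy⟩
      refine ⟨p, ⟨hp, ?_⟩, rfl⟩
      have := hφs p hp
      simp only [mem_setOf_eq] at hy ⊢
      rwa [this] at hy
    · rintro ⟨p, ⟨hp, hp'⟩, rfl⟩
      refine ⟨⟨p, hp, rfl⟩, ?_⟩
      simp only [mem_setOf_eq] at hp' ⊢
      rwa [hφs p hp]
  refine ⟨e.symm '' B, hopen.mem_nhds ⟨(φ x, 0), mem_ball_self hr, hsymm⟩, ?_, ?_, ?_⟩
  · rintro y ⟨p, hp, rfl⟩
    exact (hball hp).2
  · rw [hinter]
    refine ⟨_, (φ x - r / 2, 0), ⟨?_, ?_⟩, rfl⟩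
    · rw [hB, mem_ball, Prod.dist_eq]
      simp only [dist_self, Real.dist_eq]
      rw [max_lt_iff]
      refine ⟨?_, hr⟩
      rw [show φ x - r / 2 - φ x = -(r / 2) by ring, abs_neg, abs_of_pos (by linarith)]
      linarith
    · show φ x - r / 2 < φ x
      linarith
  · rw [hinter]
    refine IsPreconnected.image ?_ _ ?_
    · refine Convex.isPreconnected ?_
      refine (convex_ball _ _).inter ?_
      exact convex_halfSpace_lt (ContinuousLinearMap.fst ℝ ℝ (fderiv ℝ φ x).ker).toLinearMap.isLinear _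
    · exact e.continuousOn_symm.mono (inter_subset_left.trans hBt)

end Pool.Agent.R848
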