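import Pool.Agent.R848.Stm
import Pool.Agent.Lev.J_schottky

/-! Block L: growth of logarithms of functions omitting `0` and `1` in a half plane. -/

set_option autoImplicit false

open Set Filter Topology Metric

namespace Pool.Agent.R848

open Complex in
theorem exists_cos_ctrl_at {f : ℂ → ℂ} (hf : DifferentiableOn ℂ f (ball 0 1))
    (h1 : ∀ z ∈ ball (0:ℂ) 1, f z ≠ 1) (h2 : ∀ z ∈ ball (0:ℂ) 1, f z ≠ -1)
    {z₁ : ℂ} (hz₁ : z₁ ∈ ball (0:ℂ) 1) :
    ∃ g : ℂ → ℂ, DifferentiableOn ℂ g (ball 0 1) ∧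
      (∀ z ∈ ball (0:ℂ) 1, Complex.cos (Real.pi * g z) = f z) ∧ ‖g z₁‖ ≤ 1 + ‖f z₁‖ := by
  obtain ⟨g, hg, hg'⟩ := Lev.J_schottky.exists_cos hf h1 h2
  set k : ℤ := round ((g z₁).re / 2) with hk
  have hcos : ∀ z ∈ ball (0:ℂ) 1, Complex.cos (Real.pi * (g z - 2 * k)) = f z := by
    intro z hz
    rw [← hg' z hz]
    have : (Real.pi : ℂ) * (g z - 2 * k) = Real.pi * g z - k * (2 * Real.pi) := by ring
    rw [this, Complex.cos_sub_int_mul_two_pi]
  refine ⟨fun z => g z - 2 * k, hg.sub_const _, hcos, ?_⟩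
  have hc0 := hcos z₁ hz₁
  set w : ℂ := g z₁ - 2 * k with hw
  have hre : |w.re| ≤ 1 := by
    have h3 : |(g z₁).re / 2 - k| ≤ 1 / 2 := abs_sub_round _
    have h4 : w.re = (g z₁).re - 2 * k := by simp [hw]
    rw [h4]
    rw [abs_le] at h3 ⊢
    constructor <;> linarith [h3.1, h3.2]
  have him : |w.im| ≤ ‖f z₁‖ := by
    rw [← hc0]
    have e : (Real.pi : ℂ) * w = ((Real.pi * w.re : ℝ) : ℂ) + ((Real.pi * w.im : ℝ) : ℂ) * I := by
      apply Complex.ext <;> simp
    have hcr : (Complex.cos (Real.pi * w)).re = Real.cos (Real.pi * w.re) * Real.cosh (Real.pi * w.im) := by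
      rw [e]
      generalize Real.pi * w.re = p
      generalize Real.pi * w.im = q
      rw [Complex.cos_add, Complex.cos_mul_I, Complex.sin_mul_I]
      rw [← Complex.ofReal_cosh, ← Complex.ofReal_sinh, ← Complex.ofReal_cos, ← Complex.ofReal_sin]
      simp only [Complex.sub_re, Complex.sub_im, Complex.mul_re, Complex.mul_im, Complex.ofReal_re,
        Complex.ofReal_im, Complex.I_re, Complex.I_im]
      ring
    have hci : (Complex.cos (Real.pi * w)).im = - (Real.sin (Real.pi * w.re) * Real.sinh (Real.pi * w.im)) := by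
      rw [e]
      generalize Real.pi * w.re = p
      generalize Real.pi * w.im = q
      rw [Complex.cos_add, Complex.cos_mul_I, Complex.sin_mul_I]
      rw [← Complex.ofReal_cosh, ← Complex.ofReal_sinh, ← Complex.ofReal_cos, ← Complex.ofReal_sin]
      simp only [Complex.sub_re, Complex.sub_im, Complex.mul_re, Complex.mul_im, Complex.ofReal_re,
        Complex.ofReal_im, Complex.I_re, Complex.I_im]
      ring
    have hsq : ‖Complex.cos (Real.pi * w)‖ ^ 2 = Real.cos (Real.pi * w.re) ^ 2 + Real.sinh (Real.pi * w.im) ^ 2 := by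
      rw [Complex.sq_norm, Complex.normSq_apply, hcr, hci]
      have a1 := Real.cosh_sq (Real.pi * w.im)
      have a2 := Real.sin_sq_add_cos_sq (Real.pi * w.re)
      have : Real.sin (Real.pi * w.re) ^ 2 = 1 - Real.cos (Real.pi * w.re) ^ 2 := by linarith
      calc _ = Real.cos (Real.pi * w.re) ^ 2 * Real.cosh (Real.pi * w.im) ^ 2 + Real.sin (Real.pi * w.re) ^ 2 * Real.sinh (Real.pi * w.im) ^ 2 := by ring
        _ = _ := by rw [a1, this]; ring
    have h5 : |Real.sinh (Real.pi * w.im)| ≤ ‖Complex.cos (Real.pi * w)‖ := by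
      apply abs_le_of_sq_le_sq _ (norm_nonneg _)
      rw [hsq]; nlinarith [sq_nonneg (Real.cos (Real.pi * w.re))]
    have h6 : |w.im| ≤ |Real.sinh (Real.pi * w.im)| := by
      rw [Real.abs_sinh, abs_mul, abs_of_pos Real.pi_pos]
      have h7 : Real.pi * |w.im| ≤ Real.sinh (Real.pi * |w.im|) := Real.self_le_sinh_iff.2 (by positivity)
      have h8 : |w.im| ≤ Real.pi * |w.im| := by nlinarith [Real.pi_gt_three, abs_nonneg w.im]
      linarith
    exact h6.trans h5
  have := Complex.norm_le_abs_re_add_abs_im w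
  show ‖w‖ ≤ _
  linarith

theorem L : S_L := by
  intro M
  refine ⟨2 * Real.pi * Real.exp (Real.pi * (1 + M)), 96 * Real.pi, ?_⟩
  intro x hx L hL hexp hM
  have hx0 : 0 < x := by linarith
  have hxc : (x : ℂ) ≠ 0 := by exact_mod_cast hx0.ne'
  have hpi := Real.pi_pos
  have hpi3 := Real.pi_gt_three
  have hpic : (Real.pi : ℂ) ≠ 0 := by exact_mod_cast hpi.ne'
  -- the function on the unit disc
  set f : ℂ → ℂ := fun z => L (x + x * z) / (2 * Real.pi * Complex.I) with hf
  have hmaps : ∀ z ∈ ball (0:ℂ) 1, (x:ℂ) + x * z ∈ ball (x:ℂ) x := by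
    intro z hz
    rw [mem_ball_zero_iff] at hz
    rw [mem_ball, dist_eq_norm]
    have : (x:ℂ) + x * z - x = x * z := by ring
    rw [this, norm_mul, Complex.norm_real, Real.norm_eq_abs, abs_of_pos hx0]
    nlinarith
  have hfd : DifferentiableOn ℂ f (ball 0 1) := by
    have h1 : DifferentiableOn ℂ (fun z : ℂ => (x:ℂ) + x * z) (ball 0 1) := by fun_prop
    exact (hL.comp h1 hmaps).div_const _
  have hint : ∀ z ∈ ball (0:ℂ) 1, ∀ n : ℤ, f z ≠ n := by
    intro z hz n h
    apply hexp _ (hmaps z hz)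
    have h2 : L (x + x * z) = n * (2 * Real.pi * Complex.I) := by
      have h3 : L (x + x * z) / (2 * Real.pi * Complex.I) = n := h
      rw [div_eq_iff (by simp [hpic])] at h3
      exact h3
    rw [h2]
    exact Complex.exp_int_mul_two_pi_mul_I n
  set z₁ : ℂ := (((1 - x) / x : ℝ) : ℂ) with hz₁
  have hn₁ : ‖z₁‖ = (x - 1) / x := by
    rw [hz₁, Complex.norm_real, Real.norm_eq_abs, abs_of_nonpos]
    · ring
    · apply div_nonpos_of_nonpos_of_nonneg <;> linarith
  have hz₁m : z₁ ∈ ball (0:ℂ) 1 := by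
    rw [mem_ball_zero_iff, hn₁, div_lt_one hx0]; linarith
  obtain ⟨g, hg, hg', hg₁⟩ := exists_cos_ctrl_at hfd (fun z hz => by simpa using hint z hz 1)
    (fun z hz => by simpa using hint z hz (-1)) hz₁m
  have hom : ∀ v : ℂ, ∃ w, dist w v < 2 ∧ ∀ z ∈ ball (0:ℂ) 1, g z ≠ w := by
    intro v
    obtain ⟨w, hw, n, hn⟩ := Lev.J_schottky.net v
    refine ⟨w, hw, fun z hz h => ?_⟩
    apply hint z hz n
    rw [← hg' z hz, h, hn]
  have hbl : ∀ z ∈ ball (0:ℂ) 1, ‖deriv g z‖ * (1 - ‖z‖) ≤ 96 := by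
    intro z hz
    have hz1 : ‖z‖ < 1 := by simpa using hz
    have ht : Tendsto (fun R : ℝ => ‖deriv g z‖ * (R - ‖z‖)) (𝓝[<] 1)
        (𝓝 (‖deriv g z‖ * (1 - ‖z‖))) := by
      have : Continuous (fun R : ℝ => ‖deriv g z‖ * (R - ‖z‖)) := by fun_prop
      exact (this.tendsto 1).mono_left nhdsWithin_le_nhds
    refine le_of_tendsto ht ?_
    filter_upwards [Ioo_mem_nhdsLT hz1] with R hR
    have := Lev.J_schottky.bloch_aux hg two_pos hom hR.2 (z := z) hR.1.le
    linarith
  -- the real path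
  have hpath : ∀ s ∈ Icc (1:ℝ) x, ‖(((s - x) / x : ℝ) : ℂ)‖ = (x - s) / x := by
    intro s hs
    rw [Complex.norm_real, Real.norm_eq_abs, abs_of_nonpos]
    · ring
    · apply div_nonpos_of_nonpos_of_nonneg <;> linarith [hs.2]
  have hpm : ∀ s ∈ Icc (1:ℝ) x, (((s - x) / x : ℝ) : ℂ) ∈ ball (0:ℂ) 1 := by
    intro s hs
    rw [mem_ball_zero_iff, hpath s hs, div_lt_one hx0]; linarith [hs.1]
  have hder : ∀ s ∈ Icc (1:ℝ) x, HasDerivAt (fun s : ℝ => g (((s - x) / x : ℝ) : ℂ) - g z₁)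
      (deriv g (((s - x) / x : ℝ) : ℂ) * ((1 / x : ℝ) : ℂ)) s := by
    intro s hs
    have h1 : HasDerivAt g (deriv g (((s - x) / x : ℝ) : ℂ)) (((s - x) / x : ℝ) : ℂ) :=
      (hg.differentiableAt (isOpen_ball.mem_nhds (hpm s hs))).hasDerivAt
    have h2 : HasDerivAt (fun s : ℝ => (((s - x) / x : ℝ) : ℂ)) ((1 / x : ℝ) : ℂ) s :=
      (((hasDerivAt_id s).sub_const x).div_const x).ofReal_comp
    exact (h1.comp s h2).sub_const _
  have hgrow := image_norm_le_of_norm_deriv_right_le_deriv_boundary'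
    (f := fun s : ℝ => g (((s - x) / x : ℝ) : ℂ) - g z₁)
    (f' := fun s : ℝ => deriv g (((s - x) / x : ℝ) : ℂ) * ((1 / x : ℝ) : ℂ))
    (a := 1) (b := x) (B := fun s => 96 * Real.log s) (B' := fun s => 96 * s⁻¹)
    (fun s hs => (hder s hs).continuousAt.continuousWithinAt)
    (fun s hs => (hder s (Ico_subset_Icc_self hs)).hasDerivWithinAt)
    (by simp [hz₁])
    (by
      intro s hs
      exact ((Real.continuousAt_log (by linarith [hs.1])).const_mul 96).continuousWithinAt)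
    (by
      intro s hs
      exact ((Real.hasDerivAt_log (by linarith [hs.1])).const_mul 96).hasDerivWithinAt)
    (by
      intro s hs
      have hs' : s ∈ Icc (1:ℝ) x := Ico_subset_Icc_self hs
      have hs0 : 0 < s := by linarith [hs.1]
      have h1 := hbl _ (hpm s hs')
      rw [hpath s hs'] at h1
      have h2 : (1 : ℝ) - (x - s) / x = s / x := by field_simp; ring
      rw [h2] at h1
      rw [norm_mul, Complex.norm_real, Real.norm_eq_abs, abs_of_pos (by positivity)]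
      rw [← div_eq_mul_inv, le_div_iff₀ hs0]
      calc _ = ‖deriv g (((s - x) / x : ℝ) : ℂ)‖ * (s / x) := by ring
        _ ≤ 96 := h1)
  have hend := hgrow (x := x) ⟨hx, le_rfl⟩
  simp only [sub_self, zero_div, Complex.ofReal_zero] at hend
  have hf0 : f 0 = L x / (2 * Real.pi * Complex.I) := by simp [hf]
  have hf1 : f z₁ = L 1 / (2 * Real.pi * Complex.I) := by
    rw [hf, hz₁]
    have : (x:ℂ) + x * (((1 - x) / x : ℝ) : ℂ) = 1 := by
      push_cast; field_simp; ring
    simp only [this]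
  have hden : ‖(2 * Real.pi * Complex.I : ℂ)‖ = 2 * Real.pi := by
    rw [norm_mul, norm_mul, Complex.norm_I, Complex.norm_real, Real.norm_eq_abs,
      abs_of_pos hpi]; simp
  have hM0 : 0 ≤ M := (norm_nonneg _).trans hM
  have hf1n : ‖f z₁‖ ≤ M := by
    rw [hf1, norm_div, hden, div_le_iff₀ (by positivity)]
    nlinarith
  have hg0 : ‖g 0‖ ≤ 1 + M + 96 * Real.log x := by
    have : ‖g 0‖ ≤ ‖g 0 - g z₁‖ + ‖g z₁‖ := by simpa using norm_add_le (g 0 - g z₁) (g z₁)
    linarith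
  have hLx : ‖L x‖ = 2 * Real.pi * ‖f 0‖ := by
    rw [hf0, norm_div, hden]; field_simp
  rw [hLx, ← hg' 0 (mem_ball_self one_pos)]
  have h1 := Lev.J_schottky.norm_cos_le (Real.pi * g 0)
  rw [norm_mul, Complex.norm_real, Real.norm_eq_abs, abs_of_pos hpi] at h1
  have h2 : Real.exp (Real.pi * ‖g 0‖) ≤ Real.exp (Real.pi * (1 + M)) * x ^ (96 * Real.pi) := by
    rw [Real.rpow_def_of_pos hx0, ← Real.exp_add]
    apply Real.exp_le_exp.2
    nlinarith [mul_le_mul_of_nonneg_left hg0 hpi.le]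
  calc 2 * Real.pi * ‖Complex.cos (Real.pi * g 0)‖
      ≤ 2 * Real.pi * (Real.exp (Real.pi * (1 + M)) * x ^ (96 * Real.pi)) := by
        apply mul_le_mul_of_nonneg_left (h1.trans h2) (by positivity)
    _ = _ := by ring

end Pool.Agent.R848
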