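import Pool.Agent.R848.Stm

/-!
Block N of MP_9bd952_ag (S00329): a bound for the number of nondegenerate common zeros.
(The lemmas evZ_* and card_zeros_le are the complex version of Pool/Agent/Helper448/Warren.lean.)
-/

set_option autoImplicit false
set_option linter.unusedSectionVars false

open Set Filter Topology MvPolynomial

namespace Pool.Agent.R848.NB

variable {σ : Type} [Fintype σ]

/-- evaluation of polynomials on a finite set of points -/
noncomputable def evZ (Z : Finset (σ → ℂ)) : MvPolynomial σ ℂ →ₗ[ℂ] (Z → ℂ) where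
  toFun p := fun z => eval z.1 p
  map_add' := by intros; ext; simp
  map_smul' := by intros; ext; simp [smul_eval]

lemma evZ_apply (Z : Finset (σ → ℂ)) (p : MvPolynomial σ ℂ) (z : Z) :
    evZ Z p z = eval z.1 p := rfl

lemma evZ_monomial_mem (D : ℕ) (c : ℂ) (hc : c ≠ 0) (r : σ → MvPolynomial σ ℂ)
    (hr : ∀ j, (r j).totalDegree < D) (Z : Finset (σ → ℂ))
    (hZ : ∀ z ∈ Z, ∀ j, c * (z j) ^ D + eval z (r j) = 0) :
    ∀ (N : ℕ) (a : σ →₀ ℕ), a.degree = N →
      evZ Z (monomial a 1) ∈ Submodule.span ℂ (Set.range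
        (fun b : σ → Fin D => (fun z : Z => ∏ j, (z.1 j) ^ (b j : ℕ)))) := by
  classical
  intro N
  induction N using Nat.strong_induction_on with
  | _ N ih =>
    intro a ha
    by_cases h : ∀ j, a j < D
    · apply Submodule.subset_span
      refine ⟨fun j => ⟨a j, h j⟩, ?_⟩
      ext z
      simp [evZ_apply, eval_monomial, Finsupp.prod_fintype]
    · push Not at h
      obtain ⟨j, hj⟩ := h
      set b := a - Finsupp.single j D with hb
      have hab : a = b + Finsupp.single j D := by
        rw [hb]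
        exact (tsub_add_cancel_of_le (by
          rw [Finsupp.single_le_iff]; exact hj)).symm
      have hdeg : b.degree + D = N := by
        rw [← ha, hab, map_add, Finsupp.degree_single]
      have h1 : evZ Z (monomial a 1) = (-(1/c)) • evZ Z (monomial b 1 * r j) := by
        ext z
        have hz := hZ z.1 z.2 j
        have hzD : (z.1 j) ^ D = -(1/c) * eval z.1 (r j) := by
          field_simp
          linear_combination hz
        have e1 : (monomial a (1:ℂ)) = monomial b 1 * (X j) ^ D := by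
          rw [X_pow_eq_monomial, monomial_mul, one_mul, ← hab]
        simp only [Pi.smul_apply, evZ_apply, e1, map_mul, map_pow, eval_X, smul_eq_mul]
        rw [hzD]; ring
      rw [h1]
      apply Submodule.smul_mem
      have h2 : (monomial b 1 * r j).totalDegree < N := by
        calc (monomial b 1 * r j).totalDegree
            ≤ (monomial b (1:ℂ)).totalDegree + (r j).totalDegree := totalDegree_mul _ _
          _ < b.degree + D := by
              have : (monomial b (1:ℂ)).totalDegree = b.degree := by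
                rw [totalDegree_monomial _ one_ne_zero]; rfl
              rw [this]
              have := hr j
              omega
          _ = N := hdeg
      rw [MvPolynomial.as_sum (monomial b 1 * r j), map_sum]
      apply Submodule.sum_mem
      intro m hm
      have hmN : m.degree < N := lt_of_le_of_lt (le_totalDegree hm) h2
      have h3 : monomial m (coeff m (monomial b 1 * r j))
          = (coeff m (monomial b 1 * r j)) • monomial m (1:ℂ) := by
        rw [smul_monomial, smul_eq_mul, mul_one]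
      rw [h3, map_smul]
      exact Submodule.smul_mem _ _ (ih m.degree hmN m rfl)

lemma evZ_mem (D : ℕ) (c : ℂ) (hc : c ≠ 0) (r : σ → MvPolynomial σ ℂ)
    (hr : ∀ j, (r j).totalDegree < D) (Z : Finset (σ → ℂ))
    (hZ : ∀ z ∈ Z, ∀ j, c * (z j) ^ D + eval z (r j) = 0) (p : MvPolynomial σ ℂ) :
      evZ Z p ∈ Submodule.span ℂ (Set.range
        (fun b : σ → Fin D => (fun z : Z => ∏ j, (z.1 j) ^ (b j : ℕ)))) := by
  rw [p.as_sum, map_sum]
  apply Submodule.sum_mem
  intro m _
  have h3 : monomial m (coeff m p) = (coeff m p) • monomial m (1:ℂ) := by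
    rw [smul_monomial, smul_eq_mul, mul_one]
  rw [h3, map_smul]
  exact Submodule.smul_mem _ _ (evZ_monomial_mem D c hc r hr Z hZ m.degree m rfl)

lemma evZ_surjective (Z : Finset (σ → ℂ)) : Function.Surjective (evZ Z) := by
  classical
  -- separating linear factors
  have sep : ∀ z w : σ → ℂ, ∃ p : MvPolynomial σ ℂ, z ≠ w → (eval z p = 1 ∧ eval w p = 0) := by
    intro z w
    by_cases hzw : z = w
    · exact ⟨0, fun h => absurd hzw h⟩
    · obtain ⟨j, hj⟩ := Function.ne_iff.mp hzw
      refine ⟨C (1 / (z j - w j)) * (X j - C (w j)), fun _ => ⟨?_, ?_⟩⟩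
      · have : z j - w j ≠ 0 := sub_ne_zero.mpr hj
        simp only [map_mul, eval_C, map_sub, eval_X]
        field_simp
      · simp
  choose P hP using sep
  have ind : ∀ z ∈ Z, ∀ w ∈ Z, eval w (∏ u ∈ Z.erase z, P z u) = if w = z then 1 else 0 := by
    intro z hz w hw
    rw [map_prod]
    split_ifs with hwz
    · subst hwz
      apply Finset.prod_eq_one
      intro u hu
      exact (hP w u (Finset.ne_of_mem_erase hu).symm).1
    · apply Finset.prod_eq_zero (Finset.mem_erase.mpr ⟨hwz, hw⟩)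
      exact (hP z w (fun h => hwz h.symm)).2
  intro f
  refine ⟨∑ z ∈ Z.attach, C (f z) * ∏ u ∈ Z.erase z.1, P z.1 u, ?_⟩
  ext w
  rw [evZ_apply, map_sum]
  rw [Finset.sum_eq_single w]
  · rw [map_mul, ind w.1 w.2 w.1 w.2]; simp
  · intro z _ hzw
    rw [map_mul, ind z.1 z.2 w.1 w.2, if_neg (fun h => hzw (Subtype.ext h.symm))]; simp
  · intro h; exact absurd (Finset.mem_attach _ _) h

/-- A system whose leading parts are pure powers has few zeros. -/
theorem card_zeros_le (D : ℕ) (c : ℂ) (hc : c ≠ 0) (r : σ → MvPolynomial σ ℂ)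
    (hr : ∀ j, (r j).totalDegree < D) (Z : Finset (σ → ℂ))
    (hZ : ∀ z ∈ Z, ∀ j, c * (z j) ^ D + eval z (r j) = 0) :
    Z.card ≤ D ^ Fintype.card σ := by
  classical
  have htop : Submodule.span ℂ (Set.range
        (fun b : σ → Fin D => (fun z : Z => ∏ j, (z.1 j) ^ (b j : ℕ)))) = ⊤ := by
    rw [eq_top_iff]
    intro f _
    obtain ⟨p, rfl⟩ := evZ_surjective Z f
    exact evZ_mem D c hc r hr Z hZ p
  have h1 := finrank_range_le_card (R := ℂ)
    (fun b : σ → Fin D => (fun z : Z => ∏ j, (z.1 j) ^ (b j : ℕ)))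
  rw [Set.finrank, htop, finrank_top] at h1
  simpa using h1

/-- the gradient at a point -/
noncomputable def grad (z : σ → ℂ) : MvPolynomial σ ℂ →ₗ[ℂ] (σ → ℂ) where
  toFun p := fun i => eval z (pderiv i p)
  map_add' p q := by ext i; simp
  map_smul' c p := by ext i; simp [smul_eval]

lemma grad_apply (z : σ → ℂ) (p : MvPolynomial σ ℂ) (i : σ) :
    grad z p i = eval z (pderiv i p) := rfl

lemma map_grad_eq_top (E : Set (MvPolynomial σ ℂ)) (z : σ → ℂ)
    (h : ∀ v : σ → ℂ, v ≠ 0 → ∃ p ∈ E, ∑ i, v i * eval z (pderiv i p) ≠ 0) :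
    (Submodule.span ℂ E).map (grad z) = ⊤ := by
  classical
  by_contra hne
  obtain ⟨f, hf0, hf⟩ := Submodule.exists_le_ker_of_lt_top _ (lt_top_iff_ne_top.2 hne)
  have hfx : ∀ x : σ → ℂ, f x = ∑ i, f (Pi.single i 1) * x i := by
    intro x
    conv_lhs => rw [← Finset.univ_sum_single x, map_sum]
    refine Finset.sum_congr rfl fun i _ => ?_
    have h3 : (Pi.single i (x i) : σ → ℂ) = x i • Pi.single i 1 := by
      rw [← Pi.single_smul, smul_eq_mul, mul_one]
    rw [h3, map_smul, smul_eq_mul, mul_comm]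
  obtain ⟨p, hp, hp'⟩ := h (fun i => f (Pi.single i 1)) (by
    intro h0
    apply hf0
    apply LinearMap.ext
    intro x
    rw [hfx, LinearMap.zero_apply]
    exact Finset.sum_eq_zero fun i _ => by rw [congrFun h0 i, Pi.zero_apply, zero_mul])
  apply hp'
  have h4 : f (grad z p) = 0 := hf ⟨p, Submodule.subset_span hp, rfl⟩
  rw [hfx] at h4
  exact h4

theorem exists_family (W : Submodule ℂ (MvPolynomial σ ℂ)) (Z : Finset (σ → ℂ))
    (hW : ∀ z ∈ Z, W.map (grad z) = ⊤) (k : ℕ) (hk : k ≤ Fintype.card σ) :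
    ∃ F : Fin k → MvPolynomial σ ℂ, (∀ i, F i ∈ W) ∧
      ∀ z ∈ Z, LinearIndependent ℂ (fun i => grad z (F i)) := by
  classical
  induction k with
  | zero => exact ⟨fun i => i.elim0, fun i => i.elim0, fun z _ => linearIndependent_empty_type⟩
  | succ k ih =>
    obtain ⟨F, hF, hli⟩ := ih (by omega)
    let U : Z → Submodule ℂ W := fun z =>
      ((Submodule.span ℂ (Set.range fun i => grad z.1 (F i))).comap (grad z.1)).comap W.subtype
    have hU : ∀ z, U z ≠ ⊤ := by
      intro z hz
      have h1 : (⊤ : Submodule ℂ (σ → ℂ)) ≤ Submodule.span ℂ (Set.range fun i => grad z.1 (F i)) := by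
        rw [← hW z.1 z.2]
        rintro _ ⟨w, hw, rfl⟩
        have h2 : (⟨w, hw⟩ : W) ∈ U z := by rw [hz]; trivial
        exact h2
      have h3 := finrank_range_le_card (R := ℂ) (fun i => grad z.1 (F i))
      rw [Set.finrank, eq_top_iff.2 h1, finrank_top, Module.finrank_fintype_fun_eq_card,
        Fintype.card_fin] at h3
      omega
    obtain ⟨w, hw⟩ : ∃ w : W, ∀ z, w ∉ U z := by
      by_contra hcon
      push Not at hcon
      have h1 : ⋃ z, (U z : Set W) = Set.univ := by
        rw [Set.eq_univ_iff_forall]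
        intro w
        obtain ⟨z, hz⟩ := hcon w
        exact Set.mem_iUnion.2 ⟨z, hz⟩
      obtain ⟨z, hz⟩ := Subspace.exists_eq_top_of_iUnion_eq_univ h1
      exact hU z hz
    refine ⟨Fin.cons w.1 F, ?_, ?_⟩
    · intro i
      refine Fin.cases ?_ (fun i => ?_) i
      · exact w.2
      · exact hF i
    · intro z hz
      have h1 : (fun i => grad z ((Fin.cons w.1 F : Fin (k + 1) → MvPolynomial σ ℂ) i)) =
          (Fin.cons (grad z w.1) (fun i => grad z (F i)) : Fin (k + 1) → σ → ℂ) := by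
        funext i
        refine Fin.cases ?_ (fun i => ?_) i <;> rfl
      rw [h1, linearIndependent_finCons]
      exact ⟨hli z hz, hw ⟨z, hz⟩⟩

/-- the differential at a point -/
noncomputable def dif (z : σ → ℂ) (p : MvPolynomial σ ℂ) : (σ → ℂ) →L[ℂ] ℂ :=
  ∑ i, (eval z (pderiv i p)) • (ContinuousLinearMap.proj i : (σ → ℂ) →L[ℂ] ℂ)

lemma dif_apply (z : σ → ℂ) (p : MvPolynomial σ ℂ) (v : σ → ℂ) :
    dif z p v = ∑ i, eval z (pderiv i p) * v i := by
  simp [dif]

theorem hasStrictFDerivAt_eval (p : MvPolynomial σ ℂ) (z : σ → ℂ) :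
    HasStrictFDerivAt (fun x : σ → ℂ => eval x p) (dif z p) z := by
  classical
  induction p using MvPolynomial.induction_on with
  | C a =>
    have h1 : dif z (C a) = 0 := by
      ext v
      simp [dif_apply]
    have h2 : (fun x : σ → ℂ => eval x (C a : MvPolynomial σ ℂ)) = fun _ => a := by
      funext x; simp
    rw [h1, h2]
    exact hasStrictFDerivAt_const a z
  | add p q hp hq =>
    have h1 : dif z (p + q) = dif z p + dif z q := by
      ext v
      simp [dif_apply, add_mul, Finset.sum_add_distrib]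
    have h2 : (fun x : σ → ℂ => eval x (p + q)) = fun x => eval x p + eval x q := by
      funext x; simp
    rw [h1, h2]
    exact hp.add hq
  | mul_X p j hp =>
    have hX : HasStrictFDerivAt (fun x : σ → ℂ => x j)
        (ContinuousLinearMap.proj j : (σ → ℂ) →L[ℂ] ℂ) z :=
      (ContinuousLinearMap.proj j : (σ → ℂ) →L[ℂ] ℂ).hasStrictFDerivAt
    have h1 : dif z (p * X j) = eval z p • (ContinuousLinearMap.proj j : (σ → ℂ) →L[ℂ] ℂ) +
        z j • dif z p := by
      ext v
      simp only [dif_apply, ContinuousLinearMap.add_apply, ContinuousLinearMap.smul_apply,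
        ContinuousLinearMap.proj_apply, smul_eq_mul, Derivation.leibniz, pderiv_X, map_add,
        map_mul, eval_X]
      rw [Finset.mul_sum]
      have h2 : ∀ i, (eval z p * eval z (Pi.single (M := fun _ => MvPolynomial σ ℂ) i 1 j) +
          z j * eval z (pderiv i p)) * v i =
          (if i = j then eval z p * v j else 0) + z j * (eval z (pderiv i p) * v i) := by
        intro i
        rw [Pi.single_apply]
        split_ifs with h3 h4 h4
        · subst h3; rw [map_one]; ring
        · exact absurd h3.symm h4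
        · exact absurd h4.symm h3
        · rw [map_zero]; ring
      rw [Finset.sum_congr rfl fun i _ => h2 i, Finset.sum_add_distrib, Finset.sum_ite_eq']
      simp
    have h2 : (fun x : σ → ℂ => eval x (p * X j)) = fun x => eval x p * x j := by
      funext x; simp
    rw [h1, h2]
    exact hp.mul hX

theorem exists_zero_near (F Q : σ → MvPolynomial σ ℂ) (z : σ → ℂ) (hF : ∀ i, eval z (F i) = 0)
    (hsurj : ∀ w : σ → ℂ, ∃ v : σ → ℂ, ∀ i, ∑ j, eval z (pderiv j (F i)) * v j = w i)
    {U : Set (σ → ℂ)} (hU : U ∈ 𝓝 z) :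
    ∀ᶠ ε in 𝓝 (0 : ℂ), ∃ x ∈ U, ∀ i, eval x (F i) + ε * eval x (Q i) = 0 := by
  classical
  let H : ℂ × (σ → ℂ) → ℂ × (σ → ℂ) := fun q =>
    (q.1, fun i => eval q.2 (F i) + q.1 * eval q.2 (Q i))
  let A : σ → ((ℂ × (σ → ℂ)) →L[ℂ] ℂ) := fun i =>
    (dif z (F i)).comp (ContinuousLinearMap.snd ℂ ℂ (σ → ℂ)) +
    ((0 : ℂ) • (dif z (Q i)).comp (ContinuousLinearMap.snd ℂ ℂ (σ → ℂ)) +
      (eval z (Q i)) • ContinuousLinearMap.fst ℂ ℂ (σ → ℂ))
  let H' : (ℂ × (σ → ℂ)) →L[ℂ] (ℂ × (σ → ℂ)) :=
    (ContinuousLinearMap.fst ℂ ℂ (σ → ℂ)).prod (ContinuousLinearMap.pi A)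
  have hfst : HasStrictFDerivAt (fun q : ℂ × (σ → ℂ) => q.1)
      (ContinuousLinearMap.fst ℂ ℂ (σ → ℂ)) ((0 : ℂ), z) :=
    (ContinuousLinearMap.fst ℂ ℂ (σ → ℂ)).hasStrictFDerivAt
  have hsnd : HasStrictFDerivAt (fun q : ℂ × (σ → ℂ) => q.2)
      (ContinuousLinearMap.snd ℂ ℂ (σ → ℂ)) ((0 : ℂ), z) :=
    (ContinuousLinearMap.snd ℂ ℂ (σ → ℂ)).hasStrictFDerivAt
  have hH : HasStrictFDerivAt H H' (0, z) := by
    refine hfst.prodMk ?_
    rw [hasStrictFDerivAt_pi']
    intro i
    change HasStrictFDerivAt (fun q : ℂ × (σ → ℂ) => eval q.2 (F i) + q.1 * eval q.2 (Q i)) (A i)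
      (0, z)
    have h1 := (hasStrictFDerivAt_eval (F i) z).comp ((0 : ℂ), z) hsnd
    have h2 := (hasStrictFDerivAt_eval (Q i) z).comp ((0 : ℂ), z) hsnd
    exact h1.add (hfst.mul h2)
  have hrange : H'.range = ⊤ := by
    rw [LinearMap.range_eq_top]
    rintro ⟨e, w⟩
    obtain ⟨v, hv⟩ := hsurj (fun i => w i - eval z (Q i) * e)
    refine ⟨(e, v), ?_⟩
    apply Prod.ext
    · rfl
    · funext i
      change A i (e, v) = w i
      simp only [A, ContinuousLinearMap.add_apply, ContinuousLinearMap.comp_apply,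
        ContinuousLinearMap.smul_apply, ContinuousLinearMap.coe_fst', ContinuousLinearMap.coe_snd',
        dif_apply, smul_eq_mul, zero_mul, zero_add]
      rw [hv i]
      ring
  have hmap := hH.map_nhds_eq_of_surj hrange
  have hH0 : H (0, z) = (0, 0) := by
    apply Prod.ext
    · rfl
    · funext i
      change eval z (F i) + 0 * eval z (Q i) = 0
      rw [hF i, zero_mul, add_zero]
  rw [hH0] at hmap
  have h1 : (Set.univ : Set ℂ) ×ˢ U ∈ 𝓝 ((0 : ℂ), z) := prod_mem_nhds univ_mem hU
  have h2 : H '' ((Set.univ : Set ℂ) ×ˢ U) ∈ 𝓝 ((0 : ℂ), (0 : σ → ℂ)) := by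
    rw [← hmap]
    exact image_mem_map h1
  have h3 : Tendsto (fun ε : ℂ => (ε, (0 : σ → ℂ))) (𝓝 0) (𝓝 (0, 0)) :=
    (Continuous.prodMk_left (0 : σ → ℂ)).tendsto 0
  filter_upwards [h3 h2] with ε hε
  obtain ⟨⟨e, x⟩, ⟨-, hx⟩, hq⟩ := hε
  have h4 : e = ε := congrArg Prod.fst hq
  subst h4
  refine ⟨x, hx, fun i => ?_⟩
  exact congrFun (congrArg Prod.snd hq) i

end Pool.Agent.R848.NB

namespace Pool.Agent.R848

open NB in
/-- Block N. -/
theorem N : S_N := by
  classical
  intro σ _ D E hE Z hZ hnd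
  set W := Submodule.span ℂ E with hWdef
  obtain ⟨F0, hF0, hli0⟩ := exists_family W Z (fun z hz => map_grad_eq_top E z (hnd z hz))
    (Fintype.card σ) le_rfl
  let F : σ → MvPolynomial σ ℂ := fun i => F0 (Fintype.equivFin σ i)
  have hFW : ∀ i, F i ∈ W := fun i => hF0 _
  have hdeg : ∀ i, (F i).totalDegree < D + 1 := by
    intro i
    have h1 : W ≤ restrictTotalDegree σ ℂ D := by
      rw [hWdef, Submodule.span_le]
      intro p hp
      exact (mem_restrictTotalDegree σ D p).2 (hE p hp)
    exact Nat.lt_succ_of_le ((mem_restrictTotalDegree σ D _).1 (h1 (hFW i)))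
  have hFz : ∀ z ∈ Z, ∀ i, eval z (F i) = 0 := by
    intro z hz i
    have h1 : W ≤ LinearMap.ker (MvPolynomial.aeval z : MvPolynomial σ ℂ →ₐ[ℂ] ℂ).toLinearMap := by
      rw [hWdef, Submodule.span_le]
      intro p hp
      have h2 := hZ z hz p hp
      change MvPolynomial.aeval z p = 0
      rw [← h2]
      rfl
    exact h1 (hFW i)
  have hsurj : ∀ z ∈ Z, ∀ w : σ → ℂ, ∃ v : σ → ℂ,
      ∀ i, ∑ j, eval z (pderiv j (F i)) * v j = w i := by
    intro z hz w
    have h1 : LinearIndependent ℂ (fun i => grad z (F i)) :=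
      (hli0 z hz).comp _ (Fintype.equivFin σ).injective
    let M : Matrix σ σ ℂ := Matrix.of fun i => grad z (F i)
    have h2 : IsUnit M := by
      rw [← Matrix.linearIndependent_rows_iff_isUnit]
      exact h1
    obtain ⟨B, hB⟩ := h2.exists_right_inv
    refine ⟨B.mulVec w, fun i => ?_⟩
    have h3 : M.mulVec (B.mulVec w) = w := by
      rw [Matrix.mulVec_mulVec, hB, Matrix.one_mulVec]
    exact congrFun h3 i
  obtain ⟨U, hU, hdis⟩ := Z.finite_toSet.t2_separation
  have hev : ∀ᶠ ε in 𝓝 (0 : ℂ), ∀ z ∈ Z, ∃ x ∈ U z, ∀ i,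
      eval x (F i) + ε * eval x ((X i : MvPolynomial σ ℂ) ^ (D + 1)) = 0 := by
    rw [Filter.eventually_all_finset]
    intro z hz
    exact exists_zero_near F (fun i => X i ^ (D + 1)) z (hFz z hz) (hsurj z hz)
      ((hU z).2.mem_nhds (hU z).1)
  obtain ⟨ε, hε, hε0⟩ := ((hev.filter_mono nhdsWithin_le_nhds).and
    (self_mem_nhdsWithin (a := (0 : ℂ)) (s := {0}ᶜ))).exists
  choose! x hxU hx using hε
  have hinj : Set.InjOn x (Z : Set (σ → ℂ)) := by
    intro z hz z' hz' h
    by_contra hne
    have h1 := hdis hz hz' hne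
    exact Set.disjoint_left.1 h1 (hxU z hz) (by rw [h]; exact hxU z' hz')
  rw [← Finset.card_image_of_injOn hinj]
  refine card_zeros_le (D + 1) ε hε0 F hdeg (Z.image x) ?_
  intro y hy j
  obtain ⟨z, hz, rfl⟩ := Finset.mem_image.1 hy
  have h1 := hx z hz j
  rw [map_pow, eval_X] at h1
  rw [← h1]
  ring

end Pool.Agent.R848
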