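import Pool.Agent.R848.Stm

set_option autoImplicit false

open Set Filter Topology Metric

namespace Pool.Agent.R848

namespace T1aux

/-- a continuous integer valued function on a preconnected set is constant -/
lemma const_of_int {X : Type} [TopologicalSpace X] {S : Set X} (hS : IsPreconnected S) {g : X → ℝ}
    (hg : ContinuousOn g S) (hi : ∀ x ∈ S, ∃ n : ℤ, g x = n) {x y : X} (hx : x ∈ S) (hy : y ∈ S) :
    g x = g y := by
  by_contra hne
  have key : ∀ a ∈ S, ∀ b ∈ S, g a < g b → False := by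
    intro a ha b hb hab
    have himg : IsPreconnected (g '' S) := hS.image g hg
    have hoc := isPreconnected_iff_ordConnected.1 himg
    obtain ⟨n, hn⟩ := hi a ha
    obtain ⟨m, hm⟩ := hi b hb
    have hnm : n < m := by
      have : (n : ℝ) < m := by rw [← hn, ← hm]; exact hab
      exact_mod_cast this
    have h1 : (n : ℝ) + 1 ≤ m := by exact_mod_cast hnm
    have hmem : (n : ℝ) + 1 / 2 ∈ g '' S :=
      hoc.out (mem_image_of_mem g ha) (mem_image_of_mem g hb) ⟨by rw [hn]; linarith, by rw [hm]; linarith⟩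
    obtain ⟨c, hc, hgc⟩ := hmem
    obtain ⟨k, hk⟩ := hi c hc
    have h2 : (k : ℝ) = n + 1 / 2 := by rw [← hk, hgc]
    have h3 : (2 * k : ℤ) = 2 * n + 1 := by
      have : (2 * k : ℝ) = 2 * n + 1 := by rw [h2]; ring
      exact_mod_cast this
    omega
  rcases lt_or_gt_of_ne hne with h | h
  · exact key x hx y hy h
  · exact key y hy x hx h

lemma exp_eq_norm {a b : ℂ} (h : Complex.exp a = Complex.exp b) :
    ∃ n : ℤ, a - b = n * (2 * Real.pi * Complex.I) := by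
  obtain ⟨n, hn⟩ := Complex.exp_eq_exp_iff_exists_int.1 h
  exact ⟨n, by rw [hn]; ring⟩

/-- two logarithms of the same function on a preconnected set differ by a constant -/
lemma log_sub_const {X : Type} [TopologicalSpace X] {S : Set X} (hS : IsPreconnected S) {l l' : X → ℂ}
    (hl : ContinuousOn l S) (hl' : ContinuousOn l' S)
    (h : ∀ x ∈ S, Complex.exp (l x) = Complex.exp (l' x)) {x y : X} (hx : x ∈ S) (hy : y ∈ S) :
    l x - l' x = l y - l' y := by
  have hpi : (2 * Real.pi : ℝ) ≠ 0 := by positivity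
  have h1 : ∀ z ∈ S, ∃ n : ℤ, l z - l' z = n * (2 * Real.pi * Complex.I) := fun z hz => exp_eq_norm (h z hz)
  have hval : ∀ z ∈ S, ∀ n : ℤ, l z - l' z = n * (2 * Real.pi * Complex.I) →
      ((l z - l' z).im) / (2 * Real.pi) = n := by
    intro z hz n hn
    rw [hn]
    have : ((n : ℂ) * (2 * Real.pi * Complex.I)).im = n * (2 * Real.pi) := by
      simp
    rw [this]
    field_simp
  have hc := const_of_int (g := fun z => ((l z - l' z).im) / (2 * Real.pi)) hS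
    ((Complex.continuous_im.comp_continuousOn (hl.sub hl')).div_const _)
    (fun z hz => by
      obtain ⟨n, hn⟩ := h1 z hz
      exact ⟨n, hval z hz n hn⟩) hx hy
  obtain ⟨n, hn⟩ := h1 x hx
  obtain ⟨m, hm⟩ := h1 y hy
  have e1 := hval x hx n hn
  have e2 := hval y hy m hm
  rw [e1, e2] at hc
  rw [hn, hm]
  have : n = m := by exact_mod_cast hc
  rw [this]

lemma two_pi_le {a b : ℂ} (h : Complex.exp a = Complex.exp b) (hne : a ≠ b) : 2 * Real.pi ≤ ‖a - b‖ := by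
  obtain ⟨n, hn⟩ := exp_eq_norm h
  rw [hn]
  have hn0 : n ≠ 0 := by
    rintro rfl
    apply hne
    have : a - b = 0 := by rw [hn]; simp
    exact sub_eq_zero.1 this
  have h1 : (1 : ℝ) ≤ |(n : ℝ)| := by
    have : (1 : ℤ) ≤ |n| := Int.one_le_abs hn0
    exact_mod_cast this
  have h2 : ‖(n : ℂ) * (2 * Real.pi * Complex.I)‖ = |(n : ℝ)| * (2 * Real.pi) := by
    rw [norm_mul, norm_mul, norm_mul]
    simp [abs_of_pos Real.pi_pos]
  rw [h2]
  nlinarith [Real.pi_pos]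

variable {U : Type} [MetricSpace U] {Φ : U → ℝ} {f l0 : U → ℂ} {c₀ : ℝ}

/-- `l` is an extension of the logarithm `l0` of `f` to the set `Φ ≤ c` -/
def Ext (Φ : U → ℝ) (f l0 : U → ℂ) (c₀ c : ℝ) (l : U → ℂ) : Prop :=
  ContinuousOn l {y | Φ y ≤ c} ∧ (∀ x, Φ x ≤ c → Complex.exp (l x) = f x) ∧ ∀ x, Φ x ≤ c₀ → l x = l0 x

lemma Ext.mono {c c' : ℝ} {l : U → ℂ} (h : Ext Φ f l0 c₀ c' l) (hc : c ≤ c') : Ext Φ f l0 c₀ c l :=
  ⟨h.1.mono fun _ hx => le_trans hx hc, fun x hx => h.2.1 x (hx.trans hc), h.2.2⟩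

/-- the hypothesis on the local structure -/
def Loc (Φ : U → ℝ) (c₀ : ℝ) : Prop := ∀ y, c₀ < Φ y → ∀ N ∈ 𝓝 y, ∃ W ∈ 𝓝 y, W ⊆ N ∧
      (W ∩ {x | Φ x < Φ y}).Nonempty ∧ IsPreconnected (W ∩ {x | Φ x < Φ y})

lemma Ext.uniq (hΦ : Continuous Φ) (hK : ∀ c, IsCompact {y | Φ y ≤ c}) (hloc : Loc Φ c₀) {c : ℝ}
    {l l' : U → ℂ} (h : Ext Φ f l0 c₀ c l) (h' : Ext Φ f l0 c₀ c l') {x : U} (hx : Φ x ≤ c) :
    l x = l' x := by
  by_contra hne
  set D : Set U := {y | Φ y ≤ c} ∩ {y | 2 * Real.pi ≤ ‖l y - l' y‖} with hD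
  have hcont : ContinuousOn (fun y => ‖l y - l' y‖) {y | Φ y ≤ c} := (h.1.sub h'.1).norm
  have hDclosed : IsClosed D :=
    hcont.preimage_isClosed_of_isClosed (hK c).isClosed isClosed_Ici
  have hDc : IsCompact D := (hK c).of_isClosed_subset hDclosed inter_subset_left
  have hmem : ∀ y, Φ y ≤ c → l y ≠ l' y → y ∈ D := fun y hy hy' =>
    ⟨hy, two_pi_le (by rw [h.2.1 y hy, h'.2.1 y hy]) hy'⟩
  obtain ⟨y1, hy1, hmin⟩ := hDc.exists_isMinOn ⟨x, hmem x hx hne⟩ hΦ.continuousOn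
  have hpos : 0 < ‖l y1 - l' y1‖ := lt_of_lt_of_le (by positivity) hy1.2
  have hgt : c₀ < Φ y1 := by
    by_contra hle
    rw [not_lt] at hle
    rw [h.2.2 y1 hle, h'.2.2 y1 hle, sub_self, norm_zero] at hpos
    exact lt_irrefl _ hpos
  have hev : ∀ᶠ z in 𝓝[{y | Φ y ≤ c}] y1, 0 < ‖l z - l' z‖ :=
    (hcont y1 hy1.1).eventually (lt_mem_nhds hpos)
  rw [eventually_nhdsWithin_iff] at hev
  obtain ⟨W, hW, hWN, ⟨z, hzW, hz⟩, -⟩ := hloc y1 hgt _ hev
  have hzc : Φ z ≤ c := (le_of_lt hz).trans hy1.1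
  have hzne : l z ≠ l' z := by
    have := hWN hzW hzc
    intro he
    rw [he, sub_self, norm_zero] at this
    exact lt_irrefl _ this
  have hz1 : Φ z < Φ y1 := hz
  have hz2 : Φ y1 ≤ Φ z := hmin (hmem z hzc hzne)
  exact absurd hz2 (not_le.2 hz1)

/-- gluing -/
lemma glue (hΦ : Continuous Φ) (hK : ∀ c, IsCompact {y | Φ y ≤ c}) (hloc : Loc Φ c₀) (I : Set ℝ)
    (hI : ∀ c ∈ I, ∃ l, Ext Φ f l0 c₀ c l) :
    ∃ L : U → ℂ, ContinuousOn L {y | ∃ c ∈ I, Φ y < c} ∧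
      (∀ y, (∃ c ∈ I, Φ y < c) → Complex.exp (L y) = f y) ∧
      ∀ y, (∃ c ∈ I, Φ y < c) → Φ y ≤ c₀ → L y = l0 y := by
  classical
  choose! l hl using hI
  have hex : ∀ y : U, ∃ c : ℝ, (∃ c ∈ I, Φ y < c) → c ∈ I ∧ Φ y < c := by
    intro y
    by_cases h : ∃ c ∈ I, Φ y < c
    · obtain ⟨c, hc, hc'⟩ := h
      exact ⟨c, fun _ => ⟨hc, hc'⟩⟩
    · exact ⟨0, fun h' => absurd h' h⟩
  choose C hC using hex
  have hagree : ∀ c ∈ I, ∀ y, Φ y ≤ c → (∃ c ∈ I, Φ y < c) → l (C y) y = l c y := by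
    intro c hc y hy hy'
    obtain ⟨h1, h2⟩ := hC y hy'
    have e1 : Ext Φ f l0 c₀ (min (C y) c) (l (C y)) := (hl _ h1).mono (min_le_left _ _)
    have e2 : Ext Φ f l0 c₀ (min (C y) c) (l c) := (hl _ hc).mono (min_le_right _ _)
    exact e1.uniq hΦ hK hloc e2 (le_min h2.le hy)
  refine ⟨fun y => l (C y) y, ?_, ?_, ?_⟩
  · rintro y ⟨c, hc, hyc⟩
    have hnhds : {z | Φ z < c} ∈ 𝓝 y := (isOpen_lt hΦ continuous_const).mem_nhds hyc
    have hcl : ContinuousAt (l c) y :=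
      ((hl c hc).1 y hyc.le).continuousAt (mem_of_superset hnhds fun z (hz : Φ z < c) => show Φ z ≤ c from le_of_lt hz)
    have heq : (fun z => l (C z) z) =ᶠ[𝓝 y] l c := by
      filter_upwards [hnhds] with z hz
      exact hagree c hc z (le_of_lt hz) ⟨c, hc, hz⟩
    exact (hcl.congr heq.symm).continuousWithinAt
  · rintro y hy
    obtain ⟨h1, h2⟩ := hC y hy
    exact (hl _ h1).2.1 y h2.le
  · rintro y hy hy'
    obtain ⟨h1, h2⟩ := hC y hy
    exact (hl _ h1).2.2 y hy'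

/-- the slit plane logarithm near a point -/
lemma local_log (hf : Continuous f) (hf0 : ∀ y, f y ≠ 0) (y : U) :
    ∃ N ∈ 𝓝 y, ∃ lam : U → ℂ, (∀ z ∈ N, ContinuousAt lam z) ∧ ∀ z ∈ N, Complex.exp (lam z) = f z := by
  have h1 : Continuous fun z => f z / f y := hf.div_const _
  have hopen : IsOpen {z | f z / f y ∈ Complex.slitPlane} := Complex.isOpen_slitPlane.preimage h1
  have hy : y ∈ {z | f z / f y ∈ Complex.slitPlane} := by
    simp [div_self (hf0 y)]
  refine ⟨_, hopen.mem_nhds hy, fun z => Complex.log (f z / f y) + Complex.log (f y), ?_, ?_⟩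
  · intro z hz
    exact (h1.continuousAt.clog hz).add continuousAt_const
  · intro z hz
    rw [Complex.exp_add, Complex.exp_log (div_ne_zero (hf0 z) (hf0 y)), Complex.exp_log (hf0 y)]
    exact div_mul_cancel₀ _ (hf0 y)

/-- closing up -/
lemma close_up (hΦ : Continuous Φ) (hK : ∀ c, IsCompact {y | Φ y ≤ c}) (hloc : Loc Φ c₀)
    (hf : Continuous f) (hf0 : ∀ y, f y ≠ 0) {cs : ℝ} (hcs : c₀ < cs)
    (hS : ∀ c, c₀ ≤ c → c < cs → ∃ l, Ext Φ f l0 c₀ c l) : ∃ l, Ext Φ f l0 c₀ cs l := by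
  obtain ⟨L, hL1, hL2, hL3⟩ := glue hΦ hK hloc (Ico c₀ cs) fun c hc => hS c hc.1 hc.2
  have hset : {y | ∃ c ∈ Ico c₀ cs, Φ y < c} = {y | Φ y < cs} := by
    ext y
    constructor
    · rintro ⟨c, hc, hy⟩
      exact lt_trans hy hc.2
    · intro hy
      have hy : Φ y < cs := hy
      refine ⟨(max c₀ (Φ y) + cs) / 2, ⟨?_, ?_⟩, ?_⟩
      · have := le_max_left c₀ (Φ y)
        linarith
      · have : max c₀ (Φ y) < cs := max_lt hcs hy
        linarith
      · have := le_max_right c₀ (Φ y)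
        linarith
  have hmem : ∀ y, Φ y < cs → ∃ c ∈ Ico c₀ cs, Φ y < c := fun y hy => by
    have : y ∈ {y | ∃ c ∈ Ico c₀ cs, Φ y < c} := by rw [hset]; exact hy
    exact this
  rw [hset] at hL1
  set A : Set U := {y | Φ y < cs} with hA
  have hAo : IsOpen A := isOpen_lt hΦ continuous_const
  have hclos : {y | Φ y ≤ cs} ⊆ closure A := by
    intro y hy
    have hy : Φ y ≤ cs := hy
    rcases lt_or_eq_of_le hy with h | h
    · exact subset_closure h
    · rw [mem_closure_iff_nhds]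
      intro N hN
      obtain ⟨W, hW, hWN, ⟨z, hzW, hz⟩, -⟩ := hloc y (by rw [h]; exact hcs) N hN
      have hz : Φ z < Φ y := hz
      exact ⟨z, hWN hzW, by rw [h] at hz; exact hz⟩
  have hlim : ∀ y ∈ {y | Φ y ≤ cs}, ∃ z, Tendsto L (𝓝[A] y) (𝓝 z) := by
    intro y hy
    have hy : Φ y ≤ cs := hy
    rcases lt_or_eq_of_le hy with h | h
    · exact ⟨_, hL1 y h⟩
    · obtain ⟨N, hN, lam, hlam1, hlam2⟩ := local_log hf hf0 y
      obtain ⟨W, hW, hWN, ⟨z, hzW, hz⟩, hconn⟩ := hloc y (by rw [h]; exact hcs) N hN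
      rw [h] at hz hconn
      refine ⟨lam y + (L z - lam z), ?_⟩
      have h1 : Tendsto (fun x => lam x + (L z - lam z)) (𝓝[A] y) (𝓝 (lam y + (L z - lam z))) :=
        ((hlam1 y (mem_of_mem_nhds hN)).tendsto.mono_left nhdsWithin_le_nhds).add tendsto_const_nhds
      refine h1.congr' ?_
      filter_upwards [inter_mem_nhdsWithin A hW] with x hx
      have h2 := log_sub_const (S := W ∩ {x | Φ x < cs}) hconn (l := L) (l' := lam)
        (hL1.mono inter_subset_right)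
        (fun w hw => (hlam1 w (hWN hw.1)).continuousWithinAt)
        (fun w hw => by rw [hL2 w (hmem w hw.2), hlam2 w (hWN hw.1)])
        (x := x) (y := z) ⟨hx.2, hx.1⟩ ⟨hzW, hz⟩
      rw [← h2]; ring
  refine ⟨extendFrom A L, continuousOn_extendFrom hclos hlim, ?_, ?_⟩
  · intro y hy
    obtain ⟨z, hz⟩ := hlim y hy
    have hyc : y ∈ closure A := hclos hy
    have he : extendFrom A L y = z := extendFrom_eq hyc hz
    rw [he]
    have : NeBot (𝓝[A] y) := mem_closure_iff_nhdsWithin_neBot.1 hyc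
    have h1 : Tendsto (fun x => Complex.exp (L x)) (𝓝[A] y) (𝓝 (Complex.exp z)) :=
      (Complex.continuous_exp.tendsto z).comp hz
    have h2 : Tendsto (fun x => Complex.exp (L x)) (𝓝[A] y) (𝓝 (f y)) := by
      refine ((hf.tendsto y).mono_left nhdsWithin_le_nhds).congr' ?_
      filter_upwards [self_mem_nhdsWithin] with x hx
      exact (hL2 x (hmem x hx)).symm
    exact tendsto_nhds_unique h1 h2
  · intro y hy
    have hyA : Φ y < cs := lt_of_le_of_lt hy hcs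
    have he : extendFrom A L y = L y := extendFrom_eq (subset_closure hyA) (hL1 y hyA)
    rw [he]
    exact hL3 y (hmem y hyA) hy

/-- going up -/
lemma go_up (hΦ : Continuous Φ) (hK : ∀ c, IsCompact {y | Φ y ≤ c})
    (hf : Continuous f) (hf0 : ∀ y, f y ≠ 0) {cs : ℝ} (hcs : c₀ ≤ cs)
    {l : U → ℂ} (hl : Ext Φ f l0 c₀ cs l) : ∃ c, cs < c ∧ ∃ l, Ext Φ f l0 c₀ c l := by
  have hcl : IsClosed {y | Φ y ≤ cs} := (hK cs).isClosed
  obtain ⟨L, hL⟩ := ContinuousMap.exists_restrict_eq hcl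
    (⟨fun y : {y | Φ y ≤ cs} => l y, hl.1.domRestrict⟩ : C({y | Φ y ≤ cs}, ℂ))
  have hLl : ∀ y, Φ y ≤ cs → L y = l y := by
    intro y hy
    have := congrArg (fun g : C({y | Φ y ≤ cs}, ℂ) => g ⟨y, hy⟩) hL
    simpa using this
  have hq : Continuous fun x => f x * Complex.exp (-L x) :=
    hf.mul (Complex.continuous_exp.comp L.continuous.neg)
  set G : Set U := {x | f x * Complex.exp (-L x) ∈ Complex.slitPlane} with hG
  have hGo : IsOpen G := Complex.isOpen_slitPlane.preimage hq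
  have hone : ∀ y, Φ y ≤ cs → f y * Complex.exp (-L y) = 1 := by
    intro y hy
    rw [hLl y hy, ← hl.2.1 y hy, ← Complex.exp_add]
    simp
  have hGsub : ∀ y, Φ y ≤ cs → y ∈ G := by
    intro y hy
    rw [hG, mem_ofPred_eq, hone y hy]
    simp
  have key : ∃ c, cs < c ∧ ∀ y, Φ y ≤ c → y ∈ G := by
    have hc1 : IsCompact ({y | Φ y ≤ cs + 1} \ G) := (hK (cs + 1)).diff hGo
    rcases ({y | Φ y ≤ cs + 1} \ G).eq_empty_or_nonempty with he | hne
    · refine ⟨cs + 1, by linarith, fun y hy => ?_⟩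
      by_contra hyG
      have : y ∈ ({y | Φ y ≤ cs + 1} \ G) := ⟨hy, hyG⟩
      rw [he] at this
      exact this
    · obtain ⟨y1, hy1, hmin⟩ := hc1.exists_isMinOn hne hΦ.continuousOn
      have hgt : cs < Φ y1 := by
        by_contra hle
        exact hy1.2 (hGsub y1 (not_lt.1 hle))
      refine ⟨(cs + Φ y1) / 2, by linarith, fun y hy => ?_⟩
      by_contra hyG
      have hy1' : Φ y1 ≤ cs + 1 := hy1.1
      have hy' : y ∈ ({y | Φ y ≤ cs + 1} \ G) := ⟨by show Φ y ≤ cs + 1; linarith, hyG⟩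
      have := hmin hy'
      have h3 : Φ y1 ≤ Φ y := this
      linarith
  obtain ⟨c, hc, hcG⟩ := key
  refine ⟨c, hc, fun x => L x + Complex.log (f x * Complex.exp (-L x)), ?_, ?_, ?_⟩
  · intro y hy
    exact (L.continuous.continuousAt.add (hq.continuousAt.clog (hcG y hy))).continuousWithinAt
  · intro x hx
    rw [Complex.exp_add, Complex.exp_log (mul_ne_zero (hf0 x) (Complex.exp_ne_zero _)), mul_comm,
      mul_assoc, ← Complex.exp_add]
    simp
  · intro x hx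
    show L x + Complex.log (f x * Complex.exp (-L x)) = l0 x
    rw [hone x (hx.trans hcs), Complex.log_one, add_zero, hLl x (hx.trans hcs)]
    exact hl.2.2 x hx

end T1aux

open T1aux in
theorem T1 : S_T1 := by
  intro U _ Φ hΦ hK c₀ hloc f hf hf0 hlog
  obtain ⟨l0, hl0, hl0e⟩ := hlog
  have hbase : Ext Φ f l0 c₀ c₀ l0 := ⟨hl0, hl0e, fun _ _ => rfl⟩
  set S : Set ℝ := {c | c₀ ≤ c ∧ ∃ l, Ext Φ f l0 c₀ c l} with hS
  have hSne : S.Nonempty := ⟨c₀, le_refl _, l0, hbase⟩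
  have hdown : ∀ c ∈ S, ∀ c', c₀ ≤ c' → c' ≤ c → c' ∈ S := by
    rintro c ⟨-, l, hl⟩ c' h1 h2
    exact ⟨h1, l, hl.mono h2⟩
  have hunb : ¬ BddAbove S := by
    intro hbdd
    have hlub := isLUB_csSup hSne hbdd
    have hc0 : c₀ ≤ sSup S := hlub.1 ⟨le_refl _, l0, hbase⟩
    have hin : ∃ l, Ext Φ f l0 c₀ (sSup S) l := by
      rcases lt_or_eq_of_le hc0 with h | h
      · refine close_up hΦ hK hloc hf hf0 h fun c hc hc' => ?_
        obtain ⟨d, hd, hcd⟩ := exists_lt_of_lt_csSup hSne hc'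
        exact (hdown d hd c hc hcd.le).2
      · rw [← h]; exact ⟨l0, hbase⟩
    obtain ⟨l, hl⟩ := hin
    obtain ⟨c, hc, hc'⟩ := go_up hΦ hK hf hf0 hc0 hl
    exact absurd (hlub.1 ⟨hc0.trans hc.le, hc'⟩) (not_le.2 hc)
  have hall : ∀ y : U, ∃ c ∈ S, Φ y < c := by
    intro y
    rw [not_bddAbove_iff] at hunb
    exact hunb (Φ y)
  obtain ⟨L, hL1, hL2, -⟩ := glue hΦ hK hloc S fun c hc => hc.2
  refine ⟨L, ?_, fun x _ => hL2 x (hall x)⟩
  refine hL1.mono fun y _ => hall y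

end Pool.Agent.R848
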