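import Pool.Agent.R848.T1

set_option autoImplicit false

open Set Filter Topology Metric

namespace Pool.Agent.R848

namespace T2aux

/-- the integer `n` with `a - b = 2 pi i n` when `exp a = exp b` -/
lemma exists_kernel {J : Type} [Fintype J] {T : ℕ} (hT : Fintype.card J < T + 1)
    (n : Fin (T + 1) → J → ℤ) :
    ∃ k : Fin (T + 1) → ℤ, k ≠ 0 ∧ ∀ τ, ∑ a, k a * n a τ = 0 := by
  classical
  let A : Matrix (Option J) (Fin (T + 2)) ℤ := fun τ a =>
    match τ with
    | none => if a = Fin.last (T + 1) then 1 else 0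
    | some τ => if h : (a : ℕ) < T + 1 then n ⟨a, h⟩ τ else 0
  have hcard : Fintype.card (Option J) < Fintype.card (Fin (T + 2)) := by
    rw [Fintype.card_option, Fintype.card_fin]; omega
  have hpos : 0 < Fintype.card (Option J) := Fintype.card_pos
  obtain ⟨t, ht, hA, -⟩ := Int.Matrix.exists_ne_zero_int_vec_norm_le A hcard hpos
  have hlast : t (Fin.last (T + 1)) = 0 := by
    have := congrFun hA none
    simp only [Matrix.mulVec, dotProduct, A, Pi.zero_apply] at this
    simpa using this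
  refine ⟨fun a => t a.castSucc, ?_, ?_⟩
  · intro h0
    apply ht
    funext a
    refine Fin.lastCases hlast (fun b => ?_) a
    exact congrFun h0 b
  · intro τ
    have h1 := congrFun hA (some τ)
    simp only [Matrix.mulVec, dotProduct, A, Pi.zero_apply] at h1
    rw [Fin.sum_univ_castSucc, hlast, mul_zero, add_zero] at h1
    rw [← h1]
    refine Finset.sum_congr rfl fun a _ => ?_
    have hlt : ((a.castSucc : Fin (T + 2)) : ℕ) < T + 1 := a.isLt
    rw [dif_pos hlt, mul_comm]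
    rfl

end T2aux

open T1aux T2aux in
theorem T2 : S_T2 := by
  classical
  intro U _ _ hgood K hK
  choose W hW hWlog using hgood
  have hC : ∀ y : U, ∃ C ∈ 𝓝 y, IsClosed C ∧ C ⊆ interior (W y) := fun y =>
    exists_mem_nhds_isClosed_subset (interior_mem_nhds.2 (hW y))
  choose C hCn hCc hCW using hC
  obtain ⟨t, -, htK⟩ := hK.elim_nhds_subcover (fun y => interior (C y))
    fun y _ => interior_mem_nhds.2 (hCn y)
  have hO : ∀ i j : U, IsOpen (interior (W i) ∩ interior (W j)) := fun i j =>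
    isOpen_interior.inter isOpen_interior
  have hF : ∀ i j : U, ∃ F : Finset U, (∀ x ∈ F, x ∈ K ∩ (C i ∩ C j)) ∧
      K ∩ (C i ∩ C j) ⊆ ⋃ x ∈ F, connectedComponentIn (interior (W i) ∩ interior (W j)) x := by
    intro i j
    have hc : IsCompact (K ∩ (C i ∩ C j)) := hK.inter_right ((hCc i).inter (hCc j))
    exact hc.elim_nhds_subcover _ fun x hx =>
      (hO i j).connectedComponentIn.mem_nhds
        (mem_connectedComponentIn ⟨hCW i hx.2.1, hCW j hx.2.2⟩)
  choose F hF1 hF2 using hF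
  let J : Type := (p : t × t) × (F p.1 p.2)
  refine ⟨Fintype.card J, fun f hf hf0 => ?_⟩
  have hl : ∀ (a : Fin (Fintype.card J + 1)) (i : U), ∃ l : U → ℂ, ContinuousOn l (W i) ∧
      ∀ x ∈ W i, Complex.exp (l x) = f a x := fun a i => hWlog i (f a) (hf a) (hf0 a)
  choose l hl1 hl2 using hl
  have hn : ∀ (a : Fin (Fintype.card J + 1)) (τ : J), ∃ n : ℤ,
      l a τ.1.1 τ.2 - l a τ.1.2 τ.2 = n * (2 * Real.pi * Complex.I) := by
    rintro a ⟨⟨i, j⟩, ⟨x, hx⟩⟩
    have hx' := hF1 _ _ x hx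
    refine exp_eq_norm ?_
    show Complex.exp (l a i x) = Complex.exp (l a j x)
    rw [hl2 a i x (interior_subset (hCW _ hx'.2.1)), hl2 a j x (interior_subset (hCW _ hx'.2.2))]
  choose n hn using hn
  obtain ⟨k, hk0, hk⟩ := exists_kernel (J := J) (Nat.lt_succ_self _) n
  refine ⟨k, hk0, ?_⟩
  let lam : U → U → ℂ := fun i x => ∑ a, (k a : ℂ) * l a i x
  have hlam1 : ∀ i, ContinuousOn (lam i) (W i) := fun i =>
    continuousOn_finsetSum _ fun a _ => continuousOn_const.mul (hl1 a i)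
  have hlam2 : ∀ i, ∀ x ∈ W i, Complex.exp (lam i x) = ∏ a, f a x ^ k a := by
    intro i x hx
    rw [Complex.exp_sum]
    refine Finset.prod_congr rfl fun a _ => ?_
    rw [Complex.exp_int_mul, hl2 a i x hx]
  have hagree : ∀ i ∈ t, ∀ j ∈ t, ∀ x ∈ K ∩ (C i ∩ C j), lam i x = lam j x := by
    intro i hi j hj x hx
    obtain ⟨y, hy⟩ := mem_iUnion.1 (hF2 i j hx)
    obtain ⟨hyF, hxy⟩ := mem_iUnion.1 hy
    have hsub := connectedComponentIn_subset (interior (W i) ∩ interior (W j)) y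
    have hyO : y ∈ interior (W i) ∩ interior (W j) :=
      ⟨hCW i (hF1 i j y hyF).2.1, hCW j (hF1 i j y hyF).2.2⟩
    have h1 := log_sub_const (isPreconnected_connectedComponentIn
        (F := interior (W i) ∩ interior (W j)) (x := y)) (l := lam i) (l' := lam j)
      ((hlam1 i).mono fun z hz => interior_subset (hsub hz).1)
      ((hlam1 j).mono fun z hz => interior_subset (hsub hz).2)
      (fun z hz => by
        rw [hlam2 i z (interior_subset (hsub hz).1), hlam2 j z (interior_subset (hsub hz).2)])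
      hxy (mem_connectedComponentIn hyO)
    have h2 : lam i y - lam j y = 0 := by
      have h3 := hk ⟨(⟨i, hi⟩, ⟨j, hj⟩), ⟨y, hyF⟩⟩
      show ∑ a, (k a : ℂ) * l a i y - ∑ a, (k a : ℂ) * l a j y = 0
      rw [← Finset.sum_sub_distrib]
      have h4 : ∀ a, (k a : ℂ) * l a i y - (k a : ℂ) * l a j y =
          ((k a * n a ⟨(⟨i, hi⟩, ⟨j, hj⟩), ⟨y, hyF⟩⟩ : ℤ) : ℂ) * (2 * Real.pi * Complex.I) := by
        intro a
        have h5 := hn a ⟨(⟨i, hi⟩, ⟨j, hj⟩), ⟨y, hyF⟩⟩
        have h6 : l a i y - l a j y = n a ⟨(⟨i, hi⟩, ⟨j, hj⟩), ⟨y, hyF⟩⟩ *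
          (2 * Real.pi * Complex.I) := h5
        rw [← mul_sub, h6]
        push_cast
        ring
      rw [Finset.sum_congr rfl fun a _ => h4 a, ← Finset.sum_mul, ← Int.cast_sum, h3]
      simp
    rw [h2] at h1
    exact sub_eq_zero.1 h1
  have hidx : ∀ y : U, ∃ i : U, y ∈ K → i ∈ t ∧ y ∈ interior (C i) := by
    intro y
    by_cases hy : y ∈ K
    · obtain ⟨i, hi⟩ := mem_iUnion.1 (htK hy)
      obtain ⟨hi1, hi2⟩ := mem_iUnion.1 hi
      exact ⟨i, fun _ => ⟨hi1, hi2⟩⟩
    · exact ⟨y, fun h => absurd h hy⟩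
  choose idx hidx using hidx
  have hΛ : ∀ j ∈ t, ∀ y ∈ K, y ∈ C j → lam (idx y) y = lam j y := by
    intro j hj y hy hyj
    obtain ⟨h1, h2⟩ := hidx y hy
    exact hagree _ h1 j hj y ⟨hy, interior_subset h2, hyj⟩
  refine ⟨fun y => lam (idx y) y, ?_, ?_⟩
  · intro y hy
    obtain ⟨h1, h2⟩ := hidx y hy
    have hyW : y ∈ interior (W (idx y)) := hCW _ (interior_subset h2)
    have hcont : ContinuousAt (lam (idx y)) y :=
      (hlam1 (idx y)).continuousAt (mem_interior_iff_mem_nhds.1 hyW)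
    refine hcont.continuousWithinAt.congr_of_eventuallyEq ?_ rfl
    filter_upwards [self_mem_nhdsWithin, mem_nhdsWithin_of_mem_nhds (isOpen_interior.mem_nhds h2)]
      with z hz hz'
    exact hΛ _ h1 z hz (interior_subset hz')
  · intro y hy
    obtain ⟨h1, h2⟩ := hidx y hy
    exact hlam2 _ y (interior_subset (hCW _ (interior_subset h2)))

end Pool.Agent.R848
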