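import Mathlib
import Pool.Agent.R848.Count
import Pool.Agent.R848.T1
import Pool.Agent.R848.T2
import Pool.Agent.R848.H
import Pool.Agent.R848.L
import Pool.Agent.R848.N
import Pool.Agent.R848.Crit

/-! Assembly: uniform bound for the number of nonconstant holomorphic functions omitting `0` and `1`. -/

set_option autoImplicit false

open Set Filter Topology Metric

namespace Pool.Agent.R848

theorem final (hG : S_G) (n : ℕ) (X : Set (Fin n → ℂ))
    (hXalg : ∃ S : Set (MvPolynomial (Fin n) ℂ), X = {x | ∀ P ∈ S, MvPolynomial.eval x P = 0})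
    (hXsub : IsSub X) (hXconn : IsConnected X) :
    ∃ B : ℕ, ∀ (m : ℕ) (Y : Set (Fin m → ℂ)),
      (∃ S : Set (MvPolynomial (Fin m) ℂ), Y = {y | ∀ P ∈ S, MvPolynomial.eval y P = 0}) →
      IsSub Y → IsConnected Y → Nonempty (↥X ≃ₜ ↥Y) →
      {g : ↥Y → ℂ | (∀ y, g y ≠ 0 ∧ g y ≠ 1) ∧ (∃ a b, g a ≠ g b) ∧
        ∀ p : ↥Y, ∃ U : Set (Fin m → ℂ), IsOpen U ∧ (p : Fin m → ℂ) ∈ U ∧
          ∃ h : (Fin m → ℂ) → ℂ, DifferentiableOn ℂ h U ∧
            ∀ y : ↥Y, (y : Fin m → ℂ) ∈ U → h y = g y}.encard ≤ (B : ℕ∞) := by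
  obtain ⟨d, z, P, hX, p, hp⟩ := exists_ch hG hXalg hXsub hXconn
  obtain ⟨T, hT⟩ := hX.rank (Crit N) H T1 T2 hp
  refine ⟨16 ^ T, fun m Y hYalg hYsub hYconn hXY => ?_⟩
  obtain ⟨e⟩ := hXY
  have hTY : ∀ f : Fin (T + 1) → Y → ℂ, (∀ i, Continuous (f i)) → (∀ i x, f i x ≠ 0) →
      ∃ k : Fin (T + 1) → ℤ, k ≠ 0 ∧ HasLog (fun x => ∏ i, f i x ^ k i) univ := by
    intro f hf hf0
    obtain ⟨k, hk, l, hl, hle⟩ := hT (fun i x => f i (e x)) (fun i => (hf i).comp e.continuous)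
      fun i x => hf0 i _
    refine ⟨k, hk, fun y => l (e.symm y), ?_, fun y _ => ?_⟩
    · exact ((continuousOn_univ.1 hl).comp e.symm.continuous).continuousOn
    · rw [hle _ (mem_univ _)]
      simp only [Homeomorph.apply_symm_apply]
  obtain ⟨d', z', P', hY, -⟩ := exists_ch hG hYalg hYsub hYconn
  set 𝒮 : Set (Y → ℂ) := {g : ↥Y → ℂ | (∀ y, g y ≠ 0 ∧ g y ≠ 1) ∧ (∃ a b, g a ≠ g b) ∧
        ∀ p : ↥Y, ∃ U : Set (Fin m → ℂ), IsOpen U ∧ (p : Fin m → ℂ) ∈ U ∧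
          ∃ h : (Fin m → ℂ) → ℂ, DifferentiableOn ℂ h U ∧
            ∀ y : ↥Y, (y : Fin m → ℂ) ∈ U → h y = g y} with h𝒮
  by_contra hcon
  push Not at hcon
  obtain ⟨t, htS, htc⟩ := Set.exists_subset_encard_eq (Order.add_one_le_of_lt hcon)
  have htfin : t.Finite := by
    apply Set.finite_of_encard_le_coe (k := 16 ^ T + 1)
    rw [htc]
    push_cast
    exact le_rfl
  have : Fintype t := htfin.fintype
  classical
  let ex : (Y → ℂ) → (Fin m → ℂ) → ℂ := fun g y => if hy : y ∈ Y then g ⟨y, hy⟩ else 0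
  have hex : ∀ (g : Y → ℂ) (y : Fin m → ℂ) (hy : y ∈ Y), ex g y = g ⟨y, hy⟩ :=
    fun g y hy => dif_pos hy
  have key := hY.main N L hTY (ι := t) (fun g => ex g.1)
    (fun g p hp => by
      obtain ⟨U, hU, hpU, h, hh, hhg⟩ := (htS g.2).2.2 ⟨p, hp⟩
      refine ⟨U, hU, hpU, h, hh, fun y hy hyU => ?_⟩
      rw [hex g.1 y hy]
      exact hhg ⟨y, hy⟩ hyU)
    (fun g y hy => by rw [hex g.1 y hy]; exact ((htS g.2).1 _).1)
    (fun g y hy => by rw [hex g.1 y hy]; exact ((htS g.2).1 _).2)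
    (fun g => by
      obtain ⟨a, b, hab⟩ := (htS g.2).2.1
      refine ⟨a, a.2, b, b.2, ?_⟩
      rw [hex g.1 a a.2, hex g.1 b b.2]
      exact hab)
    (fun g g' hgg => by
      apply Subtype.ext
      funext y
      have := hgg y y.2
      rw [hex g.1 y y.2, hex g'.1 y y.2] at this
      exact this)
  have h1 : t.encard = (Fintype.card t : ℕ∞) := by
    rw [Set.encard_eq_coe_toFinset_card, Set.toFinset_card]
  rw [h1] at htc
  have h2 : Fintype.card t = 16 ^ T + 1 := by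
    exact_mod_cast htc
  omega

end Pool.Agent.R848
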