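import Pool.Agent.R848.Stm

set_option autoImplicit false

open Set Filter Topology Metric

namespace Pool.Agent.R848

namespace Gaux

open Polynomial

section algebra

open scoped nonZeroDivisors

lemma field_aux {L : Type} [Field L] (x y z : L) (hy : y ≠ 0) (hz : z ≠ 0) :
    (y * z)⁻¹ * (x * z) = x / y := by
  field_simp

lemma exists_mul_eq {B A : Type} [CommRing B] [IsDomain B] [CommRing A] [IsDomain A]
    [Algebra B A] [Algebra.IsIntegral B A] {b : A} (hb : b ≠ 0) :
    ∃ (c : B) (w : A), c ≠ 0 ∧ algebraMap B A c = b * w := by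
  have h := Ideal.comap_ne_bot_of_integral_mem (R := B) (I := Ideal.span {b}) hb
    (Ideal.mem_span_singleton_self b) (Algebra.IsIntegral.isIntegral b)
  obtain ⟨c, hc, hc0⟩ := Submodule.exists_mem_ne_zero_of_ne_bot h
  obtain ⟨w, hw⟩ := Ideal.mem_span_singleton'.1 (Ideal.mem_comap.1 hc)
  exact ⟨c, w, hc0, by rw [← hw, mul_comm]⟩

lemma alg_core {B A : Type} [CommRing B] [IsDomain B] [IsIntegrallyClosed B] [CharZero B]
    [CommRing A] [IsDomain A] [Algebra B A] [FaithfulSMul B A] [Algebra.IsIntegral B A]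
    {ι : Type} [Finite ι] (y : ι → A) :
    ∃ (t w : A) (Q : B[X]) (c : B) (D : ι → B) (R : ι → B[X]),
      (∀ G : B[X], aeval t G = 0 → Q ∣ G) ∧ aeval t Q = 0 ∧ c ≠ 0 ∧
      algebraMap B A c = aeval t (derivative Q) * w ∧
      ∀ j, D j ≠ 0 ∧ algebraMap B A (D j) * y j = aeval t (R j) := by
  classical
  let K := FractionRing B
  let L := FractionRing A
  let _ : Algebra K L := FractionRing.liftAlgebra B L
  have : IsScalarTower B K L := FractionRing.isScalarTower_liftAlgebra B L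
  have hKL : ∀ b : B, algebraMap K L (algebraMap B K b) = algebraMap A L (algebraMap B A b) := by
    intro b
    rw [← IsScalarTower.algebraMap_apply B K L, ← IsScalarTower.algebraMap_apply B A L]
  have hAL : Function.Injective (algebraMap A L) := IsFractionRing.injective A L
  have : CharZero K := inferInstance
  let S : Set L := range fun j => algebraMap A L (y j)
  have hSint : ∀ x ∈ S, IsIntegral K x := by
    rintro x ⟨j, rfl⟩
    have h1 : IsIntegral B (algebraMap A L (y j)) := (Algebra.IsIntegral.isIntegral (R := B) (y j)).algebraMap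
    exact h1.tower_top
  have : Finite S := Set.finite_range _
  have := IntermediateField.finiteDimensional_adjoin hSint
  obtain ⟨α, hα⟩ := Field.exists_primitive_element K (IntermediateField.adjoin K S)
  have hr : ∀ j, ∃ r : K[X], aeval (α : L) r = algebraMap A L (y j) := by
    intro j
    let y' : IntermediateField.adjoin K S := ⟨algebraMap A L (y j), IntermediateField.subset_adjoin K S ⟨j, rfl⟩⟩
    have h1 : y' ∈ (IntermediateField.adjoin K {α}).toSubalgebra := by
      rw [hα]; trivial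
    rw [IntermediateField.adjoin_simple_toSubalgebra_of_isAlgebraic
      (Algebra.IsAlgebraic.isAlgebraic α), Algebra.adjoin_singleton_eq_range_aeval] at h1
    obtain ⟨r, hr⟩ := h1
    refine ⟨r, ?_⟩
    have h2 := congrArg (algebraMap (IntermediateField.adjoin K S) L) hr
    have h3 : algebraMap (IntermediateField.adjoin K S) L (aeval α r) =
        aeval (algebraMap (IntermediateField.adjoin K S) L α) r :=
      (aeval_algebraMap_apply L α r).symm
    exact h3.symm.trans h2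
  choose r hr using hr
  obtain ⟨a, b, hb, hab⟩ := IsFractionRing.div_surjective A (α : L)
  have hb0 : b ≠ 0 := nonZeroDivisors.ne_zero hb
  obtain ⟨c0, b', hc0, hcb⟩ := exists_mul_eq (B := B) hb0
  have hbL : algebraMap A L b ≠ 0 := fun h => hb0 (hAL (by rw [h, map_zero]))
  have hc0K : (algebraMap B K c0) ≠ 0 := fun h => hc0 (IsFractionRing.injective B K (by rw [h, map_zero]))
  have ht : (algebraMap K L (algebraMap B K c0)⁻¹) * algebraMap A L (a * b') = α := by
    rw [map_inv₀, hKL, hcb, ← hab, map_mul, map_mul]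
    have hb'L : algebraMap A L b' ≠ 0 := by
      intro h
      have : b' = 0 := hAL (by rw [h, map_zero])
      rw [this, mul_zero] at hcb
      exact hc0 (FaithfulSMul.algebraMap_injective B A (by rw [hcb, map_zero]))
    exact field_aux _ _ _ hbL hb'L
  set t : A := a * b' with htdef
  have hint : IsIntegral B t := Algebra.IsIntegral.isIntegral t
  have hDR : ∀ j, ∃ (D : B) (R : B[X]), D ≠ 0 ∧ algebraMap B A D * y j = aeval t R := by
    intro j
    let r' : K[X] := (r j).comp (C (algebraMap B K c0)⁻¹ * X)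
    obtain ⟨D, hD, hDe⟩ := IsLocalization.integerNormalization_spec B⁰ r'
    refine ⟨D, IsLocalization.integerNormalization B⁰ r', nonZeroDivisors.ne_zero hD, ?_⟩
    apply hAL
    rw [map_mul, ← hKL, ← aeval_algebraMap_apply, ← aeval_map_algebraMap K, hDe]
    have h1 : aeval (algebraMap A L t) (D • r') = algebraMap K L (algebraMap B K D) *
        aeval (algebraMap A L t) r' := by
      rw [← algebraMap_smul K D r', map_smul, Algebra.smul_def]
    rw [h1, aeval_comp, map_mul, aeval_C, aeval_X, ht, hr j]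
  choose D R hD hDR using hDR
  have hQ' : aeval t (derivative (minpoly B t)) ≠ 0 := by
    intro h
    rw [minpoly.isIntegrallyClosed_dvd_iff hint] at h
    have hm := minpoly.monic hint
    have hpos := minpoly.natDegree_pos hint
    refine hm.not_dvd_of_natDegree_lt ?_ (natDegree_derivative_lt hpos.ne') h
    intro h0
    have := derivative_eq_zero.1 h0
    omega
  obtain ⟨c, w, hc, hcw⟩ := exists_mul_eq (B := B) hQ'
  exact ⟨t, w, minpoly B t, c, D, R, fun G hG => (minpoly.isIntegrallyClosed_dvd_iff hint G).1 hG,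
    minpoly.aeval B t, hc, hcw, fun j => ⟨hD j, hDR j⟩⟩

end algebra

/-- evaluation of a polynomial over polynomials -/
noncomputable def E {d : ℕ} (ζ : Fin d → ℂ) (τ : ℂ) (R : Polynomial (MvPolynomial (Fin d) ℂ)) : ℂ :=
  Polynomial.eval₂ (MvPolynomial.eval ζ) τ R

lemma E_eq_sum {d : ℕ} (ζ : Fin d → ℂ) (τ : ℂ) (R : Polynomial (MvPolynomial (Fin d) ℂ)) :
    E ζ τ R = ∑ i ∈ Finset.range (R.natDegree + 1), MvPolynomial.eval ζ (R.coeff i) * τ ^ i :=
  Polynomial.eval₂_eq_sum_range _ _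

lemma root_bound {d : ℕ} (q : Polynomial (MvPolynomial (Fin d) ℂ)) (hq : q.Monic) (R : ℝ) :
    ∃ R' : ℝ, ∀ ζ : Fin d → ℂ, ‖ζ‖ ≤ R → ∀ w : ℂ, E ζ w q = 0 → ‖w‖ ≤ R' := by
  have hb : ∀ i : ℕ, ∃ M : ℝ, ∀ ζ ∈ closedBall (0 : Fin d → ℂ) R,
      ‖MvPolynomial.eval ζ (q.coeff i)‖ ≤ M := fun i =>
    (isCompact_closedBall _ _).exists_bound_of_continuousOn (MvPolynomial.continuous_eval _).continuousOn
  choose M hM using hb
  refine ⟨1 + ∑ i ∈ Finset.range q.natDegree, |M i|, fun ζ hζ w hw => ?_⟩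
  by_contra hlt
  rw [not_le] at hlt
  have hζ' : ζ ∈ closedBall (0 : Fin d → ℂ) R := by rwa [mem_closedBall_zero_iff]
  have hsum0 : 0 ≤ ∑ i ∈ Finset.range q.natDegree, |M i| := Finset.sum_nonneg fun i _ => abs_nonneg _
  have hw1 : 1 < ‖w‖ := by linarith
  rw [E_eq_sum, Finset.sum_range_succ, hq.coeff_natDegree, map_one, one_mul] at hw
  have h1 : w ^ q.natDegree = - ∑ i ∈ Finset.range q.natDegree, MvPolynomial.eval ζ (q.coeff i) * w ^ i := by
    linear_combination hw
  rcases Nat.eq_zero_or_pos q.natDegree with h0 | hpos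
  · rw [h0] at h1
    simp at h1
  have h2 : ‖w‖ ^ q.natDegree ≤ (∑ i ∈ Finset.range q.natDegree, |M i|) * ‖w‖ ^ (q.natDegree - 1) := by
    rw [← norm_pow, h1, norm_neg, Finset.sum_mul]
    refine (norm_sum_le _ _).trans (Finset.sum_le_sum fun i hi => ?_)
    rw [norm_mul, norm_pow]
    have hi' : i ≤ q.natDegree - 1 := by
      have := Finset.mem_range.1 hi
      omega
    exact mul_le_mul ((hM i ζ hζ').trans (le_abs_self _)) (pow_le_pow_right₀ hw1.le hi')
      (by positivity) (abs_nonneg _)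
  have h3 : ‖w‖ ^ q.natDegree = ‖w‖ * ‖w‖ ^ (q.natDegree - 1) := by
    rw [← pow_succ', Nat.sub_add_cancel hpos]
  rw [h3] at h2
  have h4 : 0 < ‖w‖ ^ (q.natDegree - 1) := by positivity
  have h5 := le_of_mul_le_mul_right h2 h4
  linarith

/-- the key evaluation principle -/
lemma eval_principle {m d : ℕ} {A : Type} [CommRing A] [IsDomain A]
    (φ : MvPolynomial (Fin m) ℂ →+* A)
    (g : MvPolynomial (Fin d) ℂ →+* A)
    (hφg : ∀ a : ℂ, φ (MvPolynomial.C a) = g (MvPolynomial.C a))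
    (t : A) (Q : Polynomial (MvPolynomial (Fin d) ℂ))
    (hQ : ∀ G : Polynomial (MvPolynomial (Fin d) ℂ), Polynomial.eval₂ g t G = 0 → Q ∣ G)
    (D : Fin m → MvPolynomial (Fin d) ℂ) (R : Fin m → Polynomial (MvPolynomial (Fin d) ℂ))
    (hDR : ∀ j, g (D j) * φ (MvPolynomial.X j) = Polynomial.eval₂ g t (R j))
    (ζ : Fin d → ℂ) (τ : ℂ) (s : Fin m → ℂ) (hD : ∀ j, MvPolynomial.eval ζ (D j) ≠ 0)
    (hs : ∀ j, MvPolynomial.eval ζ (D j) * s j = E ζ τ (R j)) (hτ : E ζ τ Q = 0)
    (p : MvPolynomial (Fin m) ℂ) (G : Polynomial (MvPolynomial (Fin d) ℂ))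
    (hpG : φ p = Polynomial.eval₂ g t G) : MvPolynomial.eval s p = E ζ τ G := by
  have key : ∀ p : MvPolynomial (Fin m) ℂ, ∃ (N : MvPolynomial (Fin d) ℂ)
      (G : Polynomial (MvPolynomial (Fin d) ℂ)), MvPolynomial.eval ζ N ≠ 0 ∧
      g N * φ p = Polynomial.eval₂ g t G ∧ MvPolynomial.eval ζ N * MvPolynomial.eval s p = E ζ τ G := by
    intro p
    induction p using MvPolynomial.induction_on with
    | C a =>
      refine ⟨1, Polynomial.C (MvPolynomial.C a), by simp, ?_, ?_⟩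
      · rw [map_one, one_mul, Polynomial.eval₂_C, hφg]
      · simp [E]
    | add p q hp hq =>
      obtain ⟨N1, G1, h1, h2, h3⟩ := hp
      obtain ⟨N2, G2, k1, k2, k3⟩ := hq
      refine ⟨N1 * N2, Polynomial.C N2 * G1 + Polynomial.C N1 * G2, ?_, ?_, ?_⟩
      · rw [map_mul]; exact mul_ne_zero h1 k1
      · rw [Polynomial.eval₂_add, Polynomial.eval₂_mul, Polynomial.eval₂_mul, Polynomial.eval₂_C,
          Polynomial.eval₂_C, ← h2, ← k2, map_mul, map_add]
        ring
      · rw [E, Polynomial.eval₂_add, Polynomial.eval₂_mul, Polynomial.eval₂_mul, Polynomial.eval₂_C,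
          Polynomial.eval₂_C]
        change _ = MvPolynomial.eval ζ N2 * E ζ τ G1 + MvPolynomial.eval ζ N1 * E ζ τ G2
        rw [← h3, ← k3, map_mul, map_add]
        ring
    | mul_X p j hp =>
      obtain ⟨N1, G1, h1, h2, h3⟩ := hp
      refine ⟨N1 * D j, G1 * R j, ?_, ?_, ?_⟩
      · rw [map_mul]; exact mul_ne_zero h1 (hD j)
      · rw [Polynomial.eval₂_mul, ← h2, ← hDR j, map_mul, map_mul]
        ring
      · rw [E, Polynomial.eval₂_mul]
        change _ = E ζ τ G1 * E ζ τ (R j)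
        rw [← h3, ← hs j, map_mul, map_mul, MvPolynomial.eval_X]
        ring
  obtain ⟨N, G1, hN, h1, h2⟩ := key p
  have h3 : Polynomial.eval₂ g t (Polynomial.C N * G - G1) = 0 := by
    rw [Polynomial.eval₂_sub, Polynomial.eval₂_mul, Polynomial.eval₂_C, ← h1, hpG, sub_self]
  obtain ⟨H, hH⟩ := hQ _ h3
  have h4 : E ζ τ (Polynomial.C N * G - G1) = 0 := by
    rw [hH, E, Polynomial.eval₂_mul]
    change E ζ τ Q * _ = 0
    rw [hτ, zero_mul]
  rw [E, Polynomial.eval₂_sub, Polynomial.eval₂_mul, Polynomial.eval₂_C] at h4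
  change MvPolynomial.eval ζ N * E ζ τ G - E ζ τ G1 = 0 at h4
  rw [← h2, ← mul_sub] at h4
  rcases mul_eq_zero.1 h4 with h | h
  · exact absurd h hN
  · exact (sub_eq_zero.1 h).symm

lemma contDiff_E {d : ℕ} (R : Polynomial (MvPolynomial (Fin d) ℂ)) :
    ContDiff ℂ 1 fun u : (Fin d → ℂ) × ℂ => E u.1 u.2 R := by
  have h1 : ∀ p : MvPolynomial (Fin d) ℂ, ContDiff ℂ 1 fun ζ : Fin d → ℂ => MvPolynomial.eval ζ p := by
    intro p
    have := (AnalyticOnNhd.eval_mvPolynomial (𝕜 := ℂ) p)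
    rw [contDiff_iff_contDiffAt]
    intro x
    exact (this x (mem_univ _)).contDiffAt
  simp only [E_eq_sum]
  exact ContDiff.sum fun i _ => ((h1 _).comp contDiff_fst).mul (contDiff_snd.pow i)

lemma div_diff {V : Type} [NormedAddCommGroup V] [NormedSpace ℂ V] {a b : V → ℂ} {x : V}
    (ha : DifferentiableAt ℂ a x) (hb : DifferentiableAt ℂ b x) (h : b x ≠ 0) :
    DifferentiableAt ℂ (fun v => a v / b v) x := by
  simp only [div_eq_mul_inv]
  exact ha.mul (hb.inv h)

lemma quot_diff {d : ℕ} (R : Polynomial (MvPolynomial (Fin d) ℂ)) (D : MvPolynomial (Fin d) ℂ)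
    {τ : (Fin d → ℂ) → ℂ} {ζ : Fin d → ℂ} (hτ : DifferentiableAt ℂ τ ζ)
    (hD : MvPolynomial.eval ζ D ≠ 0) :
    DifferentiableAt ℂ (fun ζ : Fin d → ℂ => E ζ (τ ζ) R / MvPolynomial.eval ζ D) ζ := by
  have hE : DifferentiableAt ℂ (fun ζ : Fin d → ℂ => E ζ (τ ζ) R) ζ :=
    ((contDiff_E R).differentiable (by norm_num)).differentiableAt.comp ζ
      (differentiableAt_id.prodMk hτ)
  have hDd : DifferentiableAt ℂ (fun ζ : Fin d → ℂ => MvPolynomial.eval ζ D) ζ :=
    ((AnalyticOnNhd.eval_mvPolynomial (𝕜 := ℂ) D) ζ (mem_univ _)).differentiableAt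
  exact div_diff hE hDd hD

/-- the implicit function -/
lemma implicit {d : ℕ} (Q : Polynomial (MvPolynomial (Fin d) ℂ)) (ζ₀ : Fin d → ℂ) (τ₀ : ℂ)
    (h0 : E ζ₀ τ₀ Q = 0) (h1 : E ζ₀ τ₀ (Polynomial.derivative Q) ≠ 0) :
    ∃ τ : (Fin d → ℂ) → ℂ, τ ζ₀ = τ₀ ∧ (∀ᶠ ζ in 𝓝 ζ₀, E ζ (τ ζ) Q = 0) ∧
      (∀ᶠ ζ in 𝓝 ζ₀, DifferentiableAt ℂ τ ζ) ∧
      ∀ᶠ v : (Fin d → ℂ) × ℂ in 𝓝 (ζ₀, τ₀), E v.1 v.2 Q = 0 → τ v.1 = v.2 := by
  set F : (Fin d → ℂ) × ℂ → ℂ := fun u => E u.1 u.2 Q with hF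
  have hcd : ContDiffAt ℂ 1 F (ζ₀, τ₀) := (contDiff_E Q).contDiffAt
  have hpart : (fderiv ℂ F (ζ₀, τ₀) ∘L .inr ℂ (Fin d → ℂ) ℂ) =
      ContinuousLinearMap.toSpanSingleton ℂ (E ζ₀ τ₀ (Polynomial.derivative Q)) := by
    ext
    have hfd : HasFDerivAt F (fderiv ℂ F (ζ₀, τ₀)) (ζ₀, τ₀) :=
      (hcd.differentiableAt (by norm_num)).hasFDerivAt
    have hinner : HasDerivAt (fun x : ℂ => ((ζ₀, x) : (Fin d → ℂ) × ℂ)) (0, 1) τ₀ :=
      (hasDerivAt_const _ _).prodMk (hasDerivAt_id _)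
    have hc := hfd.comp_hasDerivAt τ₀ hinner
    have hd : HasDerivAt (fun x : ℂ => E ζ₀ x Q) (E ζ₀ τ₀ (Polynomial.derivative Q)) τ₀ := by
      have := (Q.map (MvPolynomial.eval ζ₀)).hasDerivAt τ₀
      rw [Polynomial.derivative_map] at this
      simpa [E, Polynomial.eval_map] using this
    have hu := hc.unique hd
    simpa using hu
  have hinv : (fderiv ℂ F (ζ₀, τ₀) ∘L .inr ℂ (Fin d → ℂ) ℂ).IsInvertible := by
    rw [hpart]
    refine ⟨ContinuousLinearEquiv.unitsEquivAut ℂ (Units.mk0 _ h1), ?_⟩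
    ext
    simp
  have hn : (1 : WithTop ℕ∞) ≠ 0 := one_ne_zero
  refine ⟨hcd.implicitFunction hn hinv, hcd.implicitFunction_apply_self hn hinv, ?_, ?_, ?_⟩
  · have := hcd.eventually_apply_implicitFunction hn hinv
    filter_upwards [this] with ζ hζ
    exact hζ.trans h0
  · have := (hcd.contDiffAt_implicitFunction hn hinv).eventually (by simp)
    filter_upwards [this] with ζ hζ
    exact hζ.differentiableAt (by norm_num)
  · have := hcd.eventually_apply_eq_iff_implicitFunction hn hinv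
    filter_upwards [this] with v hv hv0
    exact hv.1 (hv0.trans h0.symm)

end Gaux

open Gaux in
theorem G : S_G := by
  classical
  rintro m Y ⟨S, hYS⟩ hYne hprime
  -- the vanishing ideal
  let I : Ideal (MvPolynomial (Fin m) ℂ) :=
    { carrier := {p | ∀ y ∈ Y, MvPolynomial.eval y p = 0}
      add_mem' := fun {a b} ha hb y hy => by rw [map_add, ha y hy, hb y hy, add_zero]
      zero_mem' := fun y _ => map_zero _
      smul_mem' := fun c p hp y hy => by rw [smul_eq_mul, map_mul, hp y hy, mul_zero] }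
  have hI : ∀ p, p ∈ I ↔ ∀ y ∈ Y, MvPolynomial.eval y p = 0 := fun p => Iff.rfl
  have hIp : I.IsPrime := by
    refine ⟨?_, ?_⟩
    · intro h
      obtain ⟨y, hy⟩ := hYne
      have h1 : (1 : MvPolynomial (Fin m) ℂ) ∈ I := by rw [h]; trivial
      have := h1 y hy
      simp at this
    · intro f g hfg
      exact hprime f g fun y hy => by
        have := hfg y hy
        rw [map_mul] at this
        exact mul_eq_zero.1 this
  let A := MvPolynomial (Fin m) ℂ ⧸ I
  have : IsDomain A := Ideal.Quotient.isDomain I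
  let φ : MvPolynomial (Fin m) ℂ →+* A := Ideal.Quotient.mk I
  have hφs : Function.Surjective φ := Ideal.Quotient.mk_surjective
  have hφ0 : ∀ p, φ p = 0 ↔ ∀ y ∈ Y, MvPolynomial.eval y p = 0 := fun p =>
    Ideal.Quotient.eq_zero_iff_mem
  obtain ⟨d, g, hginj, hgfin⟩ := exists_finite_inj_algHom_of_fg ℂ A
  let gr : MvPolynomial (Fin d) ℂ →+* A := g.toRingHom
  have hgr : Function.Injective gr := hginj
  have hφg : ∀ a : ℂ, φ (MvPolynomial.C a) = gr (MvPolynomial.C a) := by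
    intro a
    have h1 : gr (MvPolynomial.C a) = algebraMap ℂ A a := g.commutes a
    rw [h1]
    rfl
  -- evaluation at points of Y
  have hev : ∀ y ∈ Y, ∃ ev : A →+* ℂ, ∀ p, ev (φ p) = MvPolynomial.eval y p := fun y hy =>
    ⟨Ideal.Quotient.lift I (MvPolynomial.eval y) fun p hp => hp y hy, fun p => rfl⟩
  have : Nonempty (A →+* ℂ) := by
    obtain ⟨y, hy⟩ := hYne
    exact ⟨(hev y hy).choose⟩
  choose! ev hev using hev
  choose z hz using fun i : Fin d => hφs (gr (MvPolynomial.X i))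
  have hevg : ∀ y ∈ Y, ∀ p, ev y (gr p) = MvPolynomial.eval (zmap z y) p := by
    intro y hy p
    have h1 : (ev y).comp gr = MvPolynomial.eval (zmap z y) := by
      apply MvPolynomial.ringHom_ext
      · intro a
        rw [RingHom.comp_apply, ← hφg, hev y hy]
        simp
      · intro i
        rw [RingHom.comp_apply, ← hz i, hev y hy, MvPolynomial.eval_X]
        rfl
    rw [← h1]
    rfl
  let _ : Algebra (MvPolynomial (Fin d) ℂ) A := gr.toAlgebra
  have halg : ∀ p, algebraMap (MvPolynomial (Fin d) ℂ) A p = gr p := fun p => rfl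
  have : FaithfulSMul (MvPolynomial (Fin d) ℂ) A :=
    (faithfulSMul_iff_algebraMap_injective _ _).2 hgr
  have : Module.Finite (MvPolynomial (Fin d) ℂ) A := hgfin
  have : Algebra.IsIntegral (MvPolynomial (Fin d) ℂ) A := inferInstance
  have haev : ∀ (t : A) (G : Polynomial (MvPolynomial (Fin d) ℂ)),
      Polynomial.aeval t G = Polynomial.eval₂ gr t G := fun t G => rfl
  have hevE : ∀ y ∈ Y, ∀ (t : A) (G : Polynomial (MvPolynomial (Fin d) ℂ)),
      ev y (Polynomial.eval₂ gr t G) = E (zmap z y) (ev y t) G := by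
    intro y hy t G
    rw [Polynomial.hom_eval₂, E]
    have h1 : (ev y).comp gr = MvPolynomial.eval (zmap z y) := RingHom.ext fun p => hevg y hy p
    rw [h1]
  obtain ⟨t, w, Q, c, D, R, hQ, hQ0, hc0, hc, hDR⟩ :=
    alg_core (B := MvPolynomial (Fin d) ℂ) (A := A) fun j : Fin m => φ (MvPolynomial.X j)
  have hD0 := fun j => (hDR j).1
  have hDR := fun j => (hDR j).2
  simp only [halg, haev] at hQ hQ0 hc hDR
  let P : MvPolynomial (Fin d) ℂ := c * ∏ j, D j
  have hP0 : P ≠ 0 := mul_ne_zero hc0 (Finset.prod_ne_zero_iff.2 fun j _ => hD0 j)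
  refine ⟨d, z, P, ?_, ?_, ?_⟩
  · -- properness
    intro r
    have hq : ∀ j : Fin m, ∃ r' : ℝ, ∀ y ∈ Y, ‖zmap z y‖ ≤ r → ‖y j‖ ≤ r' := by
      intro j
      obtain ⟨q, hqm, hq0⟩ := Algebra.IsIntegral.isIntegral (R := MvPolynomial (Fin d) ℂ)
        (φ (MvPolynomial.X j))
      obtain ⟨r', hr'⟩ := root_bound q hqm r
      refine ⟨r', fun y hy hyr => hr' _ hyr _ ?_⟩
      have h1 := hevE y hy (φ (MvPolynomial.X j)) q
      have h2 : Polynomial.eval₂ gr (φ (MvPolynomial.X j)) q = 0 := hq0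
      rw [h2, map_zero, hev y hy, MvPolynomial.eval_X] at h1
      exact h1.symm
    choose r' hr' using hq
    refine ⟨∑ j, |r' j|, fun y hy hyr => ?_⟩
    rw [pi_norm_le_iff_of_nonneg (Finset.sum_nonneg fun _ _ => abs_nonneg _)]
    intro j
    exact ((hr' j y hy hyr).trans (le_abs_self _)).trans
      (Finset.single_le_sum (f := fun j => |r' j|) (fun _ _ => abs_nonneg _) (Finset.mem_univ j))
  · by_contra hcon
    push Not at hcon
    apply hP0
    apply hgr
    rw [map_zero]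
    obtain ⟨p, hp⟩ := hφs (gr P)
    rw [← hp, hφ0]
    intro y hy
    rw [← hev y hy, hp, hevg y hy]
    exact hcon y hy
  · intro y₀ hy₀ hPy
    set ζ₀ := zmap z y₀ with hζ₀
    have hcD : MvPolynomial.eval ζ₀ c ≠ 0 ∧ ∀ j, MvPolynomial.eval ζ₀ (D j) ≠ 0 := by
      simp only [P, map_mul, map_prod] at hPy
      exact ⟨left_ne_zero_of_mul hPy, fun j =>
        Finset.prod_ne_zero_iff.1 (right_ne_zero_of_mul hPy) j (Finset.mem_univ j)⟩
    set τ₀ := ev y₀ t with hτ₀
    have hEQ : ∀ y ∈ Y, E (zmap z y) (ev y t) Q = 0 := by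
      intro y hy
      rw [← hevE y hy, hQ0, map_zero]
    have hED : ∀ y ∈ Y, ∀ j, MvPolynomial.eval (zmap z y) (D j) * y j = E (zmap z y) (ev y t) (R j) := by
      intro y hy j
      rw [← hevE y hy, ← hDR j, map_mul, hevg y hy, hev y hy, MvPolynomial.eval_X]
    have hEQ' : E ζ₀ τ₀ (Polynomial.derivative Q) ≠ 0 := by
      intro h
      apply hcD.1
      rw [hζ₀, ← hevg y₀ hy₀, hc, map_mul, hevE y₀ hy₀, h, zero_mul]
    obtain ⟨τ, hτ0, hτ1, hτ2, hτ3⟩ := implicit Q ζ₀ τ₀ (hEQ y₀ hy₀) hEQ'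
    have hopen : ∀ j, ∀ᶠ ζ in 𝓝 ζ₀, MvPolynomial.eval ζ (D j) ≠ 0 := fun j =>
      (MvPolynomial.continuous_eval (D j)).continuousAt.eventually_ne (hcD.2 j)
    have hopen' : ∀ᶠ ζ in 𝓝 ζ₀, ∀ j, MvPolynomial.eval ζ (D j) ≠ 0 := eventually_all.2 hopen
    obtain ⟨Ω, hΩ, hΩo, hζΩ⟩ := _root_.eventually_nhds_iff.1 ((hτ1.and hτ2).and hopen')
    let s : (Fin d → ℂ) → (Fin m → ℂ) := fun ζ j => E ζ (τ ζ) (R j) / MvPolynomial.eval ζ (D j)
    have hprin : ∀ ζ ∈ Ω, ∀ (p : MvPolynomial (Fin m) ℂ) (G : Polynomial (MvPolynomial (Fin d) ℂ)),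
        φ p = Polynomial.eval₂ gr t G → MvPolynomial.eval (s ζ) p = E ζ (τ ζ) G := by
      intro ζ hζ p G hpG
      obtain ⟨⟨h1, h2⟩, h3⟩ := hΩ ζ hζ
      refine eval_principle φ gr hφg t Q hQ D R hDR ζ (τ ζ) (s ζ) h3 (fun j => ?_) h1 p G hpG
      exact mul_div_cancel₀ _ (h3 j)
    have hsy : ∀ y ∈ Y, (∀ j, MvPolynomial.eval (zmap z y) (D j) ≠ 0) → τ (zmap z y) = ev y t →
        s (zmap z y) = y := by
      intro y hy hD hτy
      funext j
      show E (zmap z y) (τ (zmap z y)) (R j) / MvPolynomial.eval (zmap z y) (D j) = y j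
      rw [hτy, ← hED y hy j]
      exact mul_div_cancel_left₀ _ (hD j)
    have hzcont : Continuous (zmap z) := continuous_pi fun i => MvPolynomial.continuous_eval (z i)
    obtain ⟨tt, htt⟩ := hφs t
    have hevt : ∀ y ∈ Y, ev y t = MvPolynomial.eval y tt := fun y hy => by rw [← htt, hev y hy]
    refine ⟨Ω, s, hΩo, hζΩ, ?_, hsy y₀ hy₀ hcD.2 hτ0, ?_, ?_⟩
    · intro ζ hζ
      obtain ⟨⟨h1, h2⟩, h3⟩ := hΩ ζ hζ
      refine DifferentiableAt.differentiableWithinAt (𝕜 := ℂ) ?_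
      refine differentiableAt_pi.2 fun j => ?_
      exact quot_diff (R j) (D j) h2 (h3 j)
    · intro ζ hζ
      constructor
      · rw [hYS]
        intro p hp
        have hp0 : φ p = 0 := (hφ0 p).2 fun y hy => by
          rw [hYS] at hy
          exact hy p hp
        have h1 := hprin ζ hζ p 0 (by rw [hp0, Polynomial.eval₂_zero])
        rw [h1, E, Polynomial.eval₂_zero]
      · funext i
        show MvPolynomial.eval (s ζ) (z i) = ζ i
        have h1 := hprin ζ hζ (z i) (Polynomial.C (MvPolynomial.X i))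
          (by rw [hz i, Polynomial.eval₂_C])
        rw [h1, E, Polynomial.eval₂_C, MvPolynomial.eval_X]
    · have h1 : Tendsto (fun y => (zmap z y, MvPolynomial.eval y tt)) (𝓝 y₀) (𝓝 (ζ₀, τ₀)) := by
        rw [hτ₀, hevt y₀ hy₀]
        exact (hzcont.prodMk (MvPolynomial.continuous_eval tt)).tendsto y₀
      have h2 : ∀ᶠ y in 𝓝 y₀, zmap z y ∈ Ω :=
        hzcont.continuousAt.eventually (hΩo.mem_nhds hζΩ)
      rw [eventually_nhdsWithin_iff]
      filter_upwards [h1.eventually hτ3, h2] with y hy1 hy2 hyY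
      refine hsy y hyY (hΩ _ hy2).2 ?_
      have h3 := hy1 (by
        show E (zmap z y) (MvPolynomial.eval y tt) Q = 0
        rw [← hevt y hyY]
        exact hEQ y hyY)
      rw [hevt y hyY]
      exact h3

end Pool.Agent.R848
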